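import Mathlib

set_option autoImplicit false

namespace Pool.Agent.Helper1.Balance

variable {n : ℕ}

/-- `r` is a (reflexive) partial order on `Fin n`. -/
def IsPoset (r : Fin n → Fin n → Prop) : Prop :=
  (∀ a, r a a) ∧ (∀ a b c, r a b → r b c → r a c) ∧ (∀ a b, r a b → r b a → a = b)

/-- `s` is an antichain for `r`. -/
def IsAnti (r : Fin n → Fin n → Prop) (s : Finset (Fin n)) : Prop :=
  ∀ a ∈ s, ∀ b ∈ s, a ≠ b → ¬ r a b

/-- The width (largest size of an antichain) of `r` is `w`. -/
def HasWidth (r : Fin n → Fin n → Prop) (w : ℕ) : Prop :=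
  (∃ s : Finset (Fin n), s.card = w ∧ IsAnti r s) ∧
  ∀ s : Finset (Fin n), IsAnti r s → s.card ≤ w

/-- `prob r x y` is the probability that `x` comes before `y` in a uniformly random linear
extension of `r`; a linear extension is a permutation `σ` (`σ a` is the position of `a`) with
`σ a ≤ σ b` whenever `r a b`. -/
noncomputable def prob (r : Fin n → Fin n → Prop) (x y : Fin n) : ℝ :=
  (Nat.card {σ : Equiv.Perm (Fin n) // (∀ a b, r a b → σ a ≤ σ b) ∧ σ x < σ y} : ℝ) /
    (Nat.card {σ : Equiv.Perm (Fin n) // ∀ a b, r a b → σ a ≤ σ b} : ℝ)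

/-- The balance constant: the maximum over incomparable pairs `x, y` of
`min (Pr[x < y]) (Pr[y < x])`, and `0` if there is no incomparable pair (`sSup ∅ = 0`). -/
noncomputable def balance (r : Fin n → Fin n → Prop) : ℝ :=
  sSup {t : ℝ | ∃ x y : Fin n, ¬ r x y ∧ ¬ r y x ∧ t = min (prob r x y) (prob r y x)}

/-- `δ_w`: the infimum of the balance constants of the finite posets of width `w`. -/
noncomputable def deltaW (w : ℕ) : ℝ :=
  sInf {d : ℝ | ∃ (n : ℕ) (r : Fin n → Fin n → Prop),
    IsPoset r ∧ HasWidth r w ∧ d = balance r}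

end Pool.Agent.Helper1.Balance
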