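import Mathlib
import Pool.Agent.Helper1.BalanceDefs

set_option autoImplicit false

namespace Pool.Agent.Helper1.Balance

open Finset

variable {m : ℕ}

/-- insert the last element at position `p` -/
def ins (p : Fin (m + 1)) (σ : Equiv.Perm (Fin m)) : Equiv.Perm (Fin (m + 1)) :=
  (finSuccEquiv' (Fin.last m)).trans ((Equiv.optionCongr σ).trans (finSuccEquiv' p).symm)

@[simp] theorem ins_last (p : Fin (m + 1)) (σ : Equiv.Perm (Fin m)) :
    ins p σ (Fin.last m) = p := by
  simp [ins]

@[simp] theorem ins_castSucc (p : Fin (m + 1)) (σ : Equiv.Perm (Fin m)) (a : Fin m) :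
    ins p σ a.castSucc = p.succAbove (σ a) := by
  simp only [ins, Equiv.trans_apply]
  rw [show (finSuccEquiv' (Fin.last m)) a.castSucc = some a from by
    rw [← Fin.succAbove_last_apply]; exact finSuccEquiv'_succAbove _ _]
  simp

theorem ins_bij : Function.Bijective
    (fun q : Fin (m + 1) × Equiv.Perm (Fin m) => ins q.1 q.2) := by
  rw [Fintype.bijective_iff_injective_and_card]
  constructor
  · rintro ⟨p, σ⟩ ⟨p', σ'⟩ h
    have h1 : p = p' := by
      have := congrArg (fun τ : Equiv.Perm (Fin (m + 1)) => τ (Fin.last m)) h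
      simpa using this
    subst h1
    have h2 : σ = σ' := by
      ext a
      have := congrArg (fun τ : Equiv.Perm (Fin (m + 1)) => τ a.castSucc) h
      simp only [ins_castSucc] at this
      rw [Fin.succAbove_right_injective this]
    rw [h2]
  · simp only [Fintype.card_prod, Fintype.card_fin, Fintype.card_perm]
    rw [Nat.factorial_succ]

/-- linear extensions -/
def IsLE (r : Fin m → Fin m → Prop) (σ : Equiv.Perm (Fin m)) : Prop := ∀ a b, r a b → σ a ≤ σ b

open Classical in
noncomputable def LE (r : Fin m → Fin m → Prop) : Finset (Equiv.Perm (Fin m)) :=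
  univ.filter (IsLE r)

noncomputable def N (r : Fin m → Fin m → Prop) : ℕ := (LE r).card

noncomputable def cnt (r : Fin m → Fin m → Prop) (x y : Fin m) : ℕ :=
  ∑ σ ∈ LE r, if σ x < σ y then 1 else 0

noncomputable def H (r : Fin m → Fin m → Prop) (y : Fin m) : ℕ := ∑ σ ∈ LE r, ((σ y : ℕ) + 1)

theorem prob_eq (r : Fin m → Fin m → Prop) (x y : Fin m) :
    prob r x y = (cnt r x y : ℝ) / (N r : ℝ) := by
  classical
  unfold prob cnt N LE
  congr 2
  · rw [Nat.card_eq_fintype_card, Fintype.card_subtype, ← Finset.sum_filter,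
      Finset.filter_filter, Finset.card_eq_sum_ones]
    refine Finset.sum_congr ?_ (fun _ _ => rfl)
    ext σ
    rw [Finset.mem_filter, Finset.mem_filter]
    rfl
  · rw [Nat.card_eq_fintype_card, Fintype.card_subtype]
    congr 1
    ext σ
    simp [IsLE]

/-- add an isolated point -/
def isoR (r : Fin m → Fin m → Prop) : Fin (m + 1) → Fin (m + 1) → Prop := fun a b =>
  a = b ∨ ∃ a' b', a = Fin.castSucc a' ∧ b = Fin.castSucc b' ∧ r a' b'

/-- add a top element -/
def topR (r : Fin m → Fin m → Prop) : Fin (m + 1) → Fin (m + 1) → Prop := fun a b =>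
  b = Fin.last m ∨ ∃ a' b', a = Fin.castSucc a' ∧ b = Fin.castSucc b' ∧ r a' b'

theorem isLE_iso (r : Fin m → Fin m → Prop) (p : Fin (m + 1)) (σ : Equiv.Perm (Fin m)) :
    IsLE (isoR r) (ins p σ) ↔ IsLE r σ := by
  constructor
  · intro h a b hab
    have := h a.castSucc b.castSucc (Or.inr ⟨a, b, rfl, rfl, hab⟩)
    simp only [ins_castSucc] at this
    exact (Fin.succAbove_le_succAbove_iff).1 this
  · rintro h a b (rfl | ⟨a', b', rfl, rfl, hab⟩)
    · exact le_rfl
    · simp only [ins_castSucc]
      exact (Fin.succAbove_le_succAbove_iff).2 (h _ _ hab)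

theorem isLE_top (r : Fin m → Fin m → Prop) (p : Fin (m + 1)) (σ : Equiv.Perm (Fin m)) :
    IsLE (topR r) (ins p σ) ↔ p = Fin.last m ∧ IsLE r σ := by
  constructor
  · intro h
    refine ⟨?_, ?_⟩
    · have h1 := h ((ins p σ).symm (Fin.last m)) (Fin.last m) (Or.inl rfl)
      rw [Equiv.apply_symm_apply, ins_last] at h1
      exact le_antisymm (Fin.le_last _) h1
    · intro a b hab
      have := h a.castSucc b.castSucc (Or.inr ⟨a, b, rfl, rfl, hab⟩)
      simp only [ins_castSucc] at this
      exact (Fin.succAbove_le_succAbove_iff).1 this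
  · rintro ⟨rfl, h⟩ a b (rfl | ⟨a', b', rfl, rfl, hab⟩)
    · rw [ins_last]
      exact Fin.le_last _
    · simp only [ins_castSucc]
      exact (Fin.succAbove_le_succAbove_iff).2 (h _ _ hab)

theorem sum_iso {M : Type*} [AddCommMonoid M] (r : Fin m → Fin m → Prop)
    (f : Equiv.Perm (Fin (m + 1)) → M) :
    ∑ τ ∈ LE (isoR r), f τ = ∑ σ ∈ LE r, ∑ p, f (ins p σ) := by
  classical
  unfold LE
  rw [Finset.sum_filter, Finset.sum_filter,
    ← Function.Bijective.sum_comp ins_bij (fun τ => if IsLE (isoR r) τ then f τ else 0),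
    Fintype.sum_prod_type_right]
  refine Finset.sum_congr rfl ?_
  intro σ _
  by_cases h : IsLE r σ
  · rw [if_pos h]
    refine Finset.sum_congr rfl ?_
    intro p _
    rw [if_pos ((isLE_iso r p σ).2 h)]
  · rw [if_neg h]
    refine Finset.sum_eq_zero ?_
    intro p _
    rw [if_neg (fun h' => h ((isLE_iso r p σ).1 h'))]

theorem sum_top {M : Type*} [AddCommMonoid M] (r : Fin m → Fin m → Prop)
    (f : Equiv.Perm (Fin (m + 1)) → M) :
    ∑ τ ∈ LE (topR r), f τ = ∑ σ ∈ LE r, f (ins (Fin.last m) σ) := by
  classical
  unfold LE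
  rw [Finset.sum_filter, Finset.sum_filter,
    ← Function.Bijective.sum_comp ins_bij (fun τ => if IsLE (topR r) τ then f τ else 0),
    Fintype.sum_prod_type_right]
  refine Finset.sum_congr rfl ?_
  intro σ _
  rw [Finset.sum_eq_single (Fin.last m)]
  · simp [isLE_top]
  · intro p _ hp
    rw [if_neg]
    rw [isLE_top]
    exact fun h => hp h.1
  · intro h
    exact absurd (Finset.mem_univ _) h

theorem N_eq (r : Fin m → Fin m → Prop) : N r = ∑ σ ∈ LE r, 1 := by
  simp [N]

theorem N_iso (r : Fin m → Fin m → Prop) : N (isoR r) = (m + 1) * N r := by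
  rw [N_eq, sum_iso, N_eq, Finset.mul_sum]
  simp

theorem N_top (r : Fin m → Fin m → Prop) : N (topR r) = N r := by
  rw [N_eq, sum_top, N_eq]

theorem cnt_iso (r : Fin m → Fin m → Prop) (x y : Fin m) :
    cnt (isoR r) x.castSucc y.castSucc = (m + 1) * cnt r x y := by
  unfold cnt
  rw [sum_iso, Finset.mul_sum]
  refine Finset.sum_congr rfl ?_
  intro σ _
  simp only [ins_castSucc, Fin.succAbove_lt_succAbove_iff, Finset.sum_const, Finset.card_univ,
    Fintype.card_fin, smul_eq_mul]

theorem cnt_top (r : Fin m → Fin m → Prop) (x y : Fin m) :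
    cnt (topR r) x.castSucc y.castSucc = cnt r x y := by
  unfold cnt
  rw [sum_top]
  refine Finset.sum_congr rfl ?_
  intro σ _
  simp only [ins_castSucc, Fin.succAbove_lt_succAbove_iff]

theorem succAbove_val (p : Fin (m + 1)) (j : Fin m) :
    ((p.succAbove j : Fin (m + 1)) : ℕ) = j + (if (p : ℕ) ≤ j then 1 else 0) := by
  unfold Fin.succAbove
  by_cases h : j.castSucc < p
  · rw [if_pos h]
    have : ¬ ((p : ℕ) ≤ j) := by
      rw [Fin.lt_def] at h
      simpa using h
    simp [this]
  · rw [if_neg h]
    have : ((p : ℕ) ≤ j) := by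
      rw [Fin.lt_def] at h
      simpa using h
    simp [this]

theorem card_le (j : Fin m) :
    ∑ p : Fin (m + 1), (if (p : ℕ) ≤ j then 1 else 0) = (j : ℕ) + 1 := by
  rw [← Finset.card_filter]
  have h : (univ.filter (fun p : Fin (m + 1) => (p : ℕ) ≤ j)) = Finset.Iic (j.castSucc) := by
    ext p
    simp [Fin.le_def]
  rw [h, Fin.card_Iic]
  simp

theorem cnt_iso_last (r : Fin m → Fin m → Prop) (y : Fin m) :
    cnt (isoR r) (Fin.last m) y.castSucc = H r y := by
  unfold cnt H
  rw [sum_iso]
  refine Finset.sum_congr rfl ?_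
  intro σ _
  rw [← card_le (σ y)]
  refine Finset.sum_congr rfl ?_
  intro p _
  simp only [ins_last, ins_castSucc, Fin.lt_def, succAbove_val]
  by_cases h : (p : ℕ) ≤ σ y
  · simp only [if_pos h]
    rw [if_pos (by omega)]
  · simp only [if_neg h]
    rw [if_neg (by omega)]

theorem cnt_iso_last' (r : Fin m → Fin m → Prop) (y : Fin m) :
    cnt (isoR r) y.castSucc (Fin.last m) + H r y = (m + 1) * N r := by
  rw [← cnt_iso_last, ← N_iso]
  unfold cnt
  rw [← Finset.sum_add_distrib, N_eq]
  refine Finset.sum_congr rfl ?_
  intro τ _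
  have h : τ y.castSucc ≠ τ (Fin.last m) := by
    intro h
    have := τ.injective h
    exact absurd this (Fin.castSucc_lt_last y).ne
  rcases lt_or_gt_of_ne h with h1 | h1
  · simp [h1, h1.le]
  · simp [h1, h1.le]

theorem H_iso (r : Fin m → Fin m → Prop) (y : Fin m) :
    H (isoR r) y.castSucc = (m + 2) * H r y := by
  unfold H
  rw [sum_iso, Finset.mul_sum]
  refine Finset.sum_congr rfl ?_
  intro σ _
  simp only [ins_castSucc, succAbove_val]
  have : ∀ p : Fin (m + 1), ((σ y : ℕ) + (if (p : ℕ) ≤ σ y then 1 else 0) + 1) =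
      ((σ y : ℕ) + 1) + (if (p : ℕ) ≤ σ y then 1 else 0) := fun p => by ring
  rw [Finset.sum_congr rfl (fun p _ => this p), Finset.sum_add_distrib, card_le]
  simp only [Finset.sum_const, Finset.card_univ, Fintype.card_fin, smul_eq_mul]
  ring

theorem H_iso_last (r : Fin m → Fin m → Prop) :
    2 * H (isoR r) (Fin.last m) = (m + 2) * N (isoR r) := by
  unfold H
  rw [sum_iso, N_iso, N_eq]
  simp only [ins_last, Finset.sum_const, smul_eq_mul, Finset.mul_sum, mul_one]
  have h : ∑ p : Fin (m + 1), (2 * ((p : ℕ) + 1)) = (m + 1) * (m + 2) := by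
    rw [← Finset.mul_sum, Fin.sum_univ_eq_sum_range (fun i => i + 1) (m + 1),
      Finset.sum_add_distrib]
    have := Finset.sum_range_id_mul_two (m + 1)
    simp only [Finset.sum_const, Finset.card_range, smul_eq_mul, mul_one] at *
    have h2 : (∑ i ∈ range (m + 1), i) * 2 = (m + 1) * m := by simpa using this
    linarith
  have h' : ∀ p : Fin (m + 1), 2 * ((LE r).card * ((p : ℕ) + 1)) =
      (LE r).card * (2 * ((p : ℕ) + 1)) := fun p => by ring
  rw [Finset.sum_congr rfl (fun p _ => h' p), ← Finset.mul_sum, h]
  ring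

theorem H_top (r : Fin m → Fin m → Prop) (y : Fin m) : H (topR r) y.castSucc = H r y := by
  unfold H
  rw [sum_top]
  refine Finset.sum_congr rfl ?_
  intro σ _
  simp

theorem H_top_last (r : Fin m → Fin m → Prop) : H (topR r) (Fin.last m) = (m + 1) * N r := by
  unfold H
  rw [sum_top, N_eq, Finset.mul_sum]
  refine Finset.sum_congr rfl ?_
  intro σ _
  simp

theorem H_lt (r : Fin m → Fin m → Prop) (x y : Fin m) (h : r x y) (hne : x ≠ y) :
    H r x + N r ≤ H r y := by
  classical
  rw [N_eq]
  unfold H
  rw [← Finset.sum_add_distrib]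
  refine Finset.sum_le_sum ?_
  intro σ hσ
  have h1 : σ x ≤ σ y := (Finset.mem_filter.1 hσ).2 x y h
  have h2 : σ x ≠ σ y := fun h => hne (σ.injective h)
  have h3 : σ x < σ y := lt_of_le_of_ne h1 h2
  rw [Fin.lt_def] at h3
  omega

/-- The data carried along the construction. `Z` is the set of added isolated points, the
other elements form a chain, `k` tops have been added since the last isolated point. -/
structure St (w m : ℕ) (r : Fin m → Fin m → Prop) (Z : Finset (Fin m)) (k : ℕ) (γ : ℝ) :
    Prop where
  poset : IsPoset r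
  width : HasWidth r w
  npos : 0 < N r
  bal : ∀ x y, ¬ r x y → ¬ r y x → min (prob r x y) (prob r y x) ≤ 1 / 2 - γ
  chain : ∀ x y, x ∉ Z → y ∉ Z → r x y ∨ r y x
  low : ∀ z ∈ Z, 2 * H r z + k * N r ≤ (m + 1) * N r

theorem topR_cast (r : Fin m → Fin m → Prop) (a b : Fin m) :
    topR r a.castSucc b.castSucc ↔ r a b := by
  constructor
  · rintro (h | ⟨a', b', h1, h2, h3⟩)
    · exact absurd h (Fin.castSucc_lt_last b).ne
    · rw [Fin.castSucc_inj] at h1 h2
      rw [h1, h2]
      exact h3
  · exact fun h => Or.inr ⟨a, b, rfl, rfl, h⟩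

theorem topR_last (r : Fin m → Fin m → Prop) (a : Fin (m + 1)) : topR r a (Fin.last m) :=
  Or.inl rfl

theorem topR_last_left (r : Fin m → Fin m → Prop) (b : Fin m) :
    ¬ topR r (Fin.last m) b.castSucc := by
  rintro (h | ⟨a', b', h1, _, _⟩)
  · exact absurd h (Fin.castSucc_lt_last b).ne
  · exact absurd h1 (Fin.castSucc_lt_last a').ne'

theorem isoR_cast (r : Fin m → Fin m → Prop) (hr : ∀ a, r a a) (a b : Fin m) :
    isoR r a.castSucc b.castSucc ↔ r a b := by
  constructor
  · rintro (h | ⟨a', b', h1, h2, h3⟩)
    · rw [Fin.castSucc_inj] at h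
      rw [h]
      exact hr b
    · rw [Fin.castSucc_inj] at h1 h2
      rw [h1, h2]
      exact h3
  · exact fun h => Or.inr ⟨a, b, rfl, rfl, h⟩

theorem isoR_last_left (r : Fin m → Fin m → Prop) (b : Fin m) :
    ¬ isoR r (Fin.last m) b.castSucc := by
  rintro (h | ⟨a', b', h1, _, _⟩)
  · exact absurd h (Fin.castSucc_lt_last b).ne'
  · exact absurd h1 (Fin.castSucc_lt_last a').ne'

theorem isoR_last_right (r : Fin m → Fin m → Prop) (b : Fin m) :
    ¬ isoR r b.castSucc (Fin.last m) := by
  rintro (h | ⟨a', b', _, h1, _⟩)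
  · exact absurd h (Fin.castSucc_lt_last b).ne
  · exact absurd h1 (Fin.castSucc_lt_last b').ne'

theorem topR_poset (r : Fin m → Fin m → Prop) (h : IsPoset r) : IsPoset (topR r) := by
  obtain ⟨h1, h2, h3⟩ := h
  refine ⟨?_, ?_, ?_⟩
  · intro a
    induction a using Fin.lastCases with
    | last => exact topR_last r _
    | cast a => exact (topR_cast r a a).2 (h1 a)
  · intro a b c hab hbc
    induction c using Fin.lastCases with
    | last => exact topR_last r _
    | cast c =>
      induction b using Fin.lastCases with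
      | last => exact absurd hbc (topR_last_left r c)
      | cast b =>
        induction a using Fin.lastCases with
        | last => exact absurd hab (topR_last_left r b)
        | cast a =>
          rw [topR_cast] at *
          exact h2 a b c hab hbc
  · intro a b hab hba
    induction a using Fin.lastCases with
    | last =>
      induction b using Fin.lastCases with
      | last => rfl
      | cast b => exact absurd hab (topR_last_left r b)
    | cast a =>
      induction b using Fin.lastCases with
      | last => exact absurd hba (topR_last_left r a)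
      | cast b =>
        rw [topR_cast] at *
        rw [h3 a b hab hba]

theorem isoR_poset (r : Fin m → Fin m → Prop) (h : IsPoset r) : IsPoset (isoR r) := by
  obtain ⟨h1, h2, h3⟩ := h
  refine ⟨?_, ?_, ?_⟩
  · intro a
    exact Or.inl rfl
  · intro a b c hab hbc
    rcases hab with rfl | ⟨a', b', rfl, rfl, hab⟩
    · exact hbc
    · rcases hbc with rfl | ⟨b'', c', h4, rfl, hbc⟩
      · exact Or.inr ⟨a', b', rfl, rfl, hab⟩
      · rw [Fin.castSucc_inj] at h4
        subst h4
        exact Or.inr ⟨a', c', rfl, rfl, h2 _ _ _ hab hbc⟩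
  · intro a b hab hba
    rcases hab with rfl | ⟨a', b', rfl, rfl, hab⟩
    · rfl
    · rw [isoR_cast r h1] at hba
      rw [h3 a' b' hab hba]

/-- the part of `t` below the last element -/
theorem card_split (t : Finset (Fin (m + 1))) :
    t.card = (univ.filter (fun a : Fin m => a.castSucc ∈ t)).card +
      (if Fin.last m ∈ t then 1 else 0) := by
  have h1 : (univ.filter (fun a : Fin m => a.castSucc ∈ t)).card =
      ((univ.filter (fun a : Fin m => a.castSucc ∈ t)).map Fin.castSuccEmb).card := by
    rw [Finset.card_map]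
  by_cases h : Fin.last m ∈ t
  · rw [if_pos h, h1, ← Finset.card_erase_add_one h]
    congr 2
    ext a
    induction a using Fin.lastCases with
    | last => simp
    | cast a =>
      simp [(Fin.castSucc_lt_last a).ne]
  · rw [if_neg h, h1, add_zero]
    congr 1
    ext a
    induction a using Fin.lastCases with
    | last => simp [h]
    | cast a => simp

theorem topR_width (w : ℕ) (hw : 1 ≤ w) (r : Fin m → Fin m → Prop) (h : HasWidth r w) :
    HasWidth (topR r) w := by
  obtain ⟨⟨s, hs1, hs2⟩, h2⟩ := h
  refine ⟨⟨s.map Fin.castSuccEmb, by rw [card_map, hs1], ?_⟩, ?_⟩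
  · intro a ha b hb hab
    simp only [mem_map, Fin.coe_castSuccEmb] at ha hb
    obtain ⟨a', ha', rfl⟩ := ha
    obtain ⟨b', hb', rfl⟩ := hb
    rw [topR_cast]
    exact hs2 a' ha' b' hb' (fun h => hab (by rw [h]))
  · intro t ht
    rw [card_split]
    by_cases hl : Fin.last m ∈ t
    · have : (univ.filter (fun a : Fin m => a.castSucc ∈ t)) = ∅ := by
        rw [Finset.filter_eq_empty_iff]
        intro a _ ha
        exact ht _ ha _ hl (Fin.castSucc_lt_last a).ne (topR_last r _)
      rw [this]
      simpa [hl] using hw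
    · rw [if_neg hl, add_zero]
      refine h2 _ ?_
      intro a ha b hb hab
      simp only [mem_filter, mem_univ, true_and] at ha hb
      rw [← topR_cast r a b]
      exact ht _ ha _ hb (fun h => hab (Fin.castSucc_injective _ h))

theorem isoR_width (w : ℕ) (r : Fin m → Fin m → Prop) (hr : ∀ a, r a a) (h : HasWidth r w) :
    HasWidth (isoR r) (w + 1) := by
  obtain ⟨⟨s, hs1, hs2⟩, h2⟩ := h
  refine ⟨⟨insert (Fin.last m) (s.map Fin.castSuccEmb), ?_, ?_⟩, ?_⟩
  · rw [card_insert_of_notMem, card_map, hs1]
    simp only [mem_map, Fin.coe_castSuccEmb, not_exists, not_and]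
    intro a _ ha
    exact absurd ha (Fin.castSucc_lt_last a).ne
  · intro a ha b hb hab
    simp only [mem_insert, mem_map, Fin.coe_castSuccEmb] at ha hb
    rcases ha with rfl | ⟨a', ha', rfl⟩
    · rcases hb with rfl | ⟨b', hb', rfl⟩
      · exact absurd rfl hab
      · exact isoR_last_left r b'
    · rcases hb with rfl | ⟨b', hb', rfl⟩
      · exact isoR_last_right r a'
      · rw [isoR_cast r hr]
        exact hs2 a' ha' b' hb' (fun h => hab (by rw [h]))
  · intro t ht
    rw [card_split]
    have h3 : (univ.filter (fun a : Fin m => a.castSucc ∈ t)).card ≤ w := by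
      refine h2 _ ?_
      intro a ha b hb hab
      simp only [mem_filter, mem_univ, true_and] at ha hb
      rw [← isoR_cast r hr a b]
      exact ht _ ha _ hb (fun h => hab (Fin.castSucc_injective _ h))
    split_ifs <;> omega

theorem prob_top (r : Fin m → Fin m → Prop) (x y : Fin m) :
    prob (topR r) x.castSucc y.castSucc = prob r x y := by
  rw [prob_eq, prob_eq, cnt_top, N_top]

theorem prob_iso (r : Fin m → Fin m → Prop) (x y : Fin m) :
    prob (isoR r) x.castSucc y.castSucc = prob r x y := by
  rw [prob_eq, prob_eq, cnt_iso, N_iso]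
  push_cast
  rw [mul_div_mul_left]
  positivity

theorem St.top {w m : ℕ} {r : Fin m → Fin m → Prop} {Z : Finset (Fin m)} {k : ℕ} {γ : ℝ}
    (hw : 1 ≤ w) (h : St w m r Z k γ) :
    St w (m + 1) (topR r) (Z.map Fin.castSuccEmb) (k + 1) γ where
  poset := topR_poset r h.poset
  width := topR_width w hw r h.width
  npos := by rw [N_top]; exact h.npos
  bal := by
    intro x y hxy hyx
    induction x using Fin.lastCases with
    | last => exact absurd (topR_last r y) hyx
    | cast x =>
      induction y using Fin.lastCases with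
      | last => exact absurd (topR_last r _) hxy
      | cast y =>
        rw [topR_cast] at hxy hyx
        rw [prob_top, prob_top]
        exact h.bal x y hxy hyx
  chain := by
    intro x y hx hy
    induction x using Fin.lastCases with
    | last => exact Or.inr (topR_last r y)
    | cast x =>
      induction y using Fin.lastCases with
      | last => exact Or.inl (topR_last r _)
      | cast y =>
        rw [topR_cast, topR_cast]
        refine h.chain x y ?_ ?_
        · intro hx'
          exact hx (by simpa using hx')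
        · intro hy'
          exact hy (by simpa using hy')
  low := by
    intro z hz
    simp only [mem_map, Fin.coe_castSuccEmb] at hz
    obtain ⟨z, hz, rfl⟩ := hz
    rw [H_top, N_top]
    have := h.low z hz
    push_cast
    nlinarith

theorem St.iso {w m : ℕ} {r : Fin m → Fin m → Prop} {Z : Finset (Fin m)} {k : ℕ} {γ : ℝ}
    (h : St w m r Z k γ) (hγ : γ ≤ 1 / (4 * (m + 1)))
    (hc : ∀ q, 4 * H r q + N r ≤ 2 * (m + 1) * N r ∨ 2 * (m + 1) * N r + N r ≤ 4 * H r q) :
    St (w + 1) (m + 1) (isoR r) (insert (Fin.last m) (Z.map Fin.castSuccEmb)) 0 γ where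
  poset := isoR_poset r h.poset
  width := isoR_width w r h.poset.1 h.width
  npos := by
    rw [N_iso]
    have := h.npos
    positivity
  bal := by
    have hN : (0 : ℝ) < N r := by exact_mod_cast h.npos
    have hm : (0 : ℝ) < (m : ℝ) + 1 := by positivity
    have key : ∀ q : Fin m, min (prob (isoR r) (Fin.last m) q.castSucc)
        (prob (isoR r) q.castSucc (Fin.last m)) ≤ 1 / 2 - γ := by
      intro q
      have e1 : prob (isoR r) (Fin.last m) q.castSucc = H r q / ((m + 1) * N r) := by
        rw [prob_eq, cnt_iso_last, N_iso]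
        push_cast
        rfl
      have e2 : prob (isoR r) q.castSucc (Fin.last m) = 1 - H r q / ((m + 1) * N r) := by
        rw [prob_eq, N_iso]
        have := cnt_iso_last' r q
        have h2 : (cnt (isoR r) q.castSucc (Fin.last m) : ℝ) = (m + 1) * N r - H r q := by
          have h3 : ((cnt (isoR r) q.castSucc (Fin.last m) + H r q : ℕ) : ℝ) =
            (((m + 1) * N r : ℕ) : ℝ) := by rw [this]
          push_cast at h3
          linarith
        rw [h2]
        push_cast
        field_simp
      rw [e1, e2]
      have h4 : γ ≤ 1 / (4 * (m + 1)) := hγ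
      have h5 : (1 : ℝ) / (4 * (m + 1)) = N r / (4 * ((m + 1) * N r)) := by
        field_simp
      have hd : (0 : ℝ) < (m + 1) * N r := by positivity
      have h9 : (N r : ℝ) / (4 * ((m + 1) * N r)) * ((m + 1) * N r) = N r / 4 := by
        field_simp
      rcases hc q with h6 | h6
      · have h7 : (4 : ℝ) * H r q + N r ≤ 2 * (m + 1) * N r := by exact_mod_cast h6
        refine (min_le_left _ _).trans ?_
        have h8 : (H r q : ℝ) / ((m + 1) * N r) ≤ 1 / 2 - 1 / (4 * (m + 1)) := by
          rw [h5, div_le_iff₀ hd, sub_mul, h9]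
          linarith
        linarith
      · have h7 : (2 : ℝ) * (m + 1) * N r + N r ≤ 4 * H r q := by exact_mod_cast h6
        refine (min_le_right _ _).trans ?_
        have h8 : 1 / 2 + 1 / (4 * ((m : ℝ) + 1)) ≤ (H r q : ℝ) / ((m + 1) * N r) := by
          rw [h5, le_div_iff₀ hd, add_mul, h9]
          linarith
        linarith
    intro x y hxy hyx
    induction x using Fin.lastCases with
    | last =>
      induction y using Fin.lastCases with
      | last => exact absurd (Or.inl rfl) hxy
      | cast y => exact key y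
    | cast x =>
      induction y using Fin.lastCases with
      | last =>
        rw [min_comm]
        exact key x
      | cast y =>
        rw [isoR_cast r h.poset.1] at hxy hyx
        rw [prob_iso, prob_iso]
        exact h.bal x y hxy hyx
  chain := by
    intro x y hx hy
    induction x using Fin.lastCases with
    | last => exact absurd (mem_insert_self _ _) hx
    | cast x =>
      induction y using Fin.lastCases with
      | last => exact absurd (mem_insert_self _ _) hy
      | cast y =>
        rw [isoR_cast r h.poset.1, isoR_cast r h.poset.1]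
        refine h.chain x y ?_ ?_
        · intro hx'
          exact hx (mem_insert_of_mem (by simpa using hx'))
        · intro hy'
          exact hy (mem_insert_of_mem (by simpa using hy'))
  low := by
    intro z hz
    rw [mem_insert] at hz
    rcases hz with rfl | hz
    · rw [H_iso_last]
      push_cast
      nlinarith
    · simp only [mem_map, Fin.coe_castSuccEmb] at hz
      obtain ⟨z, hz, rfl⟩ := hz
      rw [H_iso, N_iso]
      have h1 := h.low z hz
      have h2 : 2 * H r z ≤ (m + 1) * N r := le_trans (Nat.le_add_right _ _) h1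
      push_cast
      calc 2 * ((m + 2) * H r z) + 0 * ((m + 1) * N r) = (m + 2) * (2 * H r z) := by ring
        _ ≤ (m + 2) * ((m + 1) * N r) := Nat.mul_le_mul_left _ h2
        _ = (m + 1 + 1) * ((m + 1) * N r) := by ring

theorem St.mono {w m : ℕ} {r : Fin m → Fin m → Prop} {Z : Finset (Fin m)} {k : ℕ} {γ γ' : ℝ}
    (h : St w m r Z k γ) (hγ : γ' ≤ γ) : St w m r Z k γ' :=
  ⟨h.poset, h.width, h.npos, fun x y h1 h2 => (h.bal x y h1 h2).trans (by linarith), h.chain,
    h.low⟩

theorem St.le {w m : ℕ} {r : Fin m → Fin m → Prop} {Z : Finset (Fin m)} {k : ℕ} {γ : ℝ}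
    (h : St w m r Z k γ) : w ≤ m := by
  obtain ⟨⟨s, hs, _⟩, _⟩ := h.width
  rw [← hs]
  exact (Finset.card_le_univ s).trans (by simp)

/-- one step of the construction -/
theorem St.step {w m : ℕ} {r : Fin m → Fin m → Prop} {Z : Finset (Fin m)} {γ : ℝ}
    (hw : 2 ≤ w) (h : St w m r Z 0 γ) (hγ : γ ≤ 1 / (4 * (m + 3))) :
    ∃ (m' : ℕ) (r' : Fin m' → Fin m' → Prop) (Z' : Finset (Fin m')), m' ≤ m + 3 ∧
      St (w + 1) m' r' Z' 0 γ := by
  have hm : 2 ≤ m := hw.trans h.le
  have hN := h.npos
  by_cases hA : ∀ c, c ∉ Z → 4 * H r c + N r ≤ 2 * (m + 2) * N r ∨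
      2 * (m + 2) * N r + N r ≤ 4 * H r c
  · refine ⟨m + 1 + 1, _, _, by omega, (h.top (by omega)).iso ?_ ?_⟩
    · refine hγ.trans ?_
      push_cast
      apply one_div_le_one_div_of_le
      · positivity
      · linarith
    · intro q
      induction q using Fin.lastCases with
      | last =>
        right
        rw [H_top_last, N_top]
        push_cast
        nlinarith
      | cast q =>
        rw [H_top, N_top]
        by_cases hq : q ∈ Z
        · left
          have := h.low q hq
          push_cast
          nlinarith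
        · have := hA q hq
          push_cast
          rcases this with h1 | h1
          · left; linarith
          · right; linarith
  · push Not at hA
    obtain ⟨c, hc, hc1, hc2⟩ := hA
    refine ⟨m + 1 + 1 + 1, _, _, by omega,
      ((h.top (by omega)).top (by omega)).iso ?_ ?_⟩
    · refine hγ.trans ?_
      push_cast
      apply one_div_le_one_div_of_le
      · positivity
      · linarith
    · intro q
      induction q using Fin.lastCases with
      | last =>
        right
        rw [H_top_last, N_top, N_top]
        push_cast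
        nlinarith
      | cast q =>
        rw [H_top, N_top]
        induction q using Fin.lastCases with
        | last =>
          right
          rw [H_top_last, N_top]
          push_cast
          nlinarith
        | cast q =>
          rw [H_top, N_top]
          by_cases hq : q ∈ Z
          · left
            have := h.low q hq
            push_cast
            nlinarith
          · by_cases hqc : q = c
            · subst hqc
              left
              push_cast
              nlinarith
            · rcases h.chain q c hq hc with h1 | h1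
              · have := H_lt r q c h1 hqc
                left
                push_cast
                nlinarith
              · have := H_lt r c q h1 (Ne.symm hqc)
                right
                push_cast
                nlinarith

theorem St.base (γ : ℝ) : St 1 1 (fun _ _ => True) ∅ 0 γ where
  poset := ⟨fun _ => trivial, fun _ _ _ _ _ => trivial, fun a b _ _ => Subsingleton.elim a b⟩
  width := by
    refine ⟨⟨{0}, rfl, ?_⟩, ?_⟩
    · intro a _ b _ hab
      exact absurd (Subsingleton.elim a b) hab
    · intro s _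
      exact (Finset.card_le_univ s).trans (by simp)
  npos := by
    unfold N LE
    rw [Finset.card_pos]
    exact ⟨1, by simp [IsLE]⟩
  bal := fun x y h => absurd trivial h
  chain := fun _ _ _ _ => Or.inl trivial
  low := by simp

theorem St.two : ∃ (m' : ℕ) (r' : Fin m' → Fin m' → Prop) (Z' : Finset (Fin m')), m' ≤ 3 ∧
      St 2 m' r' Z' 0 (1 / 12) := by
  have h := St.base (1 / 12)
  refine ⟨_, _, _, le_rfl, (h.top le_rfl).iso ?_ ?_⟩
  · norm_num
  · intro q
    have hH : H (fun _ _ => True : Fin 1 → Fin 1 → Prop) 0 =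
        N (fun _ _ => True : Fin 1 → Fin 1 → Prop) := by
      unfold H
      rw [N_eq]
      refine Finset.sum_congr rfl ?_
      intro σ _
      simp
    induction q using Fin.lastCases with
    | last =>
      right
      rw [H_top_last, N_top]
      push_cast
      nlinarith
    | cast q =>
      left
      rw [H_top, N_top, Subsingleton.elim q 0, hH]
      push_cast
      nlinarith

theorem exists_St (w : ℕ) (hw : 2 ≤ w) :
    ∃ (m : ℕ) (r : Fin m → Fin m → Prop) (Z : Finset (Fin m)), m ≤ 3 * (w - 1) ∧
      St w m r Z 0 (1 / (12 * ((w : ℝ) - 1))) := by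
  induction w, hw using Nat.le_induction with
  | base =>
    obtain ⟨m, r, Z, h1, h2⟩ := St.two
    exact ⟨m, r, Z, by omega, h2.mono (by norm_num)⟩
  | succ w hw ih =>
    obtain ⟨m, r, Z, h1, h2⟩ := ih
    have hw' : (2 : ℝ) ≤ w := by exact_mod_cast hw
    have h3 : (1 : ℝ) / (12 * (((w + 1 : ℕ) : ℝ) - 1)) ≤ 1 / (12 * ((w : ℝ) - 1)) := by
      push_cast
      apply one_div_le_one_div_of_le
      · linarith
      · linarith
    obtain ⟨m', r', Z', h4, h5⟩ := (h2.mono h3).step hw (by
      push_cast
      apply one_div_le_one_div_of_le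
      · positivity
      · have : (m : ℝ) ≤ 3 * (w - 1) := by
          have h6 : m + 3 ≤ 3 * w := by omega
          have h7 : ((m + 3 : ℕ) : ℝ) ≤ ((3 * w : ℕ) : ℝ) := by exact_mod_cast h6
          push_cast at h7
          linarith
        linarith)
    exact ⟨m', r', Z', by omega, h5⟩

theorem prob_nonneg {n : ℕ} (r : Fin n → Fin n → Prop) (x y : Fin n) : 0 ≤ prob r x y := by
  unfold prob
  positivity

theorem balance_nonneg {n : ℕ} (r : Fin n → Fin n → Prop) : 0 ≤ balance r := by
  unfold balance
  apply Real.sSup_nonneg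
  rintro t ⟨x, y, _, _, rfl⟩
  exact le_min (prob_nonneg r x y) (prob_nonneg r y x)

theorem main (w : ℕ) (hw : 2 ≤ w) : deltaW w ≤ 1 / 2 - 1 / (12 * ((w : ℝ) - 1)) := by
  obtain ⟨m, r, Z, _, h⟩ := exists_St w hw
  have hw' : (2 : ℝ) ≤ w := by exact_mod_cast hw
  have h1 : balance r ≤ 1 / 2 - 1 / (12 * ((w : ℝ) - 1)) := by
    unfold balance
    apply Real.sSup_le
    · rintro t ⟨x, y, h1, h2, rfl⟩
      exact h.bal x y h1 h2
    · have : 1 / (12 * ((w : ℝ) - 1)) ≤ 1 / 12 := by
        apply one_div_le_one_div_of_le
        · norm_num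
        · linarith
      linarith
  refine le_trans (csInf_le ⟨0, ?_⟩ ⟨m, r, h.poset, h.width, rfl⟩) h1
  rintro d ⟨n, r', _, _, rfl⟩
  exact balance_nonneg r'

end Pool.Agent.Helper1.Balance
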