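import Mathlib

/-!
Lower bound for the number of generators of a monomial-curve toric ideal by isolated fibre elements.
-/

set_option autoImplicit false

namespace Pool.Agent.Helper1.NS

open MvPolynomial

/-- The weight of an exponent vector. -/
def wt {n : ℕ} (a : Fin n → ℕ) (u : Fin n →₀ ℕ) : ℕ := ∑ i, a i * u i

theorem wt_add {n : ℕ} (a : Fin n → ℕ) (u v : Fin n →₀ ℕ) : wt a (u + v) = wt a u + wt a v := by
  simp [wt, mul_add, Finset.sum_add_distrib]

/-- The toric map. -/
noncomputable abbrev tor {n : ℕ} (a : Fin n → ℕ) : MvPolynomial (Fin n) ℚ →ₐ[ℚ] Polynomial ℚ :=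
  MvPolynomial.aeval (fun i : Fin n => (Polynomial.X : Polynomial ℚ) ^ (a i))

theorem tor_eq {n : ℕ} (a : Fin n → ℕ) (p : MvPolynomial (Fin n) ℚ) :
    tor a p = ∑ u ∈ p.support, Polynomial.C (p.coeff u) * Polynomial.X ^ (wt a u) := by
  rw [tor, aeval_def, eval₂_eq']
  refine Finset.sum_congr rfl fun u _ => ?_
  congr 1
  simp only [← pow_mul, wt]
  rw [Finset.prod_pow_eq_pow_sum]

theorem tor_coeff {n : ℕ} (a : Fin n → ℕ) (p : MvPolynomial (Fin n) ℚ) (N : ℕ) :
    (tor a p).coeff N = ∑ u ∈ p.support.filter (fun u => wt a u = N), p.coeff u := by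
  rw [tor_eq, Polynomial.finset_sum_coeff, Finset.sum_filter]
  refine Finset.sum_congr rfl fun u _ => ?_
  rw [Polynomial.coeff_C_mul_X_pow]
  by_cases h : wt a u = N
  · simp [h]
  · rw [if_neg h, if_neg]
    exact fun h' => h h'.symm

theorem tor_monomial {n : ℕ} (a : Fin n → ℕ) (u : Fin n →₀ ℕ) (c : ℚ) :
    tor a (monomial u c) = Polynomial.C c * Polynomial.X ^ (wt a u) := by
  rw [tor, aeval_monomial]
  congr 1
  rw [Finsupp.prod_fintype _ _ (by intro i; simp)]
  simp only [← pow_mul, wt]
  rw [Finset.prod_pow_eq_pow_sum]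

/-- If `f` is the only exponent vector of its weight then its coefficient vanishes on the kernel. -/
theorem coeff_eq_zero_of_unique {n : ℕ} (a : Fin n → ℕ) (h : MvPolynomial (Fin n) ℚ)
    (hh : tor a h = 0) (f : Fin n →₀ ℕ) (hf : ∀ f', wt a f' = wt a f → f' = f) :
    h.coeff f = 0 := by
  have h1 := tor_coeff a h (wt a f)
  rw [hh, Polynomial.coeff_zero] at h1
  by_contra hne
  have h2 : h.support.filter (fun u => wt a u = wt a f) = {f} := by
    ext u
    simp only [Finset.mem_filter, Finset.mem_singleton]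
    constructor
    · rintro ⟨_, h3⟩
      exact hf u h3
    · rintro rfl
      exact ⟨MvPolynomial.mem_support_iff.mpr hne, rfl⟩
  rw [h2, Finset.sum_singleton] at h1
  exact hne h1.symm

/-- Isolated vertices of fibre graphs bound the number of generators of the toric ideal from below. -/
theorem card_le_of_isolated {n : ℕ} (a : Fin n → ℕ) (G : Finset (Fin n →₀ ℕ))
    (hu : ∀ g ∈ G, ∃ u, u ∉ G ∧ wt a u = wt a g)
    (hiso : ∀ g ∈ G, ∀ v, g v ≠ 0 → ∀ f, wt a f = wt a g → f v ≠ 0 → f = g)
    (s : Finset (MvPolynomial (Fin n) ℚ))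
    (hs : Ideal.span (s : Set (MvPolynomial (Fin n) ℚ)) = RingHom.ker (tor a)) :
    G.card ≤ s.card := by
  classical
  -- the coefficient map
  let Φ : MvPolynomial (Fin n) ℚ →ₗ[ℚ] (G → ℚ) :=
    LinearMap.pi (fun g => MvPolynomial.lcoeff ℚ (g : Fin n →₀ ℕ))
  have hΦ : ∀ p (g : G), Φ p g = p.coeff g.1 := by
    intro p g; rfl
  -- multiplication
  have hmul : ∀ p h : MvPolynomial (Fin n) ℚ, tor a h = 0 → Φ (p * h) = (p.coeff 0) • Φ h := by
    intro p h hh
    induction p using MvPolynomial.induction_on' with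
    | monomial e c =>
      funext g
      rw [hΦ, Pi.smul_apply, hΦ, smul_eq_mul, MvPolynomial.coeff_monomial_mul', coeff_monomial]
      by_cases he : e = 0
      · subst he
        simp
      · rw [if_neg he, zero_mul]
        split_ifs with hle
        · have h0 : h.coeff (g.1 - e) = 0 := by
            apply coeff_eq_zero_of_unique a h hh
            intro f' hf'
            obtain ⟨v, hv⟩ : ∃ v, e v ≠ 0 := by
              by_contra hcon
              push Not at hcon
              exact he (Finsupp.ext hcon)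
            have hge : g.1 - e + e = g.1 := tsub_add_cancel_of_le hle
            have hgv : g.1 v ≠ 0 := by
              have := hle v
              omega
            have h3 : f' + e = g.1 := by
              apply hiso g.1 g.2 v hgv (f' + e)
              · rw [wt_add, hf', ← wt_add, hge]
              · rw [Finsupp.add_apply]
                omega
            rw [← h3, add_tsub_cancel_right]
          rw [h0, mul_zero]
        · rfl
    | add p q hp hq =>
      rw [add_mul, map_add, hp, hq, coeff_add, add_smul]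
  let W : Submodule ℚ (G → ℚ) := Submodule.span ℚ ((s.image Φ : Finset (G → ℚ)) : Set (G → ℚ))
  have hW : ∀ f ∈ Ideal.span (s : Set (MvPolynomial (Fin n) ℚ)), Φ f ∈ W := by
    intro f hf
    induction hf using Submodule.span_induction with
    | mem x hx =>
      apply Submodule.subset_span
      rw [Finset.coe_image]
      exact ⟨x, hx, rfl⟩
    | zero => rw [map_zero]; exact W.zero_mem
    | add x y _ _ hx hy => rw [map_add]; exact W.add_mem hx hy
    | smul p x hx ih =>
      have hx' : x ∈ RingHom.ker (tor a) := by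
        rw [← hs]; exact hx
      rw [smul_eq_mul, hmul p x (RingHom.mem_ker.mp hx')]
      exact W.smul_mem _ ih
  have htop : W = ⊤ := by
    rw [eq_top_iff]
    rw [← (Pi.basisFun ℚ G).span_eq, Submodule.span_le]
    rintro _ ⟨g, rfl⟩
    obtain ⟨u, hu1, hu2⟩ := hu g.1 g.2
    have hk : (monomial g.1 (1 : ℚ) - monomial u (1 : ℚ)) ∈
        Ideal.span (s : Set (MvPolynomial (Fin n) ℚ)) := by
      rw [hs, RingHom.mem_ker, map_sub, tor_monomial, tor_monomial, hu2, sub_self]
    have h4 := hW _ hk
    have h5 : Φ (monomial g.1 (1 : ℚ) - monomial u (1 : ℚ)) = Pi.basisFun ℚ G g := by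
      funext g'
      rw [hΦ, coeff_sub, coeff_monomial, coeff_monomial, Pi.basisFun_apply]
      have h6 : u ≠ g'.1 := fun h => hu1 (h ▸ g'.2)
      rw [if_neg h6, sub_zero, Pi.single_apply]
      by_cases h7 : g = g'
      · subst h7; simp
      · rw [if_neg (fun h => h7 (Subtype.ext h)), if_neg (fun h => h7 h.symm)]
    rw [h5] at h4
    exact h4
  have h8 : Module.finrank ℚ (G → ℚ) ≤ (s.image Φ).card := by
    rw [← finrank_top ℚ (G → ℚ), ← htop]
    exact finrank_span_finset_le_card _
  rw [Module.finrank_fintype_fun_eq_card, Fintype.card_coe] at h8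
  exact h8.trans Finset.card_image_le

end Pool.Agent.Helper1.NS
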