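import Mathlib
import Pool.Agent.Helper1.NSLower

/-!
For every `m > 3` there is a numerical semigroup of multiplicity `m` and embedding dimension `4`
whose toric ideal needs at least `⌊2 + 2 √m⌋` generators.
-/

set_option autoImplicit false

namespace Pool.Agent.Helper1.NS

open MvPolynomial

/-- exponent vector from its four coordinates -/
noncomputable def ev (w i k j : ℕ) : Fin 4 →₀ ℕ := Finsupp.equivFunOnFinite.symm ![w, i, k, j]

theorem ev_surj (u : Fin 4 →₀ ℕ) : u = ev (u 0) (u 1) (u 2) (u 3) := by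
  ext x
  fin_cases x <;> simp [ev]

@[simp] theorem ev_zero (w i k j : ℕ) : ev w i k j 0 = w := rfl
@[simp] theorem ev_one (w i k j : ℕ) : ev w i k j 1 = i := rfl
@[simp] theorem ev_two (w i k j : ℕ) : ev w i k j 2 = k := rfl
@[simp] theorem ev_three (w i k j : ℕ) : ev w i k j 3 = j := rfl

theorem wt_ev (m X Z Y w i k j : ℕ) :
    wt ![m, X, Z, Y] (ev w i k j) = m * w + X * i + Z * k + Y * j := by
  simp [wt, Fin.sum_univ_four]

theorem wt_four (m X Z Y : ℕ) (u : Fin 4 →₀ ℕ) :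
    wt ![m, X, Z, Y] u = m * u 0 + X * u 1 + Z * u 2 + Y * u 3 := by
  simp [wt, Fin.sum_univ_four]

theorem card_le_four (m X Z Y : ℕ) (T : Finset (ℕ × ℕ × ℕ))
    (hu : ∀ g ∈ T, ∃ w i k j, (w ≠ 0 ∨ (i, k, j) ∉ T) ∧
      m * w + X * i + Z * k + Y * j = X * g.1 + Z * g.2.1 + Y * g.2.2)
    (hiso : ∀ g ∈ T, ∀ w i k j, m * w + X * i + Z * k + Y * j = X * g.1 + Z * g.2.1 + Y * g.2.2 →
      (i ≠ 0 ∧ g.1 ≠ 0 ∨ k ≠ 0 ∧ g.2.1 ≠ 0 ∨ j ≠ 0 ∧ g.2.2 ≠ 0) → w = 0 ∧ (i, k, j) = g)
    (s : Finset (MvPolynomial (Fin 4) ℚ))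
    (hs : Ideal.span (s : Set (MvPolynomial (Fin 4) ℚ)) = RingHom.ker (tor ![m, X, Z, Y])) :
    T.card ≤ s.card := by
  classical
  have hinj : Function.Injective (fun g : ℕ × ℕ × ℕ => ev 0 g.1 g.2.1 g.2.2) := by
    rintro ⟨i, k, j⟩ ⟨i', k', j'⟩ h
    have h1 := DFunLike.congr_fun h 1
    have h2 := DFunLike.congr_fun h 2
    have h3 := DFunLike.congr_fun h 3
    simp at h1 h2 h3
    simp [h1, h2, h3]
  rw [← Finset.card_image_of_injective T hinj]
  apply card_le_of_isolated ![m, X, Z, Y] _ _ _ s hs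
  · intro g hg
    obtain ⟨g', hg', rfl⟩ := Finset.mem_image.mp hg
    obtain ⟨w, i, k, j, h1, h2⟩ := hu g' hg'
    refine ⟨ev w i k j, ?_, ?_⟩
    · intro hmem
      obtain ⟨g'', hg'', he⟩ := Finset.mem_image.mp hmem
      have e0 := DFunLike.congr_fun he 0
      have e1 := DFunLike.congr_fun he 1
      have e2 := DFunLike.congr_fun he 2
      have e3 := DFunLike.congr_fun he 3
      simp at e0 e1 e2 e3
      rcases h1 with h1 | h1
      · exact h1 e0.symm
      · apply h1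
        rw [← e1, ← e2, ← e3]
        exact hg''
    · rw [wt_ev, wt_ev, h2]; ring
  · intro g hg v hv f hf hfv
    obtain ⟨g', hg', rfl⟩ := Finset.mem_image.mp hg
    rw [wt_ev, wt_four] at hf
    have hf' : m * f 0 + X * f 1 + Z * f 2 + Y * f 3 = X * g'.1 + Z * g'.2.1 + Y * g'.2.2 := by
      rw [hf]; ring
    have hd : (f 1 ≠ 0 ∧ g'.1 ≠ 0 ∨ f 2 ≠ 0 ∧ g'.2.1 ≠ 0 ∨ f 3 ≠ 0 ∧ g'.2.2 ≠ 0) := by
      fin_cases v
      · exact absurd rfl hv
      · exact Or.inl ⟨hfv, hv⟩
      · exact Or.inr (Or.inl ⟨hfv, hv⟩)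
      · exact Or.inr (Or.inr ⟨hfv, hv⟩)
    obtain ⟨h0, h1⟩ := hiso g' hg' _ _ _ _ hf' hd
    rw [ev_surj f, h0]
    rw [← h1]

/-- From unique factorisation of the elements below `g` to isolation of `g`. -/
theorem iso_of_uniq (m X Z Y : ℕ) (N : ℕ → ℕ → ℕ → Prop)
    (huniq : ∀ i0 k0 j0, N i0 k0 j0 → ∀ w i k j,
      m * w + X * i + Z * k + Y * j = X * i0 + Z * k0 + Y * j0 → w = 0 ∧ i = i0 ∧ k = k0 ∧ j = j0)
    (g : ℕ × ℕ × ℕ)
    (h1 : g.1 ≠ 0 → N (g.1 - 1) g.2.1 g.2.2)
    (h2 : g.2.1 ≠ 0 → N g.1 (g.2.1 - 1) g.2.2)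
    (h3 : g.2.2 ≠ 0 → N g.1 g.2.1 (g.2.2 - 1)) :
    ∀ w i k j, m * w + X * i + Z * k + Y * j = X * g.1 + Z * g.2.1 + Y * g.2.2 →
      (i ≠ 0 ∧ g.1 ≠ 0 ∨ k ≠ 0 ∧ g.2.1 ≠ 0 ∨ j ≠ 0 ∧ g.2.2 ≠ 0) → w = 0 ∧ (i, k, j) = g := by
  obtain ⟨a, b, c⟩ := g
  simp only at h1 h2 h3 ⊢
  intro w i k j h hd
  rcases hd with ⟨ha, hb⟩ | ⟨ha, hb⟩ | ⟨ha, hb⟩
  · obtain ⟨i', rfl⟩ := Nat.exists_eq_succ_of_ne_zero ha
    obtain ⟨a', rfl⟩ := Nat.exists_eq_succ_of_ne_zero hb
    have := huniq a' b c (by simpa using h1 hb) w i' k j (by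
      simp only [Nat.succ_eq_add_one, mul_add, mul_one] at h; omega)
    simp; omega
  · obtain ⟨i', rfl⟩ := Nat.exists_eq_succ_of_ne_zero ha
    obtain ⟨a', rfl⟩ := Nat.exists_eq_succ_of_ne_zero hb
    have := huniq a a' c (by simpa using h2 hb) w i i' j (by
      simp only [Nat.succ_eq_add_one, mul_add, mul_one] at h; omega)
    simp; omega
  · obtain ⟨i', rfl⟩ := Nat.exists_eq_succ_of_ne_zero ha
    obtain ⟨a', rfl⟩ := Nat.exists_eq_succ_of_ne_zero hb
    have := huniq a b a' (by simpa using h3 hb) w i k i' (by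
      simp only [Nat.succ_eq_add_one, mul_add, mul_one] at h; omega)
    simp; omega

/-- mixed radix uniqueness -/
theorem radix (s P Q p q : ℕ) (hP : P < s) (hp : p < s) (h : P + s * Q = p + s * q) :
    P = p ∧ Q = q := by
  have h1 : Q = q := by
    rcases lt_trichotomy Q q with h2 | h2 | h2
    · exfalso
      have : s * (Q + 1) ≤ s * q := Nat.mul_le_mul_left _ h2
      rw [mul_add] at this; omega
    · exact h2
    · exfalso
      have : s * (q + 1) ≤ s * Q := Nat.mul_le_mul_left _ h2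
      rw [mul_add] at this; omega
  subst h1
  exact ⟨by omega, rfl⟩

/-- Unique factorisation, even case. -/
theorem uniq_even (s r m : ℕ) (hs : 2 ≤ s) (hm : m = s * s + r)
    (i0 k0 j0 : ℕ) (h0 : i0 = 0 ∨ k0 = 0) (hp : i0 + j0 < s)
    (hq : k0 + j0 < s ∨ (k0 + j0 = s ∧ i0 + j0 < r)) (w i k j : ℕ)
    (h : m * w + (1 + m * s) * i + (s + m * s) * k + (s + 1 + m * (s + 1)) * j
      = (1 + m * s) * i0 + (s + m * s) * k0 + (s + 1 + m * (s + 1)) * j0) :
    w = 0 ∧ i = i0 ∧ k = k0 ∧ j = j0 := by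
  have h' : m * (w + s * (i + k + j) + j) + ((i + j) + s * (k + j)) =
      m * (s * (i0 + k0 + j0) + j0) + ((i0 + j0) + s * (k0 + j0)) := by
    linarith [h]
  have hv0 : (i0 + j0) + s * (k0 + j0) < m := by
    rcases hq with hq | ⟨hq, hq'⟩
    · have : s * (k0 + j0 + 1) ≤ s * s := Nat.mul_le_mul_left _ hq
      rw [mul_add] at this; omega
    · rw [hq]; omega
  have hms : 0 < m := by nlinarith
  have hd : i0 + k0 + j0 ≤ s := by omega
  have hD : i + k + j ≤ i0 + k0 + j0 := by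
    by_contra hcon
    push Not at hcon
    have h1 : s * (i0 + k0 + j0 + 1) ≤ s * (i + k + j) := Nat.mul_le_mul_left _ hcon
    have h2 : s * (i0 + k0 + j0) + j0 + 1 ≤ w + s * (i + k + j) + j := by
      rw [mul_add] at h1; omega
    have h3 := Nat.mul_le_mul_left m h2
    rw [mul_add] at h3; omega
  have hvle : (i + j) + s * (k + j) ≤ s + s * s := by
    have : s * (k + j) ≤ s * s := Nat.mul_le_mul_left _ (by omega)
    omega
  have hss : 2 * s ≤ s * s := Nat.mul_le_mul_right _ hs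
  rcases lt_trichotomy (w + s * (i + k + j) + j) (s * (i0 + k0 + j0) + j0) with h4 | h4 | h4
  · exfalso
    -- v = v0 + m at least
    have h5 := Nat.mul_le_mul_left m h4
    rw [Nat.succ_eq_add_one, mul_add] at h5
    have h6 : m + ((i0 + j0) + s * (k0 + j0)) ≤ (i + j) + s * (k + j) := by omega
    have hDs : i + k + j = s := by
      by_contra hne
      have h7 : i + k + j + 1 ≤ s := by omega
      have : s * (k + j + 1) ≤ s * s := Nat.mul_le_mul_left _ (by omega)
      rw [mul_add] at this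
      omega
    have hq' : k0 + j0 = s := by omega
    rw [hq'] at h6
    omega
  · rw [h4] at h'
    have h5 : (i + j) + s * (k + j) = (i0 + j0) + s * (k0 + j0) := by omega
    by_cases hP : i + j < s
    · have := radix s _ _ _ _ hP hp h5
      have hj : j = j0 := by omega
      have hD' : i + k + j = i0 + k0 + j0 := by omega
      rw [hD'] at h4
      omega
    · exfalso
      have hP' : i + j = s := by omega
      have h6 : 0 + s * (k + j + 1) = (i0 + j0) + s * (k0 + j0) := by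
        rw [mul_add]; omega
      have := radix s _ _ _ _ (by omega) hp h6
      have hk : k = 0 := by omega
      have hi : i = 1 := by omega
      have hD' : i + k + j = i0 + k0 + j0 := by omega
      rw [hD'] at h4
      omega
  · exfalso
    have h5 := Nat.mul_le_mul_left m h4
    rw [Nat.succ_eq_add_one, mul_add] at h5
    omega

/-- Unique factorisation, odd case. -/
theorem uniq_odd (s r m : ℕ) (hs : 2 ≤ s) (hm : m = s * s + s + 1 + r) (hr : r < s)
    (i0 k0 j0 : ℕ) (h0 : i0 = 0 ∨ k0 = 0) (hp : i0 + j0 ≤ s) (hq : k0 + j0 ≤ s)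
    (hpq : k0 + j0 < s ∨ s ≤ i0 + j0 + r) (w i k j : ℕ)
    (h : m * w + (1 + m * (s + 1)) * i + (m * (s + 1) + s * s + r) * k +
        (m * (s + 1) + s * s + r + 1) * j
      = (1 + m * (s + 1)) * i0 + (m * (s + 1) + s * s + r) * k0 +
        (m * (s + 1) + s * s + r + 1) * j0) :
    w = 0 ∧ i = i0 ∧ k = k0 ∧ j = j0 := by
  have h' : m * (w + (s + 1) * (i + k + j) + (k + j)) + ((i + j) + (s + 1) * (k0 + j0)) =
      m * ((s + 1) * (i0 + k0 + j0) + (k0 + j0)) + ((i0 + j0) + (s + 1) * (k + j)) := by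
    have e1 : m * (w + (s + 1) * (i + k + j) + (k + j)) + (i + j) =
        m * w + (1 + m * (s + 1)) * i + (m * (s + 1) + s * s + r) * k +
        (m * (s + 1) + s * s + r + 1) * j + (s + 1) * (k + j) := by
      subst hm; ring
    have e2 : m * ((s + 1) * (i0 + k0 + j0) + (k0 + j0)) + (i0 + j0) =
        (1 + m * (s + 1)) * i0 + (m * (s + 1) + s * s + r) * k0 +
        (m * (s + 1) + s * s + r + 1) * j0 + (s + 1) * (k0 + j0) := by
      subst hm; ring
    omega
  have hms : 0 < m := by omega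
  have hd : i0 + k0 + j0 ≤ s := by omega
  have hss : 2 * s ≤ s * s := Nat.mul_le_mul_right _ hs
  have hq2 : (s + 1) * (k0 + j0) ≤ s * s + r + (i0 + j0) := by
    rcases hpq with hpq | hpq
    · have : (s + 1) * (k0 + j0 + 1) ≤ (s + 1) * s := Nat.mul_le_mul_left _ hpq
      rw [mul_add] at this
      have e : (s + 1) * s = s * s + s := by ring
      omega
    · have : (s + 1) * (k0 + j0) ≤ (s + 1) * s := Nat.mul_le_mul_left _ hq
      have e : (s + 1) * s = s * s + s := by ring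
      omega
  have hD : i + k + j ≤ i0 + k0 + j0 := by
    by_contra hcon
    push Not at hcon
    have h1 : (s + 1) * (i0 + k0 + j0 + 1) ≤ (s + 1) * (i + k + j) := Nat.mul_le_mul_left _ hcon
    have h2 : (s + 1) * (i0 + k0 + j0) + (k0 + j0) + 1 + (k + j) ≤
        w + (s + 1) * (i + k + j) + (k + j) := by
      rw [mul_add] at h1; omega
    have h3 := Nat.mul_le_mul_left m h2
    rw [mul_add] at h3
    rw [mul_add m ((s + 1) * (i0 + k0 + j0) + (k0 + j0)) 1] at h3
    have h4 : (s + 1) * (k + j) ≤ m * (k + j) := Nat.mul_le_mul_right _ (by omega)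
    omega
  have hQle : (s + 1) * (k + j) ≤ (s + 1) * s := Nat.mul_le_mul_left _ (by omega)
  have e : (s + 1) * s = s * s + s := by ring
  rcases lt_trichotomy (w + (s + 1) * (i + k + j) + (k + j))
    ((s + 1) * (i0 + k0 + j0) + (k0 + j0)) with h4 | h4 | h4
  · exfalso
    have h5 := Nat.mul_le_mul_left m h4
    rw [Nat.succ_eq_add_one, mul_add] at h5
    omega
  · rw [h4] at h'
    have h5 : (i + j) + (s + 1) * (k0 + j0) = (i0 + j0) + (s + 1) * (k + j) := by omega
    have := radix (s + 1) _ _ _ _ (by omega) (by omega) h5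
    have hD' : i + k + j = i0 + k0 + j0 := by omega
    rw [hD'] at h4
    omega
  · exfalso
    have h5 := Nat.mul_le_mul_left m h4
    rw [Nat.succ_eq_add_one, mul_add] at h5
    have h6 : (i + j) + (s + 1) * (k0 + j0) + m ≤ (i0 + j0) + (s + 1) * (k + j) := by omega
    have hq0 : k0 + j0 = 0 := by
      by_contra hne
      have : (s + 1) * 1 ≤ (s + 1) * (k0 + j0) := Nat.mul_le_mul_left _ (by omega)
      omega
    have hQ : k + j = s := by
      by_contra hne
      have : (s + 1) * (k + j + 1) ≤ (s + 1) * s := Nat.mul_le_mul_left _ (by omega)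
      rw [mul_add] at this
      omega
    have hD' : i + k + j = s := by omega
    have hd' : i0 + k0 + j0 = s := by omega
    rw [hD', hd', hq0, hQ] at h'
    have h7 : m * (w + (s + 1) * s + s) = m * ((s + 1) * s + 0) + m * (w + s) := by ring
    have h8 : m * 2 ≤ m * (w + s) := Nat.mul_le_mul_left _ (by omega)
    omega

/-! ### The even family -/

/-- the generators, even case -/
def fe (s r n : ℕ) : ℕ × ℕ × ℕ :=
  if n ≤ s then (s - n, 0, n)
  else if n - (s + 1) < r then (0, s + 1 - (n - (s + 1)), n - (s + 1))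
  else if n - (s + 1) < s then (0, s - (n - (s + 1)), n - (s + 1))
  else (1, 1, 0)

theorem fe_injOn (s r : ℕ) (hs : 2 ≤ s) (hr : r ≤ s) :
    Set.InjOn (fe s r) (Finset.range (2 * s + 2) : Set ℕ) := by
  intro n hn n' hn' h
  simp only [Finset.coe_range, Set.mem_Iio] at hn hn'
  unfold fe at h
  split_ifs at h <;> simp only [Prod.mk.injEq] at h <;> omega

/-- the generators, odd case -/
def fo (s r n : ℕ) : ℕ × ℕ × ℕ :=
  if n ≤ s + 1 then (s + 1 - n, 0, n)
  else if n - (s + 2) < s - r then (0, s - (n - (s + 2)), n - (s + 2))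
  else if n - (s + 2) < s then (0, n - (s + 2) - (s - r) + 1, s - (n - (s + 2) - (s - r)))
  else (1, 1, 0)

theorem fo_injOn (s r : ℕ) (hs : 2 ≤ s) (hr : r < s) :
    Set.InjOn (fo s r) (Finset.range (2 * s + 3) : Set ℕ) := by
  intro n hn n' hn' h
  simp only [Finset.coe_range, Set.mem_Iio] at hn hn'
  unfold fo at h
  split_ifs at h <;> simp only [Prod.mk.injEq] at h <;> omega

end Pool.Agent.Helper1.NS
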