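import Mathlib
import Pool.Agent.Helper1.NSAttain

set_option autoImplicit false

namespace Pool.Agent.Helper1.NS

open MvPolynomial

/-- normal exponents, even case -/
def Ne (s r i k j : ℕ) : Prop := (i = 0 ∨ k = 0) ∧ i + j < s ∧ (k + j < s ∨ (k + j = s ∧ i + j < r))

/-- normal exponents, odd case -/
def No (s r i k j : ℕ) : Prop :=
  (i = 0 ∨ k = 0) ∧ i + j ≤ s ∧ k + j ≤ s ∧ (k + j < s ∨ s ≤ i + j + r)

theorem lower_even (s r m : ℕ) (hs : 2 ≤ s) (hm : m = s * s + r) (hr : r ≤ s)
    (t : Finset (MvPolynomial (Fin 4) ℚ))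
    (ht : Ideal.span (t : Set (MvPolynomial (Fin 4) ℚ)) =
      RingHom.ker (tor ![m, 1 + m * s, s + m * s, s + 1 + m * (s + 1)])) :
    2 * s + 2 ≤ t.card := by
  classical
  have hU : ∀ i0 k0 j0, Ne s r i0 k0 j0 → ∀ w i k j,
      m * w + (1 + m * s) * i + (s + m * s) * k + (s + 1 + m * (s + 1)) * j
      = (1 + m * s) * i0 + (s + m * s) * k0 + (s + 1 + m * (s + 1)) * j0 →
      w = 0 ∧ i = i0 ∧ k = k0 ∧ j = j0 := by
    intro i0 k0 j0 hN w i k j h
    exact uniq_even s r m hs hm i0 k0 j0 hN.1 hN.2.1 hN.2.2 w i k j h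
  have hc : ((Finset.range (2 * s + 2)).image (fe s r)).card = 2 * s + 2 := by
    rw [Finset.card_image_of_injOn (fe_injOn s r hs hr), Finset.card_range]
  rw [← hc]
  apply card_le_four m (1 + m * s) (s + m * s) (s + 1 + m * (s + 1)) _ _ _ t ht
  · intro g hg
    obtain ⟨n, hn, rfl⟩ := Finset.mem_image.mp hg
    rw [Finset.mem_range] at hn
    unfold fe
    split_ifs with h1 h2 h3
    · rcases Nat.lt_or_ge n s with h4 | h4
      · obtain ⟨u, hu⟩ := Nat.exists_eq_add_of_lt h4
        refine ⟨s * u + n, 0, n + 1, 0, Or.inl ?_, ?_⟩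
        · rcases Nat.eq_zero_or_pos n with h5 | h5
          · subst h5
            have : 0 < s * u := Nat.mul_pos (by omega) (by omega)
            omega
          · omega
        · have e : s - n = u + 1 := by omega
          simp only [e]
          rw [hu]; ring
      · have h5 : n = s := by omega
        subst h5
        obtain ⟨u, hu⟩ := Nat.exists_eq_add_of_le hr
        refine ⟨1 + n + n * r, n - r, 0, 0, Or.inl (by omega), ?_⟩
        have e : n - r = u := by omega
        simp only [e, Nat.sub_self]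
        subst hm
        rw [hu]; ring
    · obtain ⟨p, hp⟩ : ∃ p, n - (s + 1) = p := ⟨_, rfl⟩
      rw [hp] at h2 ⊢
      obtain ⟨u, hu⟩ := Nat.exists_eq_add_of_lt h2
      obtain ⟨v, hv⟩ := Nat.exists_eq_add_of_le hr
      refine ⟨1 + s + p + s * (r - p), p + (s - r), 0, 0, Or.inl (by omega), ?_⟩
      have e1 : r - p = u + 1 := by omega
      have e2 : s - r = v := by omega
      have e3 : s + 1 - p = u + v + 2 := by omega
      simp only [e1, e2, e3]
      subst hm
      subst hv
      subst hu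
      ring
    · obtain ⟨p, hp⟩ : ∃ p, n - (s + 1) = p := ⟨_, rfl⟩
      rw [hp] at h2 h3 ⊢
      obtain ⟨u, hu⟩ := Nat.exists_eq_add_of_lt h3
      obtain ⟨v, hv⟩ := Nat.exists_eq_add_of_le (Nat.le_of_not_lt h2)
      refine ⟨1 + p + s * (s - (p - r)), p - r, 0, 0, Or.inl (by omega), ?_⟩
      have e1 : s - (p - r) = r + u + 1 := by omega
      have e2 : p - r = v := by omega
      have e3 : s - p = u + 1 := by omega
      dsimp only
      rw [e1, e2, e3]
      subst hm
      subst hu
      subst hv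
      ring
    · obtain ⟨u, hu⟩ := Nat.exists_eq_add_of_le hs
      refine ⟨u + 1, 0, 0, 1, Or.inl (by omega), ?_⟩
      simp only
      subst hu
      ring
  · intro g hg
    obtain ⟨n, hn, rfl⟩ := Finset.mem_image.mp hg
    rw [Finset.mem_range] at hn
    apply iso_of_uniq m _ _ _ (Ne s r) hU
    · unfold fe Ne
      split_ifs with h1 h2 h3 <;> dsimp only <;> intro h <;> refine ⟨?_, ?_, ?_⟩ <;> omega
    · unfold fe Ne
      split_ifs with h1 h2 h3 <;> dsimp only <;> intro h <;> refine ⟨?_, ?_, ?_⟩ <;> omega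
    · unfold fe Ne
      split_ifs with h1 h2 h3 <;> dsimp only <;> intro h <;> refine ⟨?_, ?_, ?_⟩ <;> omega

theorem lower_odd (s r m : ℕ) (hs : 2 ≤ s) (hm : m = s * s + s + 1 + r) (hr : r < s)
    (t : Finset (MvPolynomial (Fin 4) ℚ))
    (ht : Ideal.span (t : Set (MvPolynomial (Fin 4) ℚ)) =
      RingHom.ker (tor ![m, 1 + m * (s + 1), m * (s + 1) + s * s + r,
        m * (s + 1) + s * s + r + 1])) :
    2 * s + 3 ≤ t.card := by
  classical
  have hU : ∀ i0 k0 j0, No s r i0 k0 j0 → ∀ w i k j,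
      m * w + (1 + m * (s + 1)) * i + (m * (s + 1) + s * s + r) * k +
        (m * (s + 1) + s * s + r + 1) * j
      = (1 + m * (s + 1)) * i0 + (m * (s + 1) + s * s + r) * k0 +
        (m * (s + 1) + s * s + r + 1) * j0 →
      w = 0 ∧ i = i0 ∧ k = k0 ∧ j = j0 := by
    intro i0 k0 j0 hN w i k j h
    exact uniq_odd s r m hs hm hr i0 k0 j0 hN.1 hN.2.1 hN.2.2.1 hN.2.2.2 w i k j h
  have hc : ((Finset.range (2 * s + 3)).image (fo s r)).card = 2 * s + 3 := by
    rw [Finset.card_image_of_injOn (fo_injOn s r hs hr), Finset.card_range]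
  rw [← hc]
  apply card_le_four m _ _ _ _ _ _ t ht
  · intro g hg
    obtain ⟨n, hn, rfl⟩ := Finset.mem_image.mp hg
    rw [Finset.mem_range] at hn
    unfold fo
    split_ifs with h1 h2 h3
    · rcases Nat.eq_zero_or_pos n with h4 | h4
      · subst h4
        obtain ⟨u, hu⟩ := Nat.exists_eq_add_of_lt hr
        refine ⟨2, 0, r, s - r, Or.inl (by omega), ?_⟩
        have e : s - r = u + 1 := by omega
        simp only [e, Nat.sub_zero]
        subst hm
        subst hu
        ring
      · rcases Nat.lt_or_ge s n with h5 | h5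
        · have h6 : n = s + 1 := by omega
          subst h6
          obtain ⟨u, hu⟩ := Nat.exists_eq_add_of_lt hr
          refine ⟨(s + 1) * (s - r) + s, r + 1, 0, 0, Or.inl (by omega), ?_⟩
          have e : s - r = u + 1 := by omega
          simp only [e, Nat.sub_self]
          subst hm
          subst hu
          ring
        · obtain ⟨u, hu⟩ := Nat.exists_eq_add_of_le h5
          obtain ⟨v, hv⟩ : ∃ v, n = v + 1 := ⟨n - 1, by omega⟩
          refine ⟨(s + 1) * (s + 2 - n) + 1, 0, n - 1, 0, Or.inl (by omega), ?_⟩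
          have e1 : s + 2 - n = u + 2 := by omega
          have e2 : n - 1 = v := by omega
          have e3 : s + 1 - n = u + 1 := by omega
          simp only [e1, e2, e3]
          subst hm
          subst hv
          subst hu
          ring
    · obtain ⟨p, hp⟩ : ∃ p, n - (s + 2) = p := ⟨_, rfl⟩
      rw [hp] at h2 ⊢
      obtain ⟨u, hu⟩ := Nat.exists_eq_add_of_lt hr
      obtain ⟨v, hv⟩ : ∃ v, s = p + r + 1 + v := ⟨s - (p + r + 1), by omega⟩
      refine ⟨(s + 1) * (s - p - r - 1) + (s - 1), p + r + 1, 0, 0, Or.inl (by omega), ?_⟩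
      have e1 : s - p - r - 1 = v := by omega
      have e2 : s - 1 = p + r + v := by omega
      have e3 : s - p = r + 1 + v := by omega
      dsimp only
      rw [e1, e2, e3]
      subst hm
      clear hu
      subst hv
      ring
    · obtain ⟨k, hk⟩ : ∃ k, n - (s + 2) - (s - r) + 1 = k := ⟨_, rfl⟩
      have e0 : s - (n - (s + 2) - (s - r)) = s + 1 - k := by omega
      rw [hk, e0]
      obtain ⟨u, hu⟩ : ∃ u, r = k + u := ⟨r - k, by omega⟩
      obtain ⟨v, hv⟩ : ∃ v, s = r + v := ⟨s - r, by omega⟩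
      refine ⟨(s + 1) * (s - r + k) + s, r + 1 - k, 0, 0, Or.inl (by omega), ?_⟩
      have e1 : s - r = v := by omega
      have e2 : r + 1 - k = u + 1 := by omega
      have e3 : s + 1 - k = u + v + 1 := by omega
      simp only [e1, e2, e3]
      subst hm
      subst hv
      subst hu
      ring
    · refine ⟨s + 1, 0, 0, 1, Or.inl (by omega), ?_⟩
      simp only
      subst hm
      ring
  · intro g hg
    obtain ⟨n, hn, rfl⟩ := Finset.mem_image.mp hg
    rw [Finset.mem_range] at hn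
    apply iso_of_uniq m _ _ _ (No s r) hU
    · unfold fo No
      split_ifs with h1 h2 h3 <;> dsimp only <;> intro h <;> refine ⟨?_, ?_, ?_, ?_⟩ <;> omega
    · unfold fo No
      split_ifs with h1 h2 h3 <;> dsimp only <;> intro h <;> refine ⟨?_, ?_, ?_, ?_⟩ <;> omega
    · unfold fo No
      split_ifs with h1 h2 h3 <;> dsimp only <;> intro h <;> refine ⟨?_, ?_, ?_, ?_⟩ <;> omega

/-- elements of the closure of the other generators -/
theorem mem_closure_others (a : Fin 4 → ℕ) (i : Fin 4) (x : ℕ)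
    (hx : x ∈ AddSubmonoid.closure (a '' {j : Fin 4 | j ≠ i})) :
    ∃ u : Fin 4 →₀ ℕ, u i = 0 ∧ wt a u = x := by
  induction hx using AddSubmonoid.closure_induction with
  | mem x hx =>
    obtain ⟨j, hj, rfl⟩ := hx
    refine ⟨Finsupp.single j 1, ?_, ?_⟩
    · rw [Finsupp.single_apply, if_neg hj]
    · simp [wt, Finsupp.single_apply]
  | zero => exact ⟨0, rfl, by simp [wt]⟩
  | add x y _ _ hx hy =>
    obtain ⟨u, hu, rfl⟩ := hx
    obtain ⟨v, hv, rfl⟩ := hy
    exact ⟨u + v, by rw [Finsupp.add_apply, hu, hv], wt_add _ _ _⟩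

theorem minimal_of_uniq (m X Z Y : ℕ) (hm : 0 < m) (hX : m < X) (hZ : m < Z) (hY : m < Y)
    (hUX : ∀ w i k j, m * w + X * i + Z * k + Y * j = X → i ≠ 0)
    (hUZ : ∀ w i k j, m * w + X * i + Z * k + Y * j = Z → k ≠ 0)
    (hUY : ∀ w i k j, m * w + X * i + Z * k + Y * j = Y → j ≠ 0) (i : Fin 4) :
    (![m, X, Z, Y] : Fin 4 → ℕ) i ∉
      AddSubmonoid.closure ((![m, X, Z, Y] : Fin 4 → ℕ) '' {j : Fin 4 | j ≠ i}) := by
  intro hmem
  obtain ⟨u, hu, hw⟩ := mem_closure_others _ i _ hmem
  rw [wt_four] at hw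
  fin_cases i
  · simp only [Fin.zero_eta, Fin.isValue, Matrix.cons_val_zero] at hu hw
    rw [hu, mul_zero, zero_add] at hw
    have h1 : u 1 = 0 := by
      by_contra h
      have : X * 1 ≤ X * u 1 := Nat.mul_le_mul_left _ (by omega)
      omega
    have h2 : u 2 = 0 := by
      by_contra h
      have : Z * 1 ≤ Z * u 2 := Nat.mul_le_mul_left _ (by omega)
      omega
    have h3 : u 3 = 0 := by
      by_contra h
      have : Y * 1 ≤ Y * u 3 := Nat.mul_le_mul_left _ (by omega)
      omega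
    rw [h1, h2, h3] at hw
    omega
  · exact hUX _ _ _ _ hw hu
  · exact hUZ _ _ _ _ hw hu
  · exact hUY _ _ _ _ hw hu

theorem gcd_eq_one (m X Z Y c : ℕ) (hX : X = 1 + m * c) :
    Finset.univ.gcd (![m, X, Z, Y] : Fin 4 → ℕ) = 1 := by
  generalize hG : Finset.univ.gcd (![m, X, Z, Y] : Fin 4 → ℕ) = G
  have h0 : G ∣ m := hG ▸
    Finset.gcd_dvd (f := (![m, X, Z, Y] : Fin 4 → ℕ)) (Finset.mem_univ 0)
  have h1 : G ∣ X := hG ▸
    Finset.gcd_dvd (f := (![m, X, Z, Y] : Fin 4 → ℕ)) (Finset.mem_univ 1)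
  rw [hX] at h1
  have h2 := (Nat.dvd_add_left (h0.mul_right c)).mp h1
  exact Nat.dvd_one.mp h2

theorem strictMono_four (m X Z Y : ℕ) (h1 : m < X) (h2 : X < Z) (h3 : Z < Y) :
    StrictMono (![m, X, Z, Y] : Fin 4 → ℕ) := by
  rw [Fin.strictMono_iff_lt_succ]
  intro i
  fin_cases i
  · exact h1
  · exact h2
  · exact h3

theorem floor_even (s r m : ℕ) (hm : m = s * s + r) (hr : r ≤ s) :
    ⌊(2 : ℝ) + 2 * Real.sqrt (m : ℝ)⌋₊ = 2 * s + 2 := by
  rw [Nat.floor_eq_iff (by positivity)]
  have h1 : (s : ℝ) ≤ Real.sqrt (m : ℝ) := by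
    apply Real.le_sqrt_of_sq_le
    subst hm
    push_cast
    nlinarith [Nat.cast_nonneg (α := ℝ) r]
  have h2 : Real.sqrt (m : ℝ) < (s : ℝ) + 1 / 2 := by
    rw [Real.sqrt_lt' (by positivity)]
    subst hm
    push_cast
    have : (r : ℝ) ≤ s := by exact_mod_cast hr
    nlinarith
  push_cast
  constructor <;> linarith

theorem floor_odd (s r m : ℕ) (hm : m = s * s + s + 1 + r) (hr : r < s) :
    ⌊(2 : ℝ) + 2 * Real.sqrt (m : ℝ)⌋₊ = 2 * s + 3 := by
  rw [Nat.floor_eq_iff (by positivity)]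
  have h1 : (s : ℝ) + 1 / 2 ≤ Real.sqrt (m : ℝ) := by
    apply Real.le_sqrt_of_sq_le
    subst hm
    push_cast
    nlinarith [Nat.cast_nonneg (α := ℝ) r]
  have h2 : Real.sqrt (m : ℝ) < (s : ℝ) + 1 := by
    rw [Real.sqrt_lt' (by positivity)]
    subst hm
    push_cast
    have : (r : ℝ) + 1 ≤ s := by exact_mod_cast hr
    nlinarith
  push_cast
  constructor <;> linarith

/-- **Attaining family**: for every `m > 3` there is a numerical semigroup with `4` minimal
generators and multiplicity `m` each of whose presentations has at least `⌊2 + 2 √m⌋` relations. -/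
theorem attained (m : ℕ) (hm : 3 < m) :
    ∃ a : Fin 4 → ℕ, StrictMono a ∧ a 0 = m ∧ Finset.univ.gcd a = 1 ∧
      (∀ i : Fin 4, a i ∉ AddSubmonoid.closure (a '' {j : Fin 4 | j ≠ i})) ∧
      ∀ t : Finset (MvPolynomial (Fin 4) ℚ),
        Ideal.span (t : Set (MvPolynomial (Fin 4) ℚ)) =
          RingHom.ker (MvPolynomial.aeval
            (fun i : Fin 4 => (Polynomial.X : Polynomial ℚ) ^ (a i))) →
        ⌊(2 : ℝ) + 2 * Real.sqrt (m : ℝ)⌋₊ ≤ t.card := by
  obtain ⟨s, hs1, hs2⟩ : ∃ s, s * s ≤ m ∧ m < (s + 1) * (s + 1) :=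
    ⟨Nat.sqrt m, Nat.sqrt_le m, Nat.lt_succ_sqrt m⟩
  have hs : 2 ≤ s := by
    by_contra h
    have : (s + 1) * (s + 1) ≤ 2 * 2 := Nat.mul_le_mul (by omega) (by omega)
    omega
  have hss : 2 * s ≤ s * s := Nat.mul_le_mul_right _ hs
  rcases Nat.lt_or_ge (s * s + s) m with h | h
  · -- odd case
    obtain ⟨r, hr⟩ : ∃ r, m = s * s + s + 1 + r := ⟨m - (s * s + s + 1), by omega⟩
    have hrs : r < s := by
      have e : (s + 1) * (s + 1) = s * s + 2 * s + 1 := by ring
      omega
    have hU : ∀ i0 k0 j0, No s r i0 k0 j0 → ∀ w i k j,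
        m * w + (1 + m * (s + 1)) * i + (m * (s + 1) + s * s + r) * k +
          (m * (s + 1) + s * s + r + 1) * j
        = (1 + m * (s + 1)) * i0 + (m * (s + 1) + s * s + r) * k0 +
          (m * (s + 1) + s * s + r + 1) * j0 →
        w = 0 ∧ i = i0 ∧ k = k0 ∧ j = j0 := by
      intro i0 k0 j0 hN w i k j h
      exact uniq_odd s r m hs hr hrs i0 k0 j0 hN.1 hN.2.1 hN.2.2.1 hN.2.2.2 w i k j h
    have hmm : m * 1 ≤ m * (s + 1) := Nat.mul_le_mul_left _ (by omega)
    refine ⟨![m, 1 + m * (s + 1), m * (s + 1) + s * s + r, m * (s + 1) + s * s + r + 1],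
      ?_, rfl, ?_, ?_, ?_⟩
    · apply strictMono_four <;> omega
    · exact gcd_eq_one _ _ _ _ (s + 1) rfl
    · intro i
      apply minimal_of_uniq m _ _ _ (by omega) (by omega) (by omega) (by omega)
      · intro w i k j h
        have := hU 1 0 0 (by unfold No; omega) w i k j (by rw [h]; ring)
        omega
      · intro w i k j h
        have := hU 0 1 0 (by unfold No; omega) w i k j (by rw [h]; ring)
        omega
      · intro w i k j h
        have := hU 0 0 1 (by unfold No; omega) w i k j (by rw [h]; ring)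
        omega
    · intro t ht
      rw [floor_odd s r m hr hrs]
      exact lower_odd s r m hs hr hrs t ht
  · obtain ⟨r, hr⟩ : ∃ r, m = s * s + r := ⟨m - s * s, by omega⟩
    have hrs : r ≤ s := by omega
    have hU : ∀ i0 k0 j0, Ne s r i0 k0 j0 → ∀ w i k j,
        m * w + (1 + m * s) * i + (s + m * s) * k + (s + 1 + m * (s + 1)) * j
        = (1 + m * s) * i0 + (s + m * s) * k0 + (s + 1 + m * (s + 1)) * j0 →
        w = 0 ∧ i = i0 ∧ k = k0 ∧ j = j0 := by
      intro i0 k0 j0 hN w i k j h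
      exact uniq_even s r m hs hr i0 k0 j0 hN.1 hN.2.1 hN.2.2 w i k j h
    have hmm : m * 1 ≤ m * s := Nat.mul_le_mul_left _ (by omega)
    have hmm2 : m * (s + 1) = m * s + m := by ring
    refine ⟨![m, 1 + m * s, s + m * s, s + 1 + m * (s + 1)], ?_, rfl, ?_, ?_, ?_⟩
    · apply strictMono_four <;> omega
    · exact gcd_eq_one _ _ _ _ s rfl
    · intro i
      apply minimal_of_uniq m _ _ _ (by omega) (by omega) (by omega) (by omega)
      · intro w i k j h
        have := hU 1 0 0 (by unfold Ne; omega) w i k j (by rw [h]; ring)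
        omega
      · intro w i k j h
        have := hU 0 1 0 (by unfold Ne; omega) w i k j (by rw [h]; ring)
        omega
      · intro w i k j h
        have := hU 0 0 1 (by unfold Ne; omega) w i k j (by rw [h]; ring)
        omega
    · intro t ht
      rw [floor_even s r m hr hrs]
      exact lower_even s r m hs hr hrs t ht

end Pool.Agent.Helper1.NS
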