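import Pool.Agent.Helper13.NS.Stair

/-!
Planar staircases: corner counting lemmas.
-/

set_option autoImplicit false

namespace Pool.Agent.Helper1.NSV

open Finset Classical Pool.Agent.Helper13.NS

section planar

variable {D : ℕ → ℕ → Prop} {X Y : ℕ}

theorem exists_cor_le (down : ∀ {x y x' y' : ℕ}, D x y → x' ≤ x → y' ≤ y → D x' y')
    (hX : ∀ x, D x 0 ↔ x < X) (hY : ∀ y, D 0 y ↔ y < Y) :
    ∀ n x y, x + y = n → x < X → y < Y → ¬ D x y → ∃ c ∈ cor D X Y, c.1 ≤ x ∧ c.2 ≤ y := by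
  intro n
  induction n with
  | zero =>
    intro x y h hx hy hD
    exfalso
    have h1 : x = 0 := by omega
    have h2 : y = 0 := by omega
    subst h1; subst h2
    exact hD ((hX 0).2 hx)
  | succ n ih =>
    intro x y h hx hy hD
    have hx1 : 1 ≤ x := by
      by_contra h0
      have : x = 0 := by omega
      subst this
      exact hD ((hY y).2 hy)
    have hy1 : 1 ≤ y := by
      by_contra h0
      have : y = 0 := by omega
      subst this
      exact hD ((hX x).2 hx)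
    by_cases h1 : D (x - 1) y
    · by_cases h2 : D x (y - 1)
      · refine ⟨(x, y), ?_, le_rfl, le_rfl⟩
        rw [mem_cor]
        exact ⟨⟨hx, hy⟩, hx1, hy1, hD, h1, h2⟩
      · obtain ⟨c, hc, hc1, hc2⟩ := ih x (y - 1) (by omega) hx (by omega) h2
        exact ⟨c, hc, hc1, by omega⟩
    · obtain ⟨c, hc, hc1, hc2⟩ := ih (x - 1) y (by omega) (by omega) hy h1
      exact ⟨c, hc, by omega, hc2⟩

theorem cor_anti (down : ∀ {x y x' y' : ℕ}, D x y → x' ≤ x → y' ≤ y → D x' y')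
    {c c' : ℕ × ℕ} (hc : c ∈ cor D X Y) (hc' : c' ∈ cor D X Y) (h : c.1 < c'.1) :
    c'.2 < c.2 := by
  rw [mem_cor] at hc hc'
  by_contra h1
  exact hc.2.2.2.1 (down hc'.2.2.2.2.1 (by omega) (by omega))

theorem cor_anti' (down : ∀ {x y x' y' : ℕ}, D x y → x' ≤ x → y' ≤ y → D x' y')
    {c c' : ℕ × ℕ} (hc : c ∈ cor D X Y) (hc' : c' ∈ cor D X Y) (h : c.2 < c'.2) :
    c'.1 < c.1 := by
  rw [mem_cor] at hc hc'
  by_contra h1
  exact hc.2.2.2.1 (down hc'.2.2.2.2.2 (by omega) (by omega))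

theorem cor_inj1 (down : ∀ {x y x' y' : ℕ}, D x y → x' ≤ x → y' ≤ y → D x' y')
    {c c' : ℕ × ℕ} (hc : c ∈ cor D X Y) (hc' : c' ∈ cor D X Y) (h : c.1 = c'.1) :
    c = c' := by
  have h2 : c.2 = c'.2 := by
    rcases lt_trichotomy c.2 c'.2 with h3 | h3 | h3
    · have := cor_anti' down hc hc' h3; omega
    · exact h3
    · have := cor_anti' down hc' hc h3; omega
  exact Prod.ext h h2

theorem cor_inj2 (down : ∀ {x y x' y' : ℕ}, D x y → x' ≤ x → y' ≤ y → D x' y')
    {c c' : ℕ × ℕ} (hc : c ∈ cor D X Y) (hc' : c' ∈ cor D X Y) (h : c.2 = c'.2) :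
    c = c' := by
  have h2 : c.1 = c'.1 := by
    rcases lt_trichotomy c.1 c'.1 with h3 | h3 | h3
    · have := cor_anti down hc hc' h3; omega
    · exact h3
    · have := cor_anti down hc' hc h3; omega
  exact Prod.ext h2 h

theorem card_le_fst (down : ∀ {x y x' y' : ℕ}, D x y → x' ≤ x → y' ≤ y → D x' y')
    {K : Finset (ℕ × ℕ)} (hK : K ⊆ cor D X Y) (I : Finset ℕ) (hI : ∀ c ∈ K, c.1 ∈ I) :
    K.card ≤ I.card := by
  apply Finset.card_le_card_of_injOn (fun c => c.1)
  · intro c hc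
    exact hI c hc
  · intro c hc c' hc' h
    exact cor_inj1 down (hK hc) (hK hc') h

theorem card_le_snd (down : ∀ {x y x' y' : ℕ}, D x y → x' ≤ x → y' ≤ y → D x' y')
    {K : Finset (ℕ × ℕ)} (hK : K ⊆ cor D X Y) (I : Finset ℕ) (hI : ∀ c ∈ K, c.2 ∈ I) :
    K.card ≤ I.card := by
  apply Finset.card_le_card_of_injOn (fun c => c.2)
  · intro c hc
    exact hI c hc
  · intro c hc c' hc' h
    exact cor_inj2 down (hK hc) (hK hc') h

/-- The basic counting lemma: a non-member `(x, y)` bounds the number of corners. -/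
theorem card_le_of_not (down : ∀ {x y x' y' : ℕ}, D x y → x' ≤ x → y' ≤ y → D x' y')
    (hX : ∀ x, D x 0 ↔ x < X) (hY : ∀ y, D 0 y ↔ y < Y)
    {K : Finset (ℕ × ℕ)} (hK : K ⊆ cor D X Y) {L1 L2 : ℕ}
    (h1 : ∀ c ∈ K, L1 ≤ c.1) (h2 : ∀ c ∈ K, L2 ≤ c.2) {x y : ℕ} (hD : ¬ D x y) :
    K.card ≤ (x + 1 - L1) + (y - L2) := by
  rw [← Finset.card_filter_add_card_filter_not (s := K) (fun c => c.1 ≤ x)]
  have e1 : (K.filter (fun c => c.1 ≤ x)).card ≤ x + 1 - L1 := by
    rw [← Nat.card_Icc]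
    apply card_le_fst down ((Finset.filter_subset _ _).trans hK)
    intro c hc
    rw [Finset.mem_filter] at hc
    rw [Finset.mem_Icc]
    exact ⟨h1 c hc.1, hc.2⟩
  have e2 : (K.filter (fun c => ¬ c.1 ≤ x)).card ≤ y - L2 := by
    rw [← Nat.card_Ico]
    apply card_le_snd down ((Finset.filter_subset _ _).trans hK)
    intro c hc
    rw [Finset.mem_filter] at hc
    rw [Finset.mem_Ico]
    refine ⟨h2 c hc.1, ?_⟩
    have hcc := hK hc.1
    have hcc' := mem_cor.1 hcc
    by_cases hy : y < Y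
    · by_cases hx : x < X
      · obtain ⟨c0, hc0, hc1, hc2⟩ := exists_cor_le down hX hY (x + y) x y rfl hx hy hD
        have := cor_anti down hc0 hcc (by omega)
        omega
      · omega
    · omega
  omega

end planar

/-! ### triangles -/

/-- the triangle `{(a + x, b + k) : 1 ≤ x, 1 ≤ k, x + k ≤ u}` -/
def tri (u a b : ℕ) : Finset (ℕ × ℕ) :=
  ((range u).sigma (fun i => range i)).image (fun s => (a + (u - s.1), b + s.2 + 1))

theorem card_tri (u a b : ℕ) : (tri u a b).card * 2 = u * (u - 1) := by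
  unfold tri
  rw [Finset.card_image_of_injOn, Finset.card_sigma]
  · simp only [Finset.card_range]
    exact Finset.sum_range_id_mul_two u
  · rintro ⟨i, l⟩ h ⟨i', l'⟩ h' e
    simp only [Finset.coe_sigma, Set.mem_sigma_iff, Finset.coe_range, Set.mem_Iio] at h h'
    simp only [Prod.mk.injEq] at e
    have h1 : i = i' := by omega
    have h2 : l = l' := by omega
    subst h1; subst h2; rfl

theorem mem_tri {u a b : ℕ} {c : ℕ × ℕ} (h : c ∈ tri u a b) :
    a < c.1 ∧ b < c.2 ∧ c.1 + c.2 ≤ a + b + u := by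
  unfold tri at h
  simp only [Finset.mem_image, Finset.mem_sigma, Finset.mem_range] at h
  obtain ⟨⟨i, l⟩, ⟨h1, h2⟩, rfl⟩ := h
  simp only at h1 h2 ⊢
  omega

end Pool.Agent.Helper1.NSV
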