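import Pool.Agent.Helper1.NSPlanar

set_option autoImplicit false

namespace Pool.Agent.Helper1.NSV

open Finset Classical Pool.Agent.Helper13.NS

section planar

variable {D : ℕ → ℕ → Prop} {X Y : ℕ}

theorem side_lt (down : ∀ {x y x' y' : ℕ}, D x y → x' ≤ x → y' ≤ y → D x' y')
    {t1 t2 : ℕ} (hT : D t1 t2) {c : ℕ × ℕ} (hc : c ∈ cor D X Y) (h : c.1 < t1) : t2 < c.2 := by
  rw [mem_cor] at hc
  by_contra h1
  exact hc.2.2.2.1 (down hT (by omega) (by omega))

theorem side_lt' (down : ∀ {x y x' y' : ℕ}, D x y → x' ≤ x → y' ≤ y → D x' y')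
    {t1 t2 : ℕ} (hT : D t1 t2) {c : ℕ × ℕ} (hc : c ∈ cor D X Y) (h : c.2 < t2) : t1 < c.1 := by
  rw [mem_cor] at hc
  by_contra h1
  exact hc.2.2.2.1 (down hT (by omega) (by omega))

/-- partition of the corners -/
theorem card_cor_eq (down : ∀ {x y x' y' : ℕ}, D x y → x' ≤ x → y' ≤ y → D x' y')
    {t1 t2 : ℕ} (hT : D t1 t2) :
    (cor D X Y).card = ((cor D X Y).filter (fun c => c.1 < t1)).card +
      ((cor D X Y).filter (fun c => c.2 < t2)).card +
      ((cor D X Y).filter (fun c => t1 ≤ c.1 ∧ t2 ≤ c.2)).card := by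
  have h1 : (cor D X Y) = ((cor D X Y).filter (fun c => c.1 < t1) ∪
      (cor D X Y).filter (fun c => c.2 < t2)) ∪
      (cor D X Y).filter (fun c => t1 ≤ c.1 ∧ t2 ≤ c.2) := by
    ext c
    simp only [mem_union, mem_filter]
    constructor
    · intro h
      by_cases ha : c.1 < t1
      · exact Or.inl (Or.inl ⟨h, ha⟩)
      · by_cases hb : c.2 < t2
        · exact Or.inl (Or.inr ⟨h, hb⟩)
        · exact Or.inr ⟨h, by omega, by omega⟩
    · rintro ((h | h) | h) <;> exact h.1
  conv_lhs => rw [h1]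
  rw [card_union_of_disjoint, card_union_of_disjoint]
  · rw [disjoint_left]
    intro c hc hc'
    rw [mem_filter] at hc hc'
    have := side_lt down hT hc.1 hc.2
    omega
  · rw [disjoint_left]
    intro c hc hc'
    rw [mem_union, mem_filter, mem_filter] at hc
    rw [mem_filter] at hc'
    omega

theorem u_le (down : ∀ {x y x' y' : ℕ}, D x y → x' ≤ x → y' ≤ y → D x' y') (t1 : ℕ) :
    ((cor D X Y).filter (fun c => c.1 < t1)).card ≤ t1 - 1 := by
  have := card_le_fst down (filter_subset (fun c => c.1 < t1) (cor D X Y)) (Ico 1 t1) (by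
    intro c hc
    rw [mem_filter, mem_cor] at hc
    rw [mem_Ico]
    omega)
  rwa [Nat.card_Ico] at this

theorem v_le (down : ∀ {x y x' y' : ℕ}, D x y → x' ≤ x → y' ≤ y → D x' y') (t2 : ℕ) :
    ((cor D X Y).filter (fun c => c.2 < t2)).card ≤ t2 - 1 := by
  have := card_le_snd down (filter_subset (fun c => c.2 < t2) (cor D X Y)) (Ico 1 t2) (by
    intro c hc
    rw [mem_filter, mem_cor] at hc
    rw [mem_Ico]
    omega)
  rwa [Nat.card_Ico] at this

/-- the tail triangle on the left side, above height `s ≥ t2` -/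
theorem tri_left (down : ∀ {x y x' y' : ℕ}, D x y → x' ≤ x → y' ≤ y → D x' y')
    (hX : ∀ x, D x 0 ↔ x < X) (hY : ∀ y, D 0 y ↔ y < Y) {t1 s : ℕ} (hs : D (t1 - 1) s)
    {c : ℕ × ℕ} (hc : c ∈ tri ((cor D X Y).filter (fun c => c.1 < t1)).card 0 s) :
    D c.1 c.2 := by
  by_contra hD
  have hm := mem_tri hc
  have := card_le_of_not down hX hY (filter_subset (fun c => c.1 < t1) (cor D X Y))
    (L1 := 1) (L2 := s + 1)
    (by
      intro c hc
      rw [mem_filter, mem_cor] at hc
      omega)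
    (by
      intro c hc
      rw [mem_filter] at hc
      rw [mem_cor] at hc
      by_contra h1
      exact hc.1.2.2.2.1 (down hs (by omega) (by omega))) hD
  omega

theorem tri_right (down : ∀ {x y x' y' : ℕ}, D x y → x' ≤ x → y' ≤ y → D x' y')
    (hX : ∀ x, D x 0 ↔ x < X) (hY : ∀ y, D 0 y ↔ y < Y) {t2 s : ℕ} (hs : D s (t2 - 1))
    {c : ℕ × ℕ} (hc : c ∈ tri ((cor D X Y).filter (fun c => c.2 < t2)).card s 0) :
    D c.1 c.2 := by
  by_contra hD
  have hm := mem_tri hc
  have := card_le_of_not down hX hY (filter_subset (fun c => c.2 < t2) (cor D X Y))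
    (L1 := s + 1) (L2 := 1)
    (by
      intro c hc
      rw [mem_filter] at hc
      rw [mem_cor] at hc
      by_contra h1
      exact hc.1.2.2.2.1 (down hs (by omega) (by omega)))
    (by
      intro c hc
      rw [mem_filter, mem_cor] at hc
      omega) hD
  omega

theorem planar0 (down : ∀ {x y x' y' : ℕ}, D x y → x' ≤ x → y' ≤ y → D x' y')
    (hX : ∀ x, D x 0 ↔ x < X) (hY : ∀ y, D 0 y ↔ y < Y) {t1 t2 : ℕ}
    (hT : D t1 t2) (W : Finset (ℕ × ℕ)) (hW : ∀ x y, 1 ≤ x → 1 ≤ y → D x y → (x, y) ∈ W) :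
    2 * (t1 * t2) +
      ((cor D X Y).filter (fun c => c.1 < t1)).card *
        (((cor D X Y).filter (fun c => c.1 < t1)).card - 1) +
      ((cor D X Y).filter (fun c => c.2 < t2)).card *
        (((cor D X Y).filter (fun c => c.2 < t2)).card - 1) ≤ 2 * W.card := by
  have hu := u_le (X := X) (Y := Y) down t1
  have hv := v_le (X := X) (Y := Y) down t2
  have hL := fun c => tri_left (c := c) down hX hY (t1 := t1) (s := t2)
    (down hT (by omega) le_rfl)
  have hR := fun c => tri_right (c := c) down hX hY (t2 := t2) (s := t1)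
    (down hT le_rfl (by omega))
  generalize ((cor D X Y).filter (fun c => c.1 < t1)).card = u at hu hL ⊢
  generalize ((cor D X Y).filter (fun c => c.2 < t2)).card = v at hv hR ⊢
  have hsub : (Icc 1 t1 ×ˢ Icc 1 t2) ∪ (tri u 0 t2 ∪ tri v t1 0) ⊆ W := by
    intro c hc
    rw [mem_union, mem_union] at hc
    rcases hc with hc | hc | hc
    · rw [mem_product, mem_Icc, mem_Icc] at hc
      exact hW _ _ hc.1.1 hc.2.1 (down hT hc.1.2 hc.2.2)
    · have := mem_tri hc
      exact hW _ _ (by omega) (by omega) (hL c hc)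
    · have := mem_tri hc
      exact hW _ _ (by omega) (by omega) (hR c hc)
  have hcard := card_le_card hsub
  rw [card_union_of_disjoint, card_union_of_disjoint, card_product, Nat.card_Icc,
    Nat.card_Icc] at hcard
  · have h1 := card_tri u 0 t2
    have h2 := card_tri v t1 0
    simp only [Nat.add_sub_cancel] at hcard
    omega
  · rw [disjoint_left]
    intro c hc hc'
    have h1 := mem_tri hc
    have h2 := mem_tri hc'
    omega
  · rw [disjoint_left]
    intro c hc hc'
    rw [mem_product, mem_Icc, mem_Icc] at hc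
    rw [mem_union] at hc'
    rcases hc' with hc' | hc'
    · have h2 := mem_tri hc'; omega
    · have h2 := mem_tri hc'; omega

/-- members around `T` -/
theorem near_mem (down : ∀ {x y x' y' : ℕ}, D x y → x' ≤ x → y' ≤ y → D x' y')
    (hX : ∀ x, D x 0 ↔ x < X) (hY : ∀ y, D 0 y ↔ y < Y) {t1 t2 j : ℕ}
    (hj : ((cor D X Y).filter (fun c => t1 ≤ c.1 ∧ t2 ≤ c.2)).card = j + 1) {h w : ℕ}
    (hhw : h + w < j) : D (t1 + h) (t2 + w) := by
  by_contra hD
  have := card_le_of_not down hX hY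
    (filter_subset (fun c => t1 ≤ c.1 ∧ t2 ≤ c.2) (cor D X Y)) (L1 := t1) (L2 := t2)
    (fun c hc => (mem_filter.1 hc).2.1) (fun c hc => (mem_filter.1 hc).2.2) hD
  omega

theorem top_mem (down : ∀ {x y x' y' : ℕ}, D x y → x' ≤ x → y' ≤ y → D x' y')
    {t1 t2 j : ℕ}
    (hj : ((cor D X Y).filter (fun c => t1 ≤ c.1 ∧ t2 ≤ c.2)).card = j + 1) :
    D (t1 - 1) (t2 + j) := by
  by_contra hD
  have := card_le_snd down (filter_subset (fun c => t1 ≤ c.1 ∧ t2 ≤ c.2) (cor D X Y))
    (Ico t2 (t2 + j)) (by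
      intro c hc
      rw [mem_filter, mem_cor] at hc
      rw [mem_Ico]
      refine ⟨hc.2.2, ?_⟩
      by_contra h1
      exact hD (down hc.1.2.2.2.2.1 (by omega) (by omega)))
  rw [Nat.card_Ico, hj] at this
  omega

theorem right_mem (down : ∀ {x y x' y' : ℕ}, D x y → x' ≤ x → y' ≤ y → D x' y')
    {t1 t2 j : ℕ}
    (hj : ((cor D X Y).filter (fun c => t1 ≤ c.1 ∧ t2 ≤ c.2)).card = j + 1) :
    D (t1 + j) (t2 - 1) := by
  by_contra hD
  have := card_le_fst down (filter_subset (fun c => t1 ≤ c.1 ∧ t2 ≤ c.2) (cor D X Y))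
    (Ico t1 (t1 + j)) (by
      intro c hc
      rw [mem_filter, mem_cor] at hc
      rw [mem_Ico]
      refine ⟨hc.2.1, ?_⟩
      by_contra h1
      exact hD (down hc.1.2.2.2.2.2 (by omega) (by omega)))
  rw [Nat.card_Ico, hj] at this
  omega

/-- the extra point -/
theorem extra (down : ∀ {x y x' y' : ℕ}, D x y → x' ≤ x → y' ≤ y → D x' y')
    (hX : ∀ x, D x 0 ↔ x < X) (hY : ∀ y, D 0 y ↔ y < Y) {t1 t2 j : ℕ}
    (ht1 : 1 ≤ t1) (ht2 : 1 ≤ t2) (hj1 : 1 ≤ j)
    (hj : ((cor D X Y).filter (fun c => t1 ≤ c.1 ∧ t2 ≤ c.2)).card = j + 1)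
    (hgap : ∀ a b a' b', (a, b) ∈ cor D X Y → (a', b') ∈ cor D X Y → t1 ≤ a → t2 ≤ b' →
      a < a' → b' < b → (a + t1 < a' ∨ b' + t2 < b)) :
    D t1 (t2 + j) ∨ D (t1 + 1) (t2 + j - 1) := by
  by_contra hcon
  push Not at hcon
  obtain ⟨hn1, hn2⟩ := hcon
  have m0 : D (t1 - 1) (t2 + j) := top_mem down hj
  have m1 : D t1 (t2 + j - 1) := by
    have := near_mem down hX hY hj (h := 0) (w := j - 1) (by omega)
    have e : t2 + (j - 1) = t2 + j - 1 := by omega
    rwa [e, Nat.add_zero] at this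
  have m2 : D (t1 + 1) (t2 + j - 1 - 1) := by
    rcases Nat.lt_or_ge 1 j with h | h
    · have := near_mem down hX hY hj (h := 1) (w := j - 2) (by omega)
      have e : t2 + (j - 2) = t2 + j - 1 - 1 := by omega
      rwa [e] at this
    · have := right_mem down hj
      exact down this (by omega) (by omega)
  have c1 : (t1, t2 + j) ∈ cor D X Y := by
    rw [mem_cor]
    refine ⟨⟨(hX _).1 (down m1 le_rfl (Nat.zero_le _)), (hY _).1 (down m0 (Nat.zero_le _) le_rfl)⟩,
      ht1, by show 1 ≤ t2 + j; omega, hn1, m0, m1⟩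
  have c2 : (t1 + 1, t2 + j - 1) ∈ cor D X Y := by
    rw [mem_cor]
    refine ⟨⟨(hX _).1 (down m2 le_rfl (Nat.zero_le _)), (hY _).1 (down m1 (Nat.zero_le _) le_rfl)⟩,
      by show 1 ≤ t1 + 1; omega, by show 1 ≤ t2 + j - 1; omega, hn2, ?_, m2⟩
    show D (t1 + 1 - 1) (t2 + j - 1)
    rwa [Nat.add_sub_cancel]
  have := hgap _ _ _ _ c1 c2 le_rfl (by omega) (by omega) (by omega)
  omega

theorem planarj (down : ∀ {x y x' y' : ℕ}, D x y → x' ≤ x → y' ≤ y → D x' y')
    (hX : ∀ x, D x 0 ↔ x < X) (hY : ∀ y, D 0 y ↔ y < Y) {t1 t2 j : ℕ}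
    (ht1 : 1 ≤ t1) (ht2 : 1 ≤ t2) (hj1 : 1 ≤ j)
    (hT : D t1 t2)
    (hj : ((cor D X Y).filter (fun c => t1 ≤ c.1 ∧ t2 ≤ c.2)).card = j + 1)
    (hgap : ∀ a b a' b', (a, b) ∈ cor D X Y → (a', b') ∈ cor D X Y → t1 ≤ a → t2 ≤ b' →
      a < a' → b' < b → (a + t1 < a' ∨ b' + t2 < b))
    (W : Finset (ℕ × ℕ)) (hW : ∀ x y, 1 ≤ x → 1 ≤ y → D x y → (x, y) ∈ W) :
    2 * (t1 * t2) +
      ((cor D X Y).filter (fun c => c.1 < t1)).card *
        (((cor D X Y).filter (fun c => c.1 < t1)).card - 1) +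
      ((cor D X Y).filter (fun c => c.2 < t2)).card *
        (((cor D X Y).filter (fun c => c.2 < t2)).card - 1) +
      2 * ((t1 - 1) * j) + 2 * (j * (t2 - 1)) + (j + 1) * j ≤ 2 * W.card := by
  have hu := u_le (X := X) (Y := Y) down t1
  have hv := v_le (X := X) (Y := Y) down t2
  have m0 : D (t1 - 1) (t2 + j) := top_mem down hj
  have m0' : D (t1 + j) (t2 - 1) := right_mem down hj
  have hL := fun c => tri_left (c := c) down hX hY (t1 := t1) (s := t2 + j) m0
  have hR := fun c => tri_right (c := c) down hX hY (t2 := t2) (s := t1 + j) m0'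
  obtain ⟨e, he1, he2, he3, heD⟩ : ∃ e : ℕ × ℕ, t1 ≤ e.1 ∧ t2 ≤ e.2 ∧ e.1 + e.2 = t1 + t2 + j ∧
      D e.1 e.2 := by
    rcases extra down hX hY ht1 ht2 hj1 hj hgap with h | h
    · exact ⟨(t1, t2 + j), le_rfl, by show t2 ≤ t2 + j; omega, by show t1 + (t2 + j) = _; omega, h⟩
    · exact ⟨(t1 + 1, t2 + j - 1), by show t1 ≤ t1 + 1; omega,
        by show t2 ≤ t2 + j - 1; omega, by show t1 + 1 + (t2 + j - 1) = _; omega, h⟩
  have hnear : ∀ c ∈ tri (j + 1) (t1 - 1) (t2 - 1), D c.1 c.2 := by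
    intro c hc
    have hm := mem_tri hc
    obtain ⟨h, hh⟩ : ∃ h, c.1 = t1 + h := ⟨c.1 - t1, by omega⟩
    obtain ⟨w, hw⟩ : ∃ w, c.2 = t2 + w := ⟨c.2 - t2, by omega⟩
    rw [hh, hw]
    exact near_mem down hX hY hj (by omega)
  generalize ((cor D X Y).filter (fun c => c.1 < t1)).card = u at hu hL ⊢
  generalize ((cor D X Y).filter (fun c => c.2 < t2)).card = v at hv hR ⊢
  have hsub : (Icc 1 t1 ×ˢ Icc 1 t2) ∪ ((Icc 1 (t1 - 1) ×ˢ Icc (t2 + 1) (t2 + j)) ∪
      ((Icc (t1 + 1) (t1 + j) ×ˢ Icc 1 (t2 - 1)) ∪ (tri u 0 (t2 + j) ∪ (tri v (t1 + j) 0 ∪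
      ((tri (j + 1) (t1 - 1) (t2 - 1)).erase (t1, t2) ∪ {e}))))) ⊆ W := by
    intro c hc
    simp only [mem_union] at hc
    rcases hc with hc | hc | hc | hc | hc | hc | hc
    · rw [mem_product, mem_Icc, mem_Icc] at hc
      exact hW _ _ hc.1.1 hc.2.1 (down hT hc.1.2 hc.2.2)
    · rw [mem_product, mem_Icc, mem_Icc] at hc
      exact hW _ _ hc.1.1 (by omega) (down m0 hc.1.2 hc.2.2)
    · rw [mem_product, mem_Icc, mem_Icc] at hc
      exact hW _ _ (by omega) hc.2.1 (down m0' hc.1.2 hc.2.2)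
    · have := mem_tri hc
      exact hW _ _ (by omega) (by omega) (hL c hc)
    · have := mem_tri hc
      exact hW _ _ (by omega) (by omega) (hR c hc)
    · have hc' := mem_of_mem_erase hc
      have := mem_tri hc'
      exact hW _ _ (by omega) (by omega) (hnear c hc')
    · rw [mem_singleton] at hc
      subst hc
      exact hW _ _ (by omega) (by omega) heD
  have hcard := card_le_card hsub
  rw [card_union_of_disjoint, card_union_of_disjoint, card_union_of_disjoint,
    card_union_of_disjoint, card_union_of_disjoint, card_union_of_disjoint,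
    card_product, card_product, card_product] at hcard
  · simp only [Nat.card_Icc, card_singleton] at hcard
    have h1 := card_tri u 0 (t2 + j)
    have h2 := card_tri v (t1 + j) 0
    have h3 := card_tri (j + 1) (t1 - 1) (t2 - 1)
    have h4 : (tri (j + 1) (t1 - 1) (t2 - 1)).card ≤
        ((tri (j + 1) (t1 - 1) (t2 - 1)).erase (t1, t2)).card + 1 := by
      have := Finset.pred_card_le_card_erase (s := tri (j + 1) (t1 - 1) (t2 - 1)) (a := (t1, t2))
      omega
    have e1 : t1 + 1 - 1 = t1 := by omega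
    have e2 : t2 + 1 - 1 = t2 := by omega
    have e3 : t1 - 1 + 1 - 1 = t1 - 1 := by omega
    have e4 : t2 + j + 1 - (t2 + 1) = j := by omega
    have e5 : t1 + j + 1 - (t1 + 1) = j := by omega
    have e6 : t2 - 1 + 1 - 1 = t2 - 1 := by omega
    have e7 : j + 1 - 1 = j := by omega
    rw [e1, e2, e3, e4, e5, e6] at hcard
    rw [e7] at h3
    omega
  · rw [disjoint_left]
    intro c hc hc'
    rw [mem_singleton] at hc'
    subst hc'
    have := mem_tri (mem_of_mem_erase hc)
    omega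
  · rw [disjoint_left]
    intro c hc hc'
    simp only [mem_union] at hc'
    have h1 := mem_tri hc
    rcases hc' with hc' | hc'
    · have h2 := mem_tri (mem_of_mem_erase hc'); omega
    · rw [mem_singleton] at hc'
      subst hc'; omega
  · rw [disjoint_left]
    intro c hc hc'
    simp only [mem_union] at hc'
    have h1 := mem_tri hc
    rcases hc' with hc' | hc' | hc'
    · have h2 := mem_tri hc'; omega
    · have h2 := mem_tri (mem_of_mem_erase hc'); omega
    · rw [mem_singleton] at hc'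
      subst hc'; omega
  · rw [disjoint_left]
    intro c hc hc'
    simp only [mem_union] at hc'
    rw [mem_product, mem_Icc, mem_Icc] at hc
    rcases hc' with hc' | hc' | hc' | hc'
    · have h2 := mem_tri hc'; omega
    · have h2 := mem_tri hc'; omega
    · have h2 := mem_tri (mem_of_mem_erase hc'); omega
    · rw [mem_singleton] at hc'
      subst hc'; omega
  · rw [disjoint_left]
    intro c hc hc'
    simp only [mem_union] at hc'
    rw [mem_product, mem_Icc, mem_Icc] at hc
    rcases hc' with hc' | hc' | hc' | hc' | hc'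
    · rw [mem_product, mem_Icc, mem_Icc] at hc'; omega
    · have h2 := mem_tri hc'; omega
    · have h2 := mem_tri hc'; omega
    · have h2 := mem_tri (mem_of_mem_erase hc'); omega
    · rw [mem_singleton] at hc'
      subst hc'; omega
  · rw [disjoint_left]
    intro c hc hc'
    simp only [mem_union] at hc'
    rw [mem_product, mem_Icc, mem_Icc] at hc
    rcases hc' with hc' | hc' | hc' | hc' | hc' | hc'
    · rw [mem_product, mem_Icc, mem_Icc] at hc'; omega
    · rw [mem_product, mem_Icc, mem_Icc] at hc'; omega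
    · have h2 := mem_tri hc'; omega
    · have h2 := mem_tri hc'; omega
    · have h2 := mem_tri (mem_of_mem_erase hc')
      rw [mem_erase] at hc'
      have h3 : c ≠ (t1, t2) := hc'.1
      apply h3
      apply Prod.ext
      · show c.1 = t1; omega
      · show c.2 = t2; omega
    · rw [mem_singleton] at hc'
      subst hc'; omega

end planar

end Pool.Agent.Helper1.NSV
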