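import Pool.Agent.Helper1.NSPlanar2

set_option autoImplicit false

namespace Pool.Agent.Helper1.NSV

open Finset Classical Pool.Agent.Helper13.NS

/-! ### arithmetic -/

theorem final_arith (n1 n2 n3 u1 u2 u3 v1 v2 v3 j X m : ℤ)
    (hn1 : 0 ≤ n1) (hn2 : 0 ≤ n2) (hn3 : 0 ≤ n3) (hj : 0 ≤ j)
    (h3 : 0 ≤ u3) (h3' : u3 ≤ n1) (h2 : 0 ≤ u2) (h2' : u2 ≤ n1)
    (k3 : 0 ≤ v3) (k3' : v3 ≤ n2) (h1 : 0 ≤ u1) (h1' : u1 ≤ n2)
    (k2 : 0 ≤ v2) (k2' : v2 ≤ n3) (k1 : 0 ≤ v1) (k1' : v1 ≤ n3)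
    (hm : m ≤ 3 + j) (hm' : j ≤ m)
    (hX : 2 * j * (v2 + v1) ≤ 9 + 6 * (2 * n3 - v2 - v1) + j ^ 2 - 2 * j + 4 * X
      + (v2 - v1) ^ 2) :
    (2 + (u1 + u2 + u3 + v1 + v2 + v3) + m) ^ 2 ≤
      6 * (2 + (u1 + u2 + u3 + v1 + v2 + v3) + m) - 8 +
      4 * ((n1 + 1) * (n2 + 1) + (n1 + 1) * (n3 + 1) + (n2 + 1) * (n3 + 1) +
        ((n1 + 1) * (n2 + 1) * (n3 + 1) - 1 + X)) +
      2 * (u1 * (u1 - 1) + u2 * (u2 - 1) + u3 * (u3 - 1) +
        v1 * (v1 - 1) + v2 * (v2 - 1) + v3 * (v3 - 1)) + 4 * (j * (n1 + n2)) + 2 * (j * (j + 1)) := by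
  obtain ⟨a1, ha1⟩ : ∃ a, a = n1 - u3 := ⟨_, rfl⟩
  obtain ⟨b1, hb1⟩ : ∃ a, a = n1 - u2 := ⟨_, rfl⟩
  obtain ⟨a2, ha2⟩ : ∃ a, a = n2 - v3 := ⟨_, rfl⟩
  obtain ⟨b2, hb2⟩ : ∃ a, a = n2 - u1 := ⟨_, rfl⟩
  obtain ⟨a3, ha3⟩ : ∃ a, a = n3 - v2 := ⟨_, rfl⟩
  obtain ⟨b3, hb3⟩ : ∃ a, a = n3 - v1 := ⟨_, rfl⟩
  obtain ⟨μ, hμ⟩ : ∃ a, a = 3 + j - m := ⟨_, rfl⟩
  have e1 : u3 = n1 - a1 := by linarith
  have e2 : u2 = n1 - b1 := by linarith
  have e3 : v3 = n2 - a2 := by linarith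
  have e4 : u1 = n2 - b2 := by linarith
  have e5 : v2 = n3 - a3 := by linarith
  have e6 : v1 = n3 - b3 := by linarith
  have e7 : m = 3 + j - μ := by linarith
  subst e1 e2 e3 e4 e5 e6 e7
  have p1 : 0 ≤ a1 := by linarith
  have p2 : 0 ≤ b1 := by linarith
  have p3 : 0 ≤ a2 := by linarith
  have p4 : 0 ≤ b2 := by linarith
  have p5 : 0 ≤ a3 := by linarith
  have p6 : 0 ≤ b3 := by linarith
  have p7 : 0 ≤ μ := by linarith
  have p8 : μ ≤ 3 := by linarith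
  have q1 : (a1 + b1) * (a2 + b2) ≤ (a1 + b1) * n2 + (a2 + b2) * n1 := by
    nlinarith [mul_nonneg (show 0 ≤ a1 + b1 by linarith) (show 0 ≤ 2 * n2 - (a2 + b2) by linarith),
      mul_nonneg (show 0 ≤ a2 + b2 by linarith) (show 0 ≤ 2 * n1 - (a1 + b1) by linarith)]
  have q2 : (a1 + b1) * (a3 + b3) ≤ (a1 + b1) * n3 + (a3 + b3) * n1 := by
    nlinarith [mul_nonneg (show 0 ≤ a1 + b1 by linarith) (show 0 ≤ 2 * n3 - (a3 + b3) by linarith),
      mul_nonneg (show 0 ≤ a3 + b3 by linarith) (show 0 ≤ 2 * n1 - (a1 + b1) by linarith)]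
  have q3 : (a2 + b2) * (a3 + b3) ≤ (a2 + b2) * n3 + (a3 + b3) * n2 := by
    nlinarith [mul_nonneg (show 0 ≤ a2 + b2 by linarith) (show 0 ≤ 2 * n3 - (a3 + b3) by linarith),
      mul_nonneg (show 0 ≤ a3 + b3 by linarith) (show 0 ≤ 2 * n2 - (a2 + b2) by linarith)]
  have r1 : 0 ≤ (a1 + b1) * (a2 + b2) := mul_nonneg (by linarith) (by linarith)
  have r2 : 0 ≤ (a1 + b1) * (a3 + b3) := mul_nonneg (by linarith) (by linarith)
  have r3 : 0 ≤ (a2 + b2) * (a3 + b3) := mul_nonneg (by linarith) (by linarith)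
  have s1 : 0 ≤ μ * (4 * (n1 + n2 + n3 + 1) - μ - 2 * (a1 + b1 + a2 + b2 + a3 + b3)) :=
    mul_nonneg p7 (by linarith)
  have s2 : 0 ≤ (a1 + b1 + a2 + b2) * j := mul_nonneg (by linarith) hj
  have s3 : 0 ≤ μ * j := mul_nonneg p7 hj
  have s4 : 0 ≤ n1 * n2 * n3 := mul_nonneg (mul_nonneg hn1 hn2) hn3
  have s5 := sq_nonneg (a1 - b1)
  have s6 := sq_nonneg (a2 - b2)
  linarith [q1, q2, q3, r1, r2, r3, s1, s2, s3, s4, s5, s6, hX]

/-- `f(a) = ∑_{k<a} min k (j-1)` -/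
def ff (j a : ℕ) : ℕ := ∑ k ∈ range a, min k (j - 1)

theorem ff_small (j a : ℕ) (h : a ≤ j) : ff j a * 2 = a * (a - 1) := by
  unfold ff
  rw [← Finset.sum_range_id_mul_two]
  congr 1
  apply Finset.sum_congr rfl
  intro k hk
  rw [mem_range] at hk
  omega

theorem ff_large (j a : ℕ) (hj : 1 ≤ j) (h : j ≤ a) :
    ff j a * 2 + j * (j - 1) = 2 * ((j - 1) * a) := by
  induction a, h using Nat.le_induction with
  | base =>
    rw [ff_small j j le_rfl]
    ring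
  | succ a ha ih =>
    have h1 : ff j (a + 1) = ff j a + (j - 1) := by
      unfold ff
      rw [Finset.sum_range_succ]
      congr 1
      omega
    rw [h1]
    have e : (j - 1) * (a + 1) = (j - 1) * a + (j - 1) := by ring
    rw [e]
    omega

theorem ff_bound (j a n : ℕ) (hj : 2 ≤ j) (ha : a ≤ n) (hn : j ≤ n) :
    4 * ((j : ℤ) * a) ≤ 8 * (ff j a : ℤ) + 12 * ((n : ℤ) - a) + 9 + (j : ℤ) ^ 2 - 2 * j := by
  obtain ⟨j', rfl⟩ : ∃ j', j = j' + 2 := ⟨j - 2, by omega⟩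
  rcases Nat.lt_or_ge a (j' + 2) with h | h
  · have h1 := ff_small (j' + 2) a h.le
    have h2 : (ff (j' + 2) a : ℤ) * 2 = (a : ℤ) * (a - 1) := by
      rcases Nat.eq_zero_or_pos a with h0 | h0
      · subst h0; simp [ff]
      · have h1' : ((ff (j' + 2) a * 2 : ℕ) : ℤ) = ((a * (a - 1) : ℕ) : ℤ) := by rw [h1]
        push_cast [Nat.cast_sub h0] at h1'
        linarith
    have h3 : ((j' : ℤ) + 2) ≤ n := by exact_mod_cast hn
    have h4 : (a : ℤ) ≤ j' + 1 := by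
      have : a ≤ j' + 1 := by omega
      exact_mod_cast this
    have hj0 : (0 : ℤ) ≤ j' := by positivity
    push_cast
    have key : 0 ≤ (2 * (a : ℤ) - (j' + 2) - 4) ^ 2 + 2 * (j' + 2) - 7 := by
      rcases Nat.lt_or_ge j' 2 with h5 | h5
      · interval_cases j'
        · have : a ≤ 1 := by omega
          interval_cases a <;> norm_num
        · have : a ≤ 2 := by omega
          interval_cases a <;> norm_num
      · have : (2 : ℤ) ≤ j' := by exact_mod_cast h5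
        nlinarith [sq_nonneg (2 * (a : ℤ) - (j' + 2) - 4)]
    nlinarith [key, h2, h3, h4]
  · have h1 := ff_large (j' + 2) a (by omega) h
    have h2 : (ff (j' + 2) a : ℤ) * 2 + (j' + 2) * (j' + 1) = 2 * (((j' : ℤ) + 1) * a) := by
      have e : j' + 2 - 1 = j' + 1 := by omega
      rw [e] at h1
      exact_mod_cast h1
    have h3 : ((j' : ℤ) + 2) ≤ a := by exact_mod_cast h
    have h4 : (a : ℤ) ≤ n := by exact_mod_cast ha
    have hj0 : (0 : ℤ) ≤ j' := by positivity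
    push_cast
    nlinarith [h2, mul_nonneg hj0 (show (0 : ℤ) ≤ a - (j' + 2) by linarith),
      sq_nonneg ((j' : ℤ) - 1)]

/-! ### interior points -/

section interior

variable {S : ℕ → ℕ → ℕ → Prop} {C1 C2 C3 t1 t2 t3 : ℕ}

theorem box_card : ((Icc 1 t1 ×ˢ Icc 1 t2 ×ˢ Icc 1 t3).erase (t1, t2, t3)).card + 1 ≥
    t1 * t2 * t3 := by
  have := Finset.pred_card_le_card_erase (s := Icc 1 t1 ×ˢ Icc 1 t2 ×ˢ Icc 1 t3)
    (a := (t1, t2, t3))
  rw [card_product, card_product, Nat.card_Icc, Nat.card_Icc, Nat.card_Icc] at this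
  simp only [Nat.add_sub_cancel] at this
  rw [← mul_assoc] at this
  omega

theorem box_mem (down : ∀ {x y z x' y' z' : ℕ}, S x y z → x' ≤ x → y' ≤ y → z' ≤ z → S x' y' z')
    (hT1 : S (t1 - 1) t2 t3) (hT2 : S t1 (t2 - 1) t3) (hT3 : S t1 t2 (t3 - 1))
    {c : ℕ × ℕ × ℕ} (hc : c ∈ (Icc 1 t1 ×ˢ Icc 1 t2 ×ˢ Icc 1 t3).erase (t1, t2, t3)) :
    (1 ≤ c.1 ∧ c.1 ≤ t1) ∧ (1 ≤ c.2.1 ∧ c.2.1 ≤ t2) ∧ (1 ≤ c.2.2 ∧ c.2.2 ≤ t3) ∧
      S c.1 c.2.1 c.2.2 := by
  obtain ⟨x, y, z⟩ := c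
  rw [mem_erase, mem_product, mem_product, mem_Icc, mem_Icc, mem_Icc] at hc
  obtain ⟨h0, h1, h2, h3⟩ := hc
  simp only [ne_eq, Prod.mk.injEq] at h0 h1 h2 h3 ⊢
  refine ⟨h1, h2, h3, ?_⟩
  rcases Nat.lt_or_ge x t1 with hx | hx
  · exact down hT1 (by omega) h2.2 h3.2
  · rcases Nat.lt_or_ge y t2 with hy | hy
    · exact down hT2 h1.2 (by omega) h3.2
    · rcases Nat.lt_or_ge z t3 with hz | hz
      · exact down hT3 h1.2 h2.2 (by omega)
      · exact absurd ⟨by omega, by omega, by omega⟩ h0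

theorem interior0
    (down : ∀ {x y z x' y' z' : ℕ}, S x y z → x' ≤ x → y' ≤ y → z' ≤ z → S x' y' z')
    (hT1 : S (t1 - 1) t2 t3) (hT2 : S t1 (t2 - 1) t3) (hT3 : S t1 t2 (t3 - 1))
    (V : Finset (ℕ × ℕ × ℕ))
    (hV : ∀ x y z, 1 ≤ x → 1 ≤ y → 1 ≤ z → S x y z → (x, y, z) ∈ V) :
    t1 * t2 * t3 ≤ V.card + 1 := by
  have hsub : (Icc 1 t1 ×ˢ Icc 1 t2 ×ˢ Icc 1 t3).erase (t1, t2, t3) ⊆ V := by
    intro c hc
    have h := box_mem down hT1 hT2 hT3 hc
    exact hV _ _ _ h.1.1 h.2.1.1 h.2.2.1.1 h.2.2.2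
  have h1 := card_le_card hsub
  have h2 := box_card (t1 := t1) (t2 := t2) (t3 := t3)
  omega

/-- points `(t1 + i, 0, z)` (used for both planes) -/
theorem arm_mem {D : ℕ → ℕ → Prop} {X Y : ℕ}
    (down : ∀ {x y x' y' : ℕ}, D x y → x' ≤ x → y' ≤ y → D x' y')
    (hX : ∀ x, D x 0 ↔ x < X) (hY : ∀ y, D 0 y ↔ y < Y) {t1 t3 : ℕ} (hT : D t1 t3)
    {i z : ℕ} (hi : 1 ≤ i) (hz : 1 ≤ z)
    (h : i + z ≤ ((cor D X Y).filter (fun c => c.2 < t3)).card) : D (t1 + i) z := by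
  by_contra hD
  have := card_le_of_not down hX hY (filter_subset (fun c => c.2 < t3) (cor D X Y))
    (L1 := t1 + 1) (L2 := 1)
    (by
      intro c hc
      rw [mem_filter] at hc
      exact side_lt' down hT hc.1 hc.2)
    (by
      intro c hc
      rw [mem_filter, mem_cor] at hc
      omega) hD
  omega

/-- the two families of arms -/
def arm1 (t1 t2 v j : ℕ) : Finset (ℕ × ℕ × ℕ) :=
  ((range v).sigma (fun k => range (min k (j - 1)))).image
    (fun s => (t1 + s.2 + 1, t2, v - s.1))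
def arm2 (t1 t2 v j : ℕ) : Finset (ℕ × ℕ × ℕ) :=
  ((range v).sigma (fun k => range (min k (j - 1)))).image
    (fun s => (t1, t2 + s.2 + 1, v - s.1))

theorem card_arm1 (t1 t2 v j : ℕ) : (arm1 t1 t2 v j).card = ff j v := by
  unfold arm1 ff
  rw [Finset.card_image_of_injOn, Finset.card_sigma]
  · simp only [Finset.card_range]
  · rintro ⟨i, l⟩ h ⟨i', l'⟩ h' e
    simp only [Finset.coe_sigma, Set.mem_sigma_iff, Finset.coe_range, Set.mem_Iio] at h h'
    simp only [Prod.mk.injEq] at e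
    have h1 : i = i' := by omega
    have h2 : l = l' := by omega
    subst h1; subst h2; rfl

theorem card_arm2 (t1 t2 v j : ℕ) : (arm2 t1 t2 v j).card = ff j v := by
  unfold arm2 ff
  rw [Finset.card_image_of_injOn, Finset.card_sigma]
  · simp only [Finset.card_range]
  · rintro ⟨i, l⟩ h ⟨i', l'⟩ h' e
    simp only [Finset.coe_sigma, Set.mem_sigma_iff, Finset.coe_range, Set.mem_Iio] at h h'
    simp only [Prod.mk.injEq] at e
    have h1 : i = i' := by omega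
    have h2 : l = l' := by omega
    subst h1; subst h2; rfl

theorem mem_arm1 {t1 t2 v j : ℕ} {c : ℕ × ℕ × ℕ} (h : c ∈ arm1 t1 t2 v j) :
    ∃ i, 1 ≤ i ∧ i ≤ j - 1 ∧ c.1 = t1 + i ∧ c.2.1 = t2 ∧ 1 ≤ c.2.2 ∧ i + c.2.2 ≤ v := by
  unfold arm1 at h
  simp only [mem_image, mem_sigma, mem_range] at h
  obtain ⟨⟨i, l⟩, ⟨h1, h2⟩, rfl⟩ := h
  simp only at h1 h2 ⊢
  exact ⟨l + 1, by omega, by omega, by omega, trivial, by omega, by omega⟩

theorem mem_arm2 {t1 t2 v j : ℕ} {c : ℕ × ℕ × ℕ} (h : c ∈ arm2 t1 t2 v j) :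
    ∃ i, 1 ≤ i ∧ i ≤ j - 1 ∧ c.1 = t1 ∧ c.2.1 = t2 + i ∧ 1 ≤ c.2.2 ∧ i + c.2.2 ≤ v := by
  unfold arm2 at h
  simp only [mem_image, mem_sigma, mem_range] at h
  obtain ⟨⟨i, l⟩, ⟨h1, h2⟩, rfl⟩ := h
  simp only at h1 h2 ⊢
  exact ⟨l + 1, by omega, by omega, trivial, by omega, by omega, by omega⟩

theorem interiorj
    (down : ∀ {x y z x' y' z' : ℕ}, S x y z → x' ≤ x → y' ≤ y → z' ≤ z → S x' y' z')
    (hC1 : ∀ x, S x 0 0 ↔ x < C1) (hC2 : ∀ y, S 0 y 0 ↔ y < C2)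
    (hC3 : ∀ z, S 0 0 z ↔ z < C3)
    (ht1 : 1 ≤ t1) (ht2 : 1 ≤ t2)
    (hT1 : S (t1 - 1) t2 t3) (hT2 : S t1 (t2 - 1) t3) (hT3 : S t1 t2 (t3 - 1))
    (hfull : ∀ x y z, S x y 0 → S x 0 z → S 0 y z → ¬ (t1 ≤ x ∧ t2 ≤ y ∧ t3 ≤ z) → S x y z)
    {j : ℕ} (hj : ((cor (fun x y => S x y 0) C1 C2).filter
      (fun c => t1 ≤ c.1 ∧ t2 ≤ c.2)).card = j + 1)
    (V : Finset (ℕ × ℕ × ℕ))
    (hV : ∀ x y z, 1 ≤ x → 1 ≤ y → 1 ≤ z → S x y z → (x, y, z) ∈ V) :
    t1 * t2 * t3 + ff j ((cor (fun x z => S x 0 z) C1 C3).filter (fun c => c.2 < t3)).card +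
      ff j ((cor (fun y z => S 0 y z) C2 C3).filter (fun c => c.2 < t3)).card ≤ V.card + 1 := by
  have dP : ∀ {x y x' y' : ℕ}, S x y 0 → x' ≤ x → y' ≤ y → S x' y' 0 :=
    fun h h1 h2 => down h h1 h2 le_rfl
  have dQ : ∀ {x y x' y' : ℕ}, S x 0 y → x' ≤ x → y' ≤ y → S x' 0 y' :=
    fun h h1 h2 => down h h1 le_rfl h2
  have dR : ∀ {x y x' y' : ℕ}, S 0 x y → x' ≤ x → y' ≤ y → S 0 x' y' :=
    fun h h1 h2 => down h le_rfl h1 h2
  have hQ : ∀ i z, 1 ≤ i → 1 ≤ z →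
      i + z ≤ ((cor (fun x z => S x 0 z) C1 C3).filter (fun c => c.2 < t3)).card →
      S (t1 + i) 0 z := fun i z hi hz h =>
    arm_mem (D := fun x z => S x 0 z) dQ hC1 hC3 (t1 := t1) (t3 := t3)
      (down hT2 le_rfl (Nat.zero_le _) le_rfl) hi hz h
  have hR : ∀ i z, 1 ≤ i → 1 ≤ z →
      i + z ≤ ((cor (fun y z => S 0 y z) C2 C3).filter (fun c => c.2 < t3)).card →
      S 0 (t2 + i) z := fun i z hi hz h =>
    arm_mem (D := fun y z => S 0 y z) dR hC2 hC3 (t1 := t2) (t3 := t3)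
      (down hT1 (Nat.zero_le _) le_rfl le_rfl) hi hz h
  have hvQ := v_le (D := fun x z => S x 0 z) (X := C1) (Y := C3) dQ t3
  have hvR := v_le (D := fun y z => S 0 y z) (X := C2) (Y := C3) dR t3
  have hP : ∀ h w, h + w < j → S (t1 + h) (t2 + w) 0 := fun h w hhw =>
    near_mem (D := fun x y => S x y 0) dP hC1 hC2 hj hhw
  generalize ((cor (fun x z => S x 0 z) C1 C3).filter (fun c => c.2 < t3)).card = v2 at hQ hvQ ⊢
  generalize ((cor (fun y z => S 0 y z) C2 C3).filter (fun c => c.2 < t3)).card = v1 at hR hvR ⊢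
  have hsub : (Icc 1 t1 ×ˢ Icc 1 t2 ×ˢ Icc 1 t3).erase (t1, t2, t3) ∪
      (arm1 t1 t2 v2 j ∪ arm2 t1 t2 v1 j) ⊆ V := by
    intro c hc
    rw [mem_union, mem_union] at hc
    rcases hc with hc | hc | hc
    · have h := box_mem down hT1 hT2 hT3 hc
      exact hV _ _ _ h.1.1 h.2.1.1 h.2.2.1.1 h.2.2.2
    · obtain ⟨i, h1, h2, h3, h4, h5, h6⟩ := mem_arm1 hc
      obtain ⟨x, y, z⟩ := c
      simp only at h3 h4 h5 h6
      subst h3 h4
      refine hV _ _ _ (by omega) (by omega) h5 ?_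
      apply hfull
      · have := hP i 0 (by omega)
        rwa [Nat.add_zero] at this
      · exact hQ _ _ h1 h5 h6
      · exact down hT3 (Nat.zero_le _) le_rfl (by omega)
      · omega
    · obtain ⟨i, h1, h2, h3, h4, h5, h6⟩ := mem_arm2 hc
      obtain ⟨x, y, z⟩ := c
      simp only at h3 h4 h5 h6
      subst h3 h4
      refine hV _ _ _ (by omega) (by omega) h5 ?_
      apply hfull
      · have := hP 0 i (by omega)
        rwa [Nat.add_zero] at this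
      · exact down hT3 le_rfl (Nat.zero_le _) (by omega)
      · exact hR _ _ h1 h5 h6
      · omega
  have hcard := card_le_card hsub
  rw [card_union_of_disjoint, card_union_of_disjoint, card_arm1, card_arm2] at hcard
  · have h2 := box_card (t1 := t1) (t2 := t2) (t3 := t3)
    omega
  · rw [disjoint_left]
    intro c hc hc'
    obtain ⟨i, h1, h2, h3, h4, h5, h6⟩ := mem_arm1 hc
    obtain ⟨i', h1', h2', h3', h4', h5', h6'⟩ := mem_arm2 hc'
    omega
  · rw [disjoint_left]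
    intro c hc hc'
    have h := box_mem down hT1 hT2 hT3 hc
    rw [mem_union] at hc'
    rcases hc' with hc' | hc'
    · obtain ⟨i, h1, h2, h3, h4, h5, h6⟩ := mem_arm1 hc'
      omega
    · obtain ⟨i, h1, h2, h3, h4, h5, h6⟩ := mem_arm2 hc'
      omega

theorem interior1
    (down : ∀ {x y z x' y' z' : ℕ}, S x y z → x' ≤ x → y' ≤ y → z' ≤ z → S x' y' z')
    (hC1 : ∀ x, S x 0 0 ↔ x < C1) (hC2 : ∀ y, S 0 y 0 ↔ y < C2)
    (hC3 : ∀ z, S 0 0 z ↔ z < C3)
    (ht1 : 1 ≤ t1) (ht2 : 1 ≤ t2)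
    (hT1 : S (t1 - 1) t2 t3) (hT2 : S t1 (t2 - 1) t3) (hT3 : S t1 t2 (t3 - 1))
    (hfull : ∀ x y z, S x y 0 → S x 0 z → S 0 y z → ¬ (t1 ≤ x ∧ t2 ≤ y ∧ t3 ≤ z) → S x y z)
    (hex : S t1 (t2 + 1) 0 ∨ S (t1 + 1) t2 0)
    (V : Finset (ℕ × ℕ × ℕ))
    (hV : ∀ x y z, 1 ≤ x → 1 ≤ y → 1 ≤ z → S x y z → (x, y, z) ∈ V) :
    t1 * t2 * t3 + (min ((cor (fun x z => S x 0 z) C1 C3).filter (fun c => c.2 < t3)).card
      ((cor (fun y z => S 0 y z) C2 C3).filter (fun c => c.2 < t3)).card - 1) ≤ V.card + 1 := by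
  have dQ : ∀ {x y x' y' : ℕ}, S x 0 y → x' ≤ x → y' ≤ y → S x' 0 y' :=
    fun h h1 h2 => down h h1 le_rfl h2
  have dR : ∀ {x y x' y' : ℕ}, S 0 x y → x' ≤ x → y' ≤ y → S 0 x' y' :=
    fun h h1 h2 => down h le_rfl h1 h2
  have hQ : ∀ i z, 1 ≤ i → 1 ≤ z →
      i + z ≤ ((cor (fun x z => S x 0 z) C1 C3).filter (fun c => c.2 < t3)).card →
      S (t1 + i) 0 z := fun i z hi hz h =>
    arm_mem (D := fun x z => S x 0 z) dQ hC1 hC3 (t1 := t1) (t3 := t3)
      (down hT2 le_rfl (Nat.zero_le _) le_rfl) hi hz h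
  have hR : ∀ i z, 1 ≤ i → 1 ≤ z →
      i + z ≤ ((cor (fun y z => S 0 y z) C2 C3).filter (fun c => c.2 < t3)).card →
      S 0 (t2 + i) z := fun i z hi hz h =>
    arm_mem (D := fun y z => S 0 y z) dR hC2 hC3 (t1 := t2) (t3 := t3)
      (down hT1 (Nat.zero_le _) le_rfl le_rfl) hi hz h
  have hvQ := v_le (D := fun x z => S x 0 z) (X := C1) (Y := C3) dQ t3
  have hvR := v_le (D := fun y z => S 0 y z) (X := C2) (Y := C3) dR t3
  generalize ((cor (fun x z => S x 0 z) C1 C3).filter (fun c => c.2 < t3)).card = v2 at hQ hvQ ⊢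
  generalize ((cor (fun y z => S 0 y z) C2 C3).filter (fun c => c.2 < t3)).card = v1 at hR hvR ⊢
  have h2 := box_card (t1 := t1) (t2 := t2) (t3 := t3)
  rcases hex with hex | hex
  · have hsub : (Icc 1 t1 ×ˢ Icc 1 t2 ×ˢ Icc 1 t3).erase (t1, t2, t3) ∪
        (Icc 1 (v1 - 1)).image (fun z => (t1, t2 + 1, z)) ⊆ V := by
      intro c hc
      rw [mem_union] at hc
      rcases hc with hc | hc
      · have h := box_mem down hT1 hT2 hT3 hc
        exact hV _ _ _ h.1.1 h.2.1.1 h.2.2.1.1 h.2.2.2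
      · rw [mem_image] at hc
        obtain ⟨z, hz, rfl⟩ := hc
        rw [mem_Icc] at hz
        refine hV _ _ _ (by omega) (by omega) hz.1 ?_
        apply hfull _ _ _ hex
        · exact down hT3 le_rfl (Nat.zero_le _) (by omega)
        · exact hR 1 z le_rfl hz.1 (by omega)
        · omega
    have hcard := card_le_card hsub
    rw [card_union_of_disjoint, card_image_of_injective, Nat.card_Icc] at hcard
    · omega
    · intro a b h
      simpa using h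
    · rw [disjoint_left]
      intro c hc hc'
      have h := box_mem down hT1 hT2 hT3 hc
      rw [mem_image] at hc'
      obtain ⟨z, hz, rfl⟩ := hc'
      simp only at h
      omega
  · have hsub : (Icc 1 t1 ×ˢ Icc 1 t2 ×ˢ Icc 1 t3).erase (t1, t2, t3) ∪
        (Icc 1 (v2 - 1)).image (fun z => (t1 + 1, t2, z)) ⊆ V := by
      intro c hc
      rw [mem_union] at hc
      rcases hc with hc | hc
      · have h := box_mem down hT1 hT2 hT3 hc
        exact hV _ _ _ h.1.1 h.2.1.1 h.2.2.1.1 h.2.2.2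
      · rw [mem_image] at hc
        obtain ⟨z, hz, rfl⟩ := hc
        rw [mem_Icc] at hz
        refine hV _ _ _ (by omega) (by omega) hz.1 ?_
        apply hfull _ _ _ hex
        · exact hQ 1 z le_rfl hz.1 (by omega)
        · exact down hT3 (Nat.zero_le _) le_rfl (by omega)
        · omega
    have hcard := card_le_card hsub
    rw [card_union_of_disjoint, card_image_of_injective, Nat.card_Icc] at hcard
    · omega
    · intro a b h
      simpa using h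
    · rw [disjoint_left]
      intro c hc hc'
      have h := box_mem down hT1 hT2 hT3 hc
      rw [mem_image] at hc'
      obtain ⟨z, hz, rfl⟩ := hc'
      simp only at h
      omega

end interior

/-! ### splitting by support -/

theorem split_support (U : Finset (ℕ × ℕ × ℕ)) (C1 C2 C3 : ℕ) (h1 : 1 ≤ C1)
    (h2 : 1 ≤ C2) (h3 : 1 ≤ C3)
    (hU1 : ∀ x, x < C1 → (x, 0, 0) ∈ U) (hU2 : ∀ y, y < C2 → (0, y, 0) ∈ U)
    (hU3 : ∀ z, z < C3 → (0, 0, z) ∈ U) :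
    ∃ (W3 W2 W1 : Finset (ℕ × ℕ)) (V : Finset (ℕ × ℕ × ℕ)),
      (∀ x y, 1 ≤ x → 1 ≤ y → (x, y, 0) ∈ U → (x, y) ∈ W3) ∧
      (∀ x z, 1 ≤ x → 1 ≤ z → (x, 0, z) ∈ U → (x, z) ∈ W2) ∧
      (∀ y z, 1 ≤ y → 1 ≤ z → (0, y, z) ∈ U → (y, z) ∈ W1) ∧
      (∀ x y z, 1 ≤ x → 1 ≤ y → 1 ≤ z → (x, y, z) ∈ U → (x, y, z) ∈ V) ∧
      C1 + C2 + C3 + W3.card + W2.card + W1.card + V.card ≤ U.card + 2 := by
  let f : ℕ × ℕ × ℕ → Bool × Bool × Bool :=
    fun u => (decide (u.1 = 0), decide (u.2.1 = 0), decide (u.2.2 = 0))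
  have hsum := Finset.card_eq_sum_card_fiberwise (f := f) (s := U) (t := univ)
    (fun x _ => mem_coe.2 (mem_univ _))
  simp only [Fintype.sum_prod_type, Fintype.sum_bool] at hsum
  refine ⟨(U.filter (fun u => f u = (false, false, true))).image (fun u => (u.1, u.2.1)),
    (U.filter (fun u => f u = (false, true, false))).image (fun u => (u.1, u.2.2)),
    (U.filter (fun u => f u = (true, false, false))).image (fun u => (u.2.1, u.2.2)),
    U.filter (fun u => f u = (false, false, false)), ?_, ?_, ?_, ?_, ?_⟩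
  · intro x y hx hy h
    rw [mem_image]
    refine ⟨(x, y, 0), ?_, rfl⟩
    rw [mem_filter]
    refine ⟨h, ?_⟩
    simp only [f, Prod.mk.injEq, decide_eq_false_iff_not, decide_eq_true_eq, and_true, true_and]
    omega
  · intro x y hx hy h
    rw [mem_image]
    refine ⟨(x, 0, y), ?_, rfl⟩
    rw [mem_filter]
    refine ⟨h, ?_⟩
    simp only [f, Prod.mk.injEq, decide_eq_false_iff_not, decide_eq_true_eq, and_true, true_and]
    omega
  · intro x y hx hy h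
    rw [mem_image]
    refine ⟨(0, x, y), ?_, rfl⟩
    rw [mem_filter]
    refine ⟨h, ?_⟩
    simp only [f, Prod.mk.injEq, decide_eq_false_iff_not, decide_eq_true_eq, and_true, true_and]
    omega
  · intro x y z hx hy hz h
    rw [mem_filter]
    refine ⟨h, ?_⟩
    simp only [f, Prod.mk.injEq, decide_eq_false_iff_not]
    omega
  · have i3 := card_image_le (s := U.filter (fun u => f u = (false, false, true)))
      (f := fun u => (u.1, u.2.1))
    have i2 := card_image_le (s := U.filter (fun u => f u = (false, true, false)))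
      (f := fun u => (u.1, u.2.2))
    have i1 := card_image_le (s := U.filter (fun u => f u = (true, false, false)))
      (f := fun u => (u.2.1, u.2.2))
    have o : 1 ≤ (U.filter (fun u => f u = (true, true, true))).card := by
      rw [Nat.one_le_iff_ne_zero, ← Nat.pos_iff_ne_zero, card_pos]
      refine ⟨(0, 0, 0), ?_⟩
      rw [mem_filter]
      refine ⟨hU1 0 (by omega), ?_⟩
      simp [f]
    have a1 : (Ico 1 C1).card ≤ (U.filter (fun u => f u = (false, true, true))).card := by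
      apply card_le_card_of_injOn (fun x => (x, 0, 0))
      · intro x hx
        rw [mem_coe, mem_Ico] at hx
        rw [mem_coe, mem_filter]
        refine ⟨hU1 x hx.2, ?_⟩
        simp only [f, Prod.mk.injEq, decide_eq_false_iff_not, decide_eq_true_eq, and_true,
          true_and]
        omega
      · intro a _ b _ h
        simpa using h
    have a2 : (Ico 1 C2).card ≤ (U.filter (fun u => f u = (true, false, true))).card := by
      apply card_le_card_of_injOn (fun x => (0, x, 0))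
      · intro x hx
        rw [mem_coe, mem_Ico] at hx
        rw [mem_coe, mem_filter]
        refine ⟨hU2 x hx.2, ?_⟩
        simp only [f, Prod.mk.injEq, decide_eq_false_iff_not, decide_eq_true_eq, and_true,
          true_and]
        omega
      · intro a _ b _ h
        simpa using h
    have a3 : (Ico 1 C3).card ≤ (U.filter (fun u => f u = (true, true, false))).card := by
      apply card_le_card_of_injOn (fun x => (0, 0, x))
      · intro x hx
        rw [mem_coe, mem_Ico] at hx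
        rw [mem_coe, mem_filter]
        refine ⟨hU3 x hx.2, ?_⟩
        simp only [f, Prod.mk.injEq, decide_eq_false_iff_not, decide_eq_true_eq, and_true,
          true_and]
        omega
      · intro a _ b _ h
        simpa using h
    rw [Nat.card_Ico] at a1 a2 a3
    omega

end Pool.Agent.Helper1.NSV
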