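import Pool.Agent.Helper1.NSVol1

set_option autoImplicit false

namespace Pool.Agent.Helper1.NSV

open Finset Classical Pool.Agent.Helper13.NS

theorem final_nat (t1 t2 t3 u1 u2 u3 v1 v2 v3 M1 M2 M3 j X C w3 w2 w1 v N p q r : ℕ)
    (ht1 : 1 ≤ t1) (ht2 : 1 ≤ t2) (ht3 : 1 ≤ t3)
    (hu3 : u3 ≤ t1 - 1) (hv3 : v3 ≤ t2 - 1) (hu2 : u2 ≤ t1 - 1) (hv2 : v2 ≤ t3 - 1)
    (hu1 : u1 ≤ t2 - 1) (hv1 : v1 ≤ t3 - 1)
    (hM1 : M1 ≤ 1) (hM2 : M2 ≤ 1) (hM3 : M3 ≤ j + 1) (hM3' : j ≤ M3)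
    (hp : p = u3 + v3 + M3) (hq : q = u2 + v2 + M2) (hr : r = u1 + v1 + M1)
    (hw3 : 2 * (t1 * t2) + u3 * (u3 - 1) + v3 * (v3 - 1) + 2 * ((t1 - 1) * j) +
      2 * (j * (t2 - 1)) + (j + 1) * j ≤ 2 * w3)
    (hw2 : 2 * (t1 * t3) + u2 * (u2 - 1) + v2 * (v2 - 1) ≤ 2 * w2)
    (hw1 : 2 * (t2 * t3) + u1 * (u1 - 1) + v1 * (v1 - 1) ≤ 2 * w1)
    (hv : t1 * t2 * t3 + X ≤ v + 1)
    (hc : C + w3 + w2 + w1 + v ≤ N + 2)
    (hs : 3 * (2 + p + q + r) ≤ 2 * C)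
    (hX : (2 : ℤ) * j * (v2 + v1) ≤ 9 + 6 * (2 * ((t3 : ℤ) - 1) - v2 - v1) + (j : ℤ) ^ 2 - 2 * j
      + 4 * X + ((v2 : ℤ) - v1) ^ 2) :
    (2 + p + q + r) ^ 2 ≤ 4 * N := by
  have cu : ∀ u : ℕ, ((u * (u - 1) : ℕ) : ℤ) = (u : ℤ) * ((u : ℤ) - 1) := by
    intro u
    rcases Nat.eq_zero_or_pos u with h | h
    · subst h; simp
    · push_cast [Nat.cast_sub h]; ring
  obtain ⟨n1, rfl⟩ : ∃ n, t1 = n + 1 := ⟨t1 - 1, by omega⟩
  obtain ⟨n2, rfl⟩ : ∃ n, t2 = n + 1 := ⟨t2 - 1, by omega⟩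
  obtain ⟨n3, rfl⟩ : ∃ n, t3 = n + 1 := ⟨t3 - 1, by omega⟩
  simp only [Nat.add_sub_cancel] at *
  have hmain := final_arith (n1 : ℤ) n2 n3 u1 u2 u3 v1 v2 v3 j X (M1 + M2 + M3)
    (by positivity) (by positivity) (by positivity) (by positivity)
    (by positivity) (by exact_mod_cast hu3) (by positivity) (by exact_mod_cast hu2)
    (by positivity) (by exact_mod_cast hv3) (by positivity) (by exact_mod_cast hu1)
    (by positivity) (by exact_mod_cast hv2) (by positivity) (by exact_mod_cast hv1)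
    (by have : M1 + M2 + M3 ≤ 3 + j := by omega
        exact_mod_cast this)
    (by have : j ≤ M1 + M2 + M3 := by omega
        exact_mod_cast this)
    (by push_cast at hX; linarith [hX])
  have hw3' : ((2 * ((n1 + 1) * (n2 + 1)) + u3 * (u3 - 1) + v3 * (v3 - 1) + 2 * (n1 * j) +
      2 * (j * n2) + (j + 1) * j : ℕ) : ℤ) ≤ ((2 * w3 : ℕ) : ℤ) := by exact_mod_cast hw3
  have hw2' : ((2 * ((n1 + 1) * (n3 + 1)) + u2 * (u2 - 1) + v2 * (v2 - 1) : ℕ) : ℤ) ≤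
      ((2 * w2 : ℕ) : ℤ) := by exact_mod_cast hw2
  have hw1' : ((2 * ((n2 + 1) * (n3 + 1)) + u1 * (u1 - 1) + v1 * (v1 - 1) : ℕ) : ℤ) ≤
      ((2 * w1 : ℕ) : ℤ) := by exact_mod_cast hw1
  have hv' : (((n1 + 1) * (n2 + 1) * (n3 + 1) + X : ℕ) : ℤ) ≤ ((v + 1 : ℕ) : ℤ) := by
    exact_mod_cast hv
  have hc' : ((C + w3 + w2 + w1 + v : ℕ) : ℤ) ≤ ((N + 2 : ℕ) : ℤ) := by exact_mod_cast hc
  have hs' : ((3 * (2 + p + q + r) : ℕ) : ℤ) ≤ ((2 * C : ℕ) : ℤ) := by exact_mod_cast hs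
  subst hp hq hr
  have e3 := cu u3
  have e3' := cu v3
  have e2 := cu u2
  have e2' := cu v2
  have e1 := cu u1
  have e1' := cu v1
  rw [Nat.cast_add, Nat.cast_add, Nat.cast_add, Nat.cast_add, Nat.cast_add, e3, e3'] at hw3'
  rw [Nat.cast_add, Nat.cast_add, e2, e2'] at hw2'
  rw [Nat.cast_add, Nat.cast_add, e1, e1'] at hw1'
  push_cast at hw3' hw2' hw1' hv' hc' hs'
  have goal' : ((2 : ℤ) + (u3 + v3 + M3) + (u2 + v2 + M2) + (u1 + v1 + M1)) ^ 2 ≤ 4 * N := by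
    have e : ((2 : ℤ) + (u3 + v3 + M3) + (u2 + v2 + M2) + (u1 + v1 + M1)) =
      2 + (u1 + u2 + u3 + v1 + v2 + v3) + (M1 + M2 + M3) := by ring
    rw [e]
    linarith [hmain, hw3', hw2', hw1', hv', hc', hs']
  exact_mod_cast goal'

theorem hX0 (v2 v1 t3 : ℤ) (h2 : v2 ≤ t3 - 1) (h1 : v1 ≤ t3 - 1) :
    (2 : ℤ) * 0 * (v2 + v1) ≤ 9 + 6 * (2 * (t3 - 1) - v2 - v1) + (0 : ℤ) ^ 2 - 2 * 0
      + 4 * 0 + (v2 - v1) ^ 2 := by
  nlinarith [sq_nonneg (v2 - v1)]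

theorem hX1 (v2 v1 t3 X : ℤ) (h2 : v2 ≤ t3 - 1) (h1 : v1 ≤ t3 - 1)
    (hle : v2 ≤ v1 ∧ v2 ≤ X + 1 ∨ v1 ≤ v2 ∧ v1 ≤ X + 1) :
    (2 : ℤ) * 1 * (v2 + v1) ≤ 9 + 6 * (2 * (t3 - 1) - v2 - v1) + (1 : ℤ) ^ 2 - 2 * 1
      + 4 * X + (v2 - v1) ^ 2 := by
  rcases hle with ⟨h, h'⟩ | ⟨h, h'⟩
  · nlinarith [sq_nonneg (v2 - v1 + 1)]
  · nlinarith [sq_nonneg (v2 - v1 - 1)]

theorem hXj (j v2 v1 t3 f2 f1 : ℤ)
    (b2 : 4 * (j * v2) ≤ 8 * f2 + 12 * (t3 - 1 - v2) + 9 + j ^ 2 - 2 * j)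
    (b1 : 4 * (j * v1) ≤ 8 * f1 + 12 * (t3 - 1 - v1) + 9 + j ^ 2 - 2 * j) :
    (2 : ℤ) * j * (v2 + v1) ≤ 9 + 6 * (2 * (t3 - 1) - v2 - v1) + j ^ 2 - 2 * j
      + 4 * (f2 + f1) + (v2 - v1) ^ 2 := by
  nlinarith [sq_nonneg (v2 - v1)]

end Pool.Agent.Helper1.NSV

namespace Pool.Agent.Helper13.NS

open Finset Classical Pool.Agent.Helper1.NSV

theorem vol1 (S : ℕ → ℕ → ℕ → Prop)
    (down : ∀ {x y z x' y' z' : ℕ}, S x y z → x' ≤ x → y' ≤ y → z' ≤ z → S x' y' z')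
    (C1 C2 C3 : ℕ) (hC1 : ∀ x, S x 0 0 ↔ x < C1) (hC2 : ∀ y, S 0 y 0 ↔ y < C2)
    (hC3 : ∀ z, S 0 0 z ↔ z < C3)
    (U : Finset (ℕ × ℕ × ℕ)) (hU : ∀ x y z, (x, y, z) ∈ U ↔ S x y z)
    (t1 t2 t3 : ℕ) (ht1 : 1 ≤ t1) (ht2 : 1 ≤ t2) (ht3 : 1 ≤ t3)
    (hT : ¬ S t1 t2 t3) (hT1 : S (t1 - 1) t2 t3) (hT2 : S t1 (t2 - 1) t3)
    (hT3 : S t1 t2 (t3 - 1))
    (hfull : ∀ x y z, S x y 0 → S x 0 z → S 0 y z → ¬ (t1 ≤ x ∧ t2 ≤ y ∧ t3 ≤ z) → S x y z)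
    (hM3 : ((cor (fun x y => S x y 0) C1 C2).filter (fun c => t1 ≤ c.1 ∧ t2 ≤ c.2)).card ≤ t3)
    (hM2 : ((cor (fun x z => S x 0 z) C1 C3).filter (fun c => t1 ≤ c.1 ∧ t3 ≤ c.2)).card ≤ 1)
    (hM1 : ((cor (fun y z => S 0 y z) C2 C3).filter (fun c => t2 ≤ c.1 ∧ t3 ≤ c.2)).card ≤ 1)
    (hgap : ∀ a b a' b', (a, b) ∈ cor (fun x y => S x y 0) C1 C2 →
      (a', b') ∈ cor (fun x y => S x y 0) C1 C2 → t1 ≤ a → t2 ≤ b' → a < a' → b' < b →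
      (a + t1 < a' ∨ b' + t2 < b))
    (hsum : 3 * (2 + (cor (fun x y => S x y 0) C1 C2).card +
        (cor (fun x z => S x 0 z) C1 C3).card + (cor (fun y z => S 0 y z) C2 C3).card)
      ≤ 2 * (C1 + C2 + C3)) :
    (2 + (cor (fun x y => S x y 0) C1 C2).card +
        (cor (fun x z => S x 0 z) C1 C3).card + (cor (fun y z => S 0 y z) C2 C3).card) ^ 2
      ≤ 4 * U.card := by
  have dP : ∀ {x y x' y' : ℕ}, S x y 0 → x' ≤ x → y' ≤ y → S x' y' 0 :=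
    fun h h1 h2 => down h h1 h2 le_rfl
  have dQ : ∀ {x y x' y' : ℕ}, S x 0 y → x' ≤ x → y' ≤ y → S x' 0 y' :=
    fun h h1 h2 => down h h1 le_rfl h2
  have dR : ∀ {x y x' y' : ℕ}, S 0 x y → x' ≤ x → y' ≤ y → S 0 x' y' :=
    fun h h1 h2 => down h le_rfl h1 h2
  have hS0 : S 0 0 0 := down hT1 (Nat.zero_le _) (Nat.zero_le _) (Nat.zero_le _)
  have hTP : S t1 t2 0 := down hT3 le_rfl le_rfl (Nat.zero_le _)
  have hTQ : S t1 0 t3 := down hT2 le_rfl (Nat.zero_le _) le_rfl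
  have hTR : S 0 t2 t3 := down hT1 (Nat.zero_le _) le_rfl le_rfl
  obtain ⟨W3, W2, W1, V, hW3, hW2, hW1, hV, hcard⟩ := split_support U C1 C2 C3
    ((hC1 0).1 hS0) ((hC2 0).1 hS0) ((hC3 0).1 hS0)
    (fun x hx => (hU _ _ _).2 ((hC1 x).2 hx)) (fun x hx => (hU _ _ _).2 ((hC2 x).2 hx))
    (fun x hx => (hU _ _ _).2 ((hC3 x).2 hx))
  have hVS : ∀ x y z, 1 ≤ x → 1 ≤ y → 1 ≤ z → S x y z → (x, y, z) ∈ V :=
    fun x y z hx hy hz h => hV x y z hx hy hz ((hU _ _ _).2 h)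
  have p1 := card_cor_eq (D := fun x y => S x y 0) (X := C1) (Y := C2) dP hTP
  have p2 := card_cor_eq (D := fun x z => S x 0 z) (X := C1) (Y := C3) dQ hTQ
  have p3 := card_cor_eq (D := fun y z => S 0 y z) (X := C2) (Y := C3) dR hTR
  have l1 := u_le (D := fun x y => S x y 0) (X := C1) (Y := C2) dP t1
  have l2 := v_le (D := fun x y => S x y 0) (X := C1) (Y := C2) dP t2
  have l3 := u_le (D := fun x z => S x 0 z) (X := C1) (Y := C3) dQ t1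
  have l4 := v_le (D := fun x z => S x 0 z) (X := C1) (Y := C3) dQ t3
  have l5 := u_le (D := fun y z => S 0 y z) (X := C2) (Y := C3) dR t2
  have l6 := v_le (D := fun y z => S 0 y z) (X := C2) (Y := C3) dR t3
  have w2 := planar0 (D := fun x z => S x 0 z) dQ hC1 hC3 hTQ W2
    (fun x y hx hy h => hW2 x y hx hy ((hU _ _ _).2 h))
  have w1 := planar0 (D := fun y z => S 0 y z) dR hC2 hC3 hTR W1
    (fun x y hx hy h => hW1 x y hx hy ((hU _ _ _).2 h))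
  rcases Nat.lt_or_ge ((cor (fun x y => S x y 0) C1 C2).filter
    (fun c => t1 ≤ c.1 ∧ t2 ≤ c.2)).card 2 with hM | hM
  · -- j = 0
    have w3 := planar0 (D := fun x y => S x y 0) dP hC1 hC2 hTP W3
      (fun x y hx hy h => hW3 x y hx hy ((hU _ _ _).2 h))
    have hv := interior0 down hT1 hT2 hT3 V hVS
    refine final_nat t1 t2 t3 _ _ _ _ _ _ _ _ _ 0 0 (C1 + C2 + C3) W3.card W2.card W1.card
      V.card U.card _ _ _ ht1 ht2 ht3 l1 l2 l3 l4 l5 l6 hM1 hM2 (by omega) (Nat.zero_le _)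
      p1 p2 p3 (by omega) w2 w1 (by omega) hcard hsum ?_
    have l4' : (((cor (fun x z => S x 0 z) C1 C3).filter (fun c => c.2 < t3)).card : ℤ) ≤
        (t3 : ℤ) - 1 := by
      have : ((cor (fun x z => S x 0 z) C1 C3).filter (fun c => c.2 < t3)).card + 1 ≤ t3 := by
        omega
      have h' : ((((cor (fun x z => S x 0 z) C1 C3).filter (fun c => c.2 < t3)).card : ℕ) : ℤ)
        + 1 ≤ t3 := by exact_mod_cast this
      linarith
    have l6' : (((cor (fun y z => S 0 y z) C2 C3).filter (fun c => c.2 < t3)).card : ℤ) ≤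
        (t3 : ℤ) - 1 := by
      have : ((cor (fun y z => S 0 y z) C2 C3).filter (fun c => c.2 < t3)).card + 1 ≤ t3 := by
        omega
      have h' : ((((cor (fun y z => S 0 y z) C2 C3).filter (fun c => c.2 < t3)).card : ℕ) : ℤ)
        + 1 ≤ t3 := by exact_mod_cast this
      linarith
    simp only [Nat.cast_zero]
    exact hX0 _ _ _ l4' l6'
  · obtain ⟨j, hj⟩ : ∃ j, ((cor (fun x y => S x y 0) C1 C2).filter
        (fun c => t1 ≤ c.1 ∧ t2 ≤ c.2)).card = j + 1 :=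
      ⟨_, (Nat.sub_add_cancel (by omega : 1 ≤ _)).symm⟩
    have hj1 : 1 ≤ j := by omega
    have hgap' : ∀ a b a' b', (a, b) ∈ cor (fun x y => S x y 0) C1 C2 →
        (a', b') ∈ cor (fun x y => S x y 0) C1 C2 → t1 ≤ a → t2 ≤ b' →
        a < a' → b' < b → (a + t1 < a' ∨ b' + t2 < b) := hgap
    have w3 := planarj (D := fun x y => S x y 0) dP hC1 hC2 ht1 ht2 hj1 hTP hj hgap' W3
      (fun x y hx hy h => hW3 x y hx hy ((hU _ _ _).2 h))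
    have hjt : j + 1 ≤ t3 := by omega
    have l4' : (((cor (fun x z => S x 0 z) C1 C3).filter (fun c => c.2 < t3)).card : ℤ) ≤
        (t3 : ℤ) - 1 := by
      have : ((cor (fun x z => S x 0 z) C1 C3).filter (fun c => c.2 < t3)).card + 1 ≤ t3 := by
        omega
      have h' : ((((cor (fun x z => S x 0 z) C1 C3).filter (fun c => c.2 < t3)).card : ℕ) : ℤ)
        + 1 ≤ t3 := by exact_mod_cast this
      linarith
    have l6' : (((cor (fun y z => S 0 y z) C2 C3).filter (fun c => c.2 < t3)).card : ℤ) ≤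
        (t3 : ℤ) - 1 := by
      have : ((cor (fun y z => S 0 y z) C2 C3).filter (fun c => c.2 < t3)).card + 1 ≤ t3 := by
        omega
      have h' : ((((cor (fun y z => S 0 y z) C2 C3).filter (fun c => c.2 < t3)).card : ℕ) : ℤ)
        + 1 ≤ t3 := by exact_mod_cast this
      linarith
    rcases Nat.lt_or_ge j 2 with hj2 | hj2
    · -- j = 1
      have hj3 : j = 1 := by omega
      subst hj3
      have hex := extra (D := fun x y => S x y 0) dP hC1 hC2 ht1 ht2 le_rfl hj hgap'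
      have hex' : S t1 (t2 + 1) 0 ∨ S (t1 + 1) t2 0 := by
        rcases hex with h | h
        · exact Or.inl h
        · right
          simpa using h
      have hv := interior1 down hC1 hC2 hC3 ht1 ht2 hT1 hT2 hT3 hfull hex' V hVS
      refine final_nat t1 t2 t3 _ _ _ _ _ _ _ _ _ 1 _ (C1 + C2 + C3) W3.card W2.card W1.card
        V.card U.card _ _ _ ht1 ht2 ht3 l1 l2 l3 l4 l5 l6 hM1 hM2 hj.le (by omega)
        p1 p2 p3 w3 w2 w1 hv hcard hsum ?_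
      generalize ((cor (fun x z => S x 0 z) C1 C3).filter (fun c => c.2 < t3)).card = v2 at *
      generalize ((cor (fun y z => S 0 y z) C2 C3).filter (fun c => c.2 < t3)).card = v1 at *
      have hmin : ((min v2 v1 : ℕ) : ℤ) ≤ ((min v2 v1 - 1 : ℕ) : ℤ) + 1 := by
        have : min v2 v1 ≤ (min v2 v1 - 1) + 1 := by omega
        exact_mod_cast this
      rw [Nat.cast_one]
      rcases le_total v2 v1 with hle | hle
      · rw [min_eq_left hle] at hmin ⊢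
        exact hX1 _ _ _ _ l4' l6'
          (Or.inl ⟨by exact_mod_cast hle, hmin⟩)
      · rw [min_eq_right hle] at hmin ⊢
        exact hX1 _ _ _ _ l4' l6'
          (Or.inr ⟨by exact_mod_cast hle, hmin⟩)
    · have hv := interiorj down hC1 hC2 hC3 ht1 ht2 hT1 hT2 hT3 hfull hj V hVS
      rw [add_assoc] at hv
      refine final_nat t1 t2 t3 _ _ _ _ _ _ _ _ _ j _ (C1 + C2 + C3) W3.card W2.card W1.card
        V.card U.card _ _ _ ht1 ht2 ht3 l1 l2 l3 l4 l5 l6 hM1 hM2 hj.le (by omega)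
        p1 p2 p3 w3 w2 w1 hv hcard hsum ?_
      have b2 := ff_bound j _ (t3 - 1) hj2 l4 (by omega)
      have b1 := ff_bound j _ (t3 - 1) hj2 l6 (by omega)
      generalize ((cor (fun x z => S x 0 z) C1 C3).filter (fun c => c.2 < t3)).card = v2 at *
      generalize ((cor (fun y z => S 0 y z) C2 C3).filter (fun c => c.2 < t3)).card = v1 at *
      have e : ((t3 - 1 : ℕ) : ℤ) = (t3 : ℤ) - 1 := by
        rw [Nat.cast_sub ht3]; norm_num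
      rw [e] at b1 b2
      rw [Nat.cast_add]
      exact hXj _ _ _ _ _ _ b2 b1

end Pool.Agent.Helper13.NS
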