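import Mathlib

set_option autoImplicit false

namespace Pool.Agent.Helper1.Snark


/-- A graph that may have loops, multiple edges and semi-edges, given by its edge-ends:
`E` is the set of edge-ends, `vert e` is the vertex at which the end `e` sits and `opp e` is the
other end of the same edge.  A semi-edge is an end with `opp e = e`; a loop is a pair
`e ≠ opp e` of ends at the same vertex; a normal edge is a pair of ends at two distinct
vertices. -/
structure EndGraph (V E : Type) where
  vert : E → V
  opp : E → E
  opp_opp : ∀ e, opp (opp e) = e

namespace EndGraph

variable {V E : Type}

/-- Every vertex has exactly three edge-ends. -/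
def Cubic (A : EndGraph V E) : Prop := ∀ v : V, Nat.card {e : E // A.vert e = v} = 3

/-- Every two vertices are joined by a walk (and there is a vertex). -/
def Connected (A : EndGraph V E) : Prop :=
  Nonempty V ∧ ∀ v w : V,
    Relation.ReflTransGen (fun a b => ∃ e, A.vert e = a ∧ A.vert (A.opp e) = b) v w

/-- A proper 3-edge-colouring: both ends of an edge get the colour of the edge and distinct
ends at one vertex get distinct colours. -/
def Colorable3 (A : EndGraph V E) : Prop :=
  ∃ c : E → Fin 3, (∀ e, c (A.opp e) = c e) ∧
    ∀ e e', A.vert e = A.vert e' → c e = c e' → e = e'

/-- The simple graph `H` covers `A`: there are a vertex map `f` and a map `φ` of edge-ends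
(the edge-ends of the simple graph `H` are its darts) which maps the ends at every vertex `w`
bijectively onto the ends at `f w` and which maps the two ends of every edge of `H` to the two
ends of one edge of `A` (both to its only end if that is a semi-edge). -/
def CoveredBy (A : EndGraph V E) {W : Type} (H : SimpleGraph W) : Prop :=
  ∃ (f : W → V) (φ : H.Dart → E),
    (∀ w, Set.BijOn φ {d | d.fst = w} {e | A.vert e = f w}) ∧
    ∀ d, φ d.symm = A.opp (φ d)

end EndGraph

/-- 2-connected simple graphs: at least three vertices, connected, and no cut vertex. -/
def TwoConnected {W : Type} (H : SimpleGraph W) : Prop :=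
  3 ≤ Nat.card W ∧ H.Connected ∧ ∀ w : W, (H.induce {x | x ≠ w}).Connected

end Pool.Agent.Helper1.Snark
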