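import Mathlib
import Pool.Agent.Helper1.SnarkDefs

set_option autoImplicit false

namespace Pool.Agent.Helper1.Snark

namespace EndGraph

variable {V E V' E' V'' E'' F : Type}

/-- covers between graphs given by ends -/
def Cov (G : EndGraph V' E') (A : EndGraph V E) : Prop :=
  ∃ (f : V' → V) (φ : E' → E),
    (∀ e, A.vert (φ e) = f (G.vert e)) ∧
    (∀ e, φ (G.opp e) = A.opp (φ e)) ∧
    (∀ v e, A.vert e = f v → ∃ e', G.vert e' = v ∧ φ e' = e) ∧
    (∀ e e', G.vert e = G.vert e' → φ e = φ e' → e = e')

theorem Cov.refl (A : EndGraph V E) : Cov A A :=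
  ⟨id, id, fun _ => rfl, fun _ => rfl, fun _ e h => ⟨e, h, rfl⟩, fun _ _ _ h => h⟩

theorem Cov.trans {G : EndGraph V'' E''} {B : EndGraph V' E'} {A : EndGraph V E}
    (h₁ : Cov G B) (h₂ : Cov B A) : Cov G A := by
  obtain ⟨f, φ, a1, a2, a3, a4⟩ := h₁
  obtain ⟨f', φ', b1, b2, b3, b4⟩ := h₂
  refine ⟨f' ∘ f, φ' ∘ φ, ?_, ?_, ?_, ?_⟩
  · intro e; simp [b1, a1]
  · intro e; simp [a2, b2]
  · intro v e h
    obtain ⟨e1, h1, h1'⟩ := b3 (f v) e h
    obtain ⟨e2, h2, h2'⟩ := a3 v e1 h1
    exact ⟨e2, h2, by simp [h2', h1']⟩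
  · intro e e' h h'
    have : φ e = φ e' := b4 _ _ (by rw [a1, a1, h]) h'
    exact a4 _ _ h this

theorem Cov.cubic {G : EndGraph V' E'} {A : EndGraph V E} (h : Cov G A) (hA : A.Cubic) :
    G.Cubic := by
  obtain ⟨f, φ, a1, a2, a3, a4⟩ := h
  intro v
  rw [← hA (f v)]
  refine Nat.card_congr (Equiv.ofBijective
    (fun e : {e : E' // G.vert e = v} => (⟨φ e.1, by rw [a1, e.2]⟩ : {e : E // A.vert e = f v}))
    ⟨?_, ?_⟩)
  · intro e e' h
    have h' : φ e.1 = φ e'.1 := congrArg Subtype.val h
    exact Subtype.ext (a4 _ _ (by rw [e.2, e'.2]) h')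
  · intro e
    obtain ⟨e', h1, h2⟩ := a3 v e.1 e.2
    exact ⟨⟨e', h1⟩, Subtype.ext h2⟩

/-- The cover with fibre `F` given by transports `t`. -/
def lift (A : EndGraph V E) (t : E → F → F) (h : ∀ e x, t (A.opp e) (t e x) = x) :
    EndGraph (V × F) (E × F) where
  vert p := (A.vert p.1, p.2)
  opp p := (A.opp p.1, t p.1 p.2)
  opp_opp p := by
    ext
    · simp [A.opp_opp]
    · simp [h]

theorem lift_cov (A : EndGraph V E) (t : E → F → F) (h : ∀ e x, t (A.opp e) (t e x) = x) :
    Cov (A.lift t h) A := by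
  refine ⟨Prod.fst, Prod.fst, fun _ => rfl, fun _ => rfl, ?_, ?_⟩
  · rintro ⟨v, x⟩ e h
    exact ⟨(e, x), by simp only [lift]; rw [h], rfl⟩
  · rintro ⟨e, x⟩ ⟨e', x'⟩ h h'
    simp only [lift, Prod.mk.injEq] at h h'
    ext
    · exact h'
    · exact h.2

/-- `z` is the only end leaving the vertex set `χ`. -/
def OneCut (A : EndGraph V E) (χ : V → Prop) (z : E) : Prop :=
  χ (A.vert z) ∧ ¬ χ (A.vert (A.opp z)) ∧ ∀ e, χ (A.vert e) → ¬ χ (A.vert (A.opp e)) → e = z

def NoOneCut (A : EndGraph V E) : Prop := ∀ χ z, ¬ A.OneCut χ z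

theorem OneCut.iff {A : EndGraph V E} {χ : V → Prop} {z : E} (h : A.OneCut χ z) (e : E)
    (h1 : e ≠ z) (h2 : e ≠ A.opp z) : χ (A.vert e) ↔ χ (A.vert (A.opp e)) := by
  constructor
  · intro h3
    by_contra h4
    exact h1 (h.2.2 e h3 h4)
  · intro h3
    by_contra h4
    have := h.2.2 (A.opp e) h3 (by rwa [A.opp_opp])
    apply h2
    rw [← this, A.opp_opp]

/-! ### Step 1: doubling along semi-edges -/

theorem exists_noSemi (A : EndGraph V E) (hA : ¬ A.Colorable3) :
    ∃ (B : EndGraph (V × ZMod 2) (E × ZMod 2)), Cov B A ∧ (∀ e, B.opp e ≠ e) ∧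
      ¬ B.Colorable3 := by
  classical
  let t : E → ZMod 2 → ZMod 2 := fun e x => if A.opp e = e then x + 1 else x
  have ht : ∀ e x, t (A.opp e) (t e x) = x := by
    intro e x
    by_cases h : A.opp e = e
    · simp only [t, h, if_true]
      rw [add_assoc]
      simp [show (1 + 1 : ZMod 2) = 0 from rfl]
    · have h' : A.opp (A.opp e) ≠ A.opp e := by
        rw [A.opp_opp]
        exact fun h'' => h h''.symm
      simp only [t, if_neg h, if_neg h']
  refine ⟨A.lift t ht, lift_cov A t ht, ?_, ?_⟩
  · rintro ⟨e, x⟩ h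
    simp only [lift, Prod.mk.injEq, t] at h
    rw [if_pos h.1] at h
    have h2 := h.2
    clear h
    revert h2
    revert x
    decide
  · rintro ⟨c, h1, h2⟩
    apply hA
    refine ⟨fun e => c (e, 0), ?_, ?_⟩
    · intro e
      by_cases h : A.opp e = e
      · rw [h]
      · have := h1 (e, 0)
        simp only [lift, t, if_neg h] at this
        exact this
    · intro e e' h h'
      have := h2 (e, 0) (e', 0) (by simp only [lift]; rw [h]) h'
      exact congrArg Prod.fst this

/-! ### Counting lemmas -/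

section counting

variable [Fintype V] [Fintype E]

omit [Fintype V] in
theorem exists_unique_color {A : EndGraph V E} (hA : A.Cubic) (c : E → Fin 3)
    (hc : ∀ e e', A.vert e = A.vert e' → c e = c e' → e = e') (v : V) (i : Fin 3) :
    ∃ e, A.vert e = v ∧ c e = i := by
  classical
  let g : {e : E // A.vert e = v} → Fin 3 := fun e => c e.1
  have hg : Function.Injective g := by
    intro e e' h
    exact Subtype.ext (hc _ _ (by rw [e.2, e'.2]) h)
  have hcard : Fintype.card {e : E // A.vert e = v} = Fintype.card (Fin 3) := by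
    rw [← Nat.card_eq_fintype_card, hA v, Fintype.card_fin]
  have hb := (Fintype.bijective_iff_injective_and_card g).2 ⟨hg, hcard⟩
  obtain ⟨e, he⟩ := hb.2 i
  exact ⟨e.1, e.2, he⟩

open Classical in
/-- The parity lemma. -/
theorem parity {A : EndGraph V E} (hA : A.Cubic) (hS : ∀ e, A.opp e ≠ e) (c : E → Fin 3)
    (hc1 : ∀ e, c (A.opp e) = c e)
    (hc : ∀ e e', A.vert e = A.vert e' → c e = c e' → e = e') (χ : V → Prop) (K : Finset E)
    (hK : ∀ e, e ∈ K ↔ χ (A.vert e) ∧ ¬ χ (A.vert (A.opp e))) (i : Fin 3) :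
    ∑ e ∈ K, (if c e = i then (1 : ZMod 2) else 0) = ((Finset.univ.filter χ).card : ZMod 2) := by
  have h1 : (Finset.univ.filter χ).card =
      (Finset.univ.filter (fun e => χ (A.vert e) ∧ c e = i)).card := by
    symm
    refine Finset.card_bij (fun e _ => A.vert e) ?_ ?_ ?_
    · intro e he
      simp only [Finset.mem_filter, Finset.mem_univ, true_and] at he ⊢
      exact he.1
    · intro e he e' he' h
      simp only [Finset.mem_filter, Finset.mem_univ, true_and] at he he'
      exact hc _ _ h (by rw [he.2, he'.2])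
    · intro v hv
      simp only [Finset.mem_filter, Finset.mem_univ, true_and] at hv
      obtain ⟨e, he1, he2⟩ := exists_unique_color hA c hc v i
      exact ⟨e, by simp [he1, he2, hv], he1⟩
  rw [h1, Finset.sum_boole, ← Finset.card_filter_add_card_filter_not
    (s := Finset.univ.filter (fun e => χ (A.vert e) ∧ c e = i))
    (fun e => χ (A.vert (A.opp e)))]
  rw [Nat.cast_add]
  have h2 : (((Finset.univ.filter (fun e => χ (A.vert e) ∧ c e = i)).filter
      (fun e => χ (A.vert (A.opp e)))).card : ZMod 2) = 0 := by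
    rw [Finset.card_eq_sum_ones, Nat.cast_sum]
    refine Finset.sum_involution (fun e _ => A.opp e) ?_ ?_ ?_ ?_
    · intro e _; rfl
    · intro e _ _; exact hS e
    · intro e he
      simp only [Finset.mem_filter, Finset.mem_univ, true_and] at he ⊢
      rw [A.opp_opp, hc1]
      tauto
    · intro e _; exact A.opp_opp e
  rw [h2, zero_add]
  congr 2
  ext e
  simp only [Finset.mem_filter, Finset.mem_univ, true_and, hK]
  tauto

omit [Fintype V] in
open Classical in
theorem sum_antisymm (A : EndGraph V E) (w : E → ZMod 3) (hw : ∀ e, w (A.opp e) = - w e)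
    (χ : V → Prop) (z : E) (h : A.OneCut χ z) :
    ∑ e, (if χ (A.vert e) then w e else 0) = w z := by
  have h0 : ∀ a : ZMod 3, a = - a → a = 0 := by decide
  have h1 : ∑ e, (if χ (A.vert e) ∧ χ (A.vert (A.opp e)) then w e else 0) = 0 := by
    refine Finset.sum_involution (fun e _ => A.opp e) ?_ ?_ ?_ ?_
    · intro e _
      simp only [A.opp_opp, hw]
      by_cases h1 : χ (A.vert e) <;> by_cases h2 : χ (A.vert (A.opp e)) <;> simp [h1, h2]
    · intro e _ h1 h2
      apply h1
      have : w e = 0 := by
        apply h0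
        rw [← hw, h2]
      simp [this]
    · intro e _; exact Finset.mem_univ _
    · intro e _; exact A.opp_opp e
  have h2 : ∑ e, (if χ (A.vert e) then w e else 0) =
      ∑ e, (if χ (A.vert e) ∧ χ (A.vert (A.opp e)) then w e else 0) +
      ∑ e, (if e = z then w e else 0) := by
    rw [← Finset.sum_add_distrib]
    refine Finset.sum_congr rfl ?_
    intro e _
    by_cases h3 : e = z
    · subst h3
      simp [h.1, h.2.1]
    · by_cases h4 : χ (A.vert e)
      · have h5 : χ (A.vert (A.opp e)) := by
          by_contra h5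
          exact h3 (h.2.2 e h4 h5)
        simp [h3, h4, h5]
      · simp [h3, h4]
  rw [h2, h1, zero_add]
  simp

/-- sums of functions of the vertex over all ends vanish mod 3 in a cubic graph -/
theorem sum_vert {A : EndGraph V E} (hA : A.Cubic) (f : V → ZMod 3) :
    ∑ e, f (A.vert e) = 0 := by
  classical
  have h1 : ∑ v, ∑ e with A.vert e = v, f (A.vert e) = ∑ e, f (A.vert e) :=
    Finset.sum_fiberwise Finset.univ A.vert (fun e => f (A.vert e))
  rw [← h1]
  refine Finset.sum_eq_zero ?_
  intro v _
  have h2 : ∑ e with A.vert e = v, f (A.vert e) = ∑ e with A.vert e = v, f v := by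
    refine Finset.sum_congr rfl ?_
    intro e he
    simp only [Finset.mem_filter, Finset.mem_univ, true_and] at he
    rw [he]
  rw [h2, Finset.sum_const, ← Fintype.card_subtype, ← Nat.card_eq_fintype_card, hA v]
  generalize f v = a
  revert a
  decide

end counting

/-! ### Step 3: replacing every edge by a 2-pole -/

structure IsSimple (A : EndGraph V E) : Prop where
  loopless : ∀ e, A.vert (A.opp e) ≠ A.vert e
  nomulti : ∀ e e', A.vert e = A.vert e' → A.vert (A.opp e) = A.vert (A.opp e') → e = e'

theorem IsSimple.noSemi {A : EndGraph V E} (h : A.IsSimple) (e : E) : A.opp e ≠ e := by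
  intro h'
  exact h.loopless e (by rw [h'])

open Classical in
/-- `N` with every edge replaced by two copies of `B` in series, each cut open. -/
noncomputable def ins (N : EndGraph V E) (B : EndGraph V' E') (σ : E → E')
    (hB : ∀ e, B.opp e ≠ e) : EndGraph (V ⊕ E × V') (E ⊕ E × E') where
  vert z := match z with
    | Sum.inl e => Sum.inl (N.vert e)
    | Sum.inr (e, p) => Sum.inr (e, B.vert p)
  opp z := match z with
    | Sum.inl e => Sum.inr (e, B.opp (σ e))
    | Sum.inr (e, p) =>
      if p = σ e then Sum.inr (N.opp e, σ (N.opp e))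
      else if p = B.opp (σ e) then Sum.inl e
      else Sum.inr (e, B.opp p)
  opp_opp z := by
    rcases z with e | ⟨e, p⟩
    · simp [hB]
    · by_cases h1 : p = σ e
      · subst h1
        simp [N.opp_opp]
      · by_cases h2 : p = B.opp (σ e)
        · subst h2
          simp [hB]
        · have h3 : B.opp p ≠ σ e := by
            intro h
            apply h2
            rw [← h, B.opp_opp]
          have h4 : B.opp p ≠ B.opp (σ e) := by
            intro h
            apply h1
            rw [← B.opp_opp p, h, B.opp_opp]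
          simp [h1, h2, h3, h4, B.opp_opp]

section ins

variable (N : EndGraph V E) (B : EndGraph V' E') (σ : E → E') (hB : ∀ e, B.opp e ≠ e)

@[simp] theorem ins_vert_inl (e : E) : (ins N B σ hB).vert (Sum.inl e) = Sum.inl (N.vert e) := rfl
@[simp] theorem ins_vert_inr (e : E) (p : E') :
    (ins N B σ hB).vert (Sum.inr (e, p)) = Sum.inr (e, B.vert p) := rfl
@[simp] theorem ins_opp_inl (e : E) :
    (ins N B σ hB).opp (Sum.inl e) = Sum.inr (e, B.opp (σ e)) := rfl
theorem ins_opp_inr1 (e : E) :
    (ins N B σ hB).opp (Sum.inr (e, σ e)) = Sum.inr (N.opp e, σ (N.opp e)) := by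
  simp [ins]
theorem ins_opp_inr2 (e : E) :
    (ins N B σ hB).opp (Sum.inr (e, B.opp (σ e))) = Sum.inl e := by
  simp [ins, hB]
theorem ins_opp_inr3 (e : E) (p : E') (h1 : p ≠ σ e) (h2 : p ≠ B.opp (σ e)) :
    (ins N B σ hB).opp (Sum.inr (e, p)) = Sum.inr (e, B.opp p) := by
  simp [ins, h1, h2]

/-- `ins N B σ` covers `N` if `B` does via `g`, `ψ` and `σ` is a section of `ψ`. -/
theorem ins_cov (g : V' → V) (ψ : E' → E) (b1 : ∀ e, N.vert (ψ e) = g (B.vert e))
    (b2 : ∀ e, ψ (B.opp e) = N.opp (ψ e))
    (b3 : ∀ v e, N.vert e = g v → ∃ e', B.vert e' = v ∧ ψ e' = e)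
    (b4 : ∀ e e', B.vert e = B.vert e' → ψ e = ψ e' → e = e')
    (hσ : ∀ e, ψ (σ e) = e) : Cov (ins N B σ hB) N := by
  classical
  refine ⟨fun z => match z with
    | Sum.inl v => v
    | Sum.inr (_, x) => g x, fun z => match z with
    | Sum.inl e => e
    | Sum.inr (_, p) => ψ p, ?_, ?_, ?_, ?_⟩
  · rintro (e | ⟨e, p⟩)
    · rfl
    · simp [b1]
  · rintro (e | ⟨e, p⟩)
    · simp [b2, hσ]
    · by_cases h1 : p = σ e
      · subst h1
        rw [ins_opp_inr1]
        simp [hσ]
      · by_cases h2 : p = B.opp (σ e)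
        · subst h2
          rw [ins_opp_inr2]
          simp [b2, hσ, N.opp_opp]
        · rw [ins_opp_inr3 _ _ _ _ _ _ h1 h2]
          simp [b2]
  · rintro (v | ⟨e, x⟩) e' h
    · exact ⟨Sum.inl e', by simpa using h, rfl⟩
    · obtain ⟨p, hp1, hp2⟩ := b3 x e' h
      exact ⟨Sum.inr (e, p), by simp [hp1], hp2⟩
  · rintro (e | ⟨e, p⟩) (e' | ⟨e', p'⟩) h h'
    · simp only at h'
      rw [h']
    · simp at h
    · simp at h
    · simp only [ins_vert_inr, Sum.inr.injEq, Prod.mk.injEq] at h h'
      rw [h.1, b4 _ _ h.2 h']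

theorem ins_simple (hN : ∀ e, N.opp e ≠ e) (hs : B.IsSimple) : (ins N B σ hB).IsSimple := by
  constructor
  · rintro (e | ⟨e, p⟩)
    · simp
    · by_cases h1 : p = σ e
      · subst h1
        rw [ins_opp_inr1]
        simp [hN]
      · by_cases h2 : p = B.opp (σ e)
        · subst h2
          rw [ins_opp_inr2]
          simp
        · rw [ins_opp_inr3 _ _ _ _ _ _ h1 h2]
          simp [hs.loopless]
  · rintro (e | ⟨e, p⟩) (e' | ⟨e', p'⟩) h h'
    · simp only [ins_opp_inl, ins_vert_inr, Sum.inr.injEq, Prod.mk.injEq] at h'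
      rw [h'.1]
    · simp at h
    · simp at h
    · simp only [ins_vert_inr, Sum.inr.injEq, Prod.mk.injEq] at h
      obtain ⟨h1, h2⟩ := h
      subst h1
      by_cases a1 : p = σ e
      · subst a1
        rw [ins_opp_inr1] at h'
        by_cases c1 : p' = σ e
        · rw [c1]
        · by_cases c2 : p' = B.opp (σ e)
          · subst c2
            rw [ins_opp_inr2] at h'
            simp at h'
          · rw [ins_opp_inr3 _ _ _ _ _ _ c1 c2] at h'
            simp [hN] at h'
      · by_cases a2 : p = B.opp (σ e)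
        · subst a2
          rw [ins_opp_inr2] at h'
          by_cases c1 : p' = σ e
          · subst c1
            rw [ins_opp_inr1] at h'
            simp at h'
          · by_cases c2 : p' = B.opp (σ e)
            · rw [c2]
            · rw [ins_opp_inr3 _ _ _ _ _ _ c1 c2] at h'
              simp at h'
        · rw [ins_opp_inr3 _ _ _ _ _ _ a1 a2] at h'
          by_cases c1 : p' = σ e
          · subst c1
            rw [ins_opp_inr1] at h'
            simp only [ins_vert_inr, Sum.inr.injEq, Prod.mk.injEq] at h'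
            exact absurd h'.1.symm (hN e)
          · by_cases c2 : p' = B.opp (σ e)
            · subst c2
              rw [ins_opp_inr2] at h'
              simp at h'
            · rw [ins_opp_inr3 _ _ _ _ _ _ c1 c2] at h'
              simp only [ins_vert_inr, Sum.inr.injEq, Prod.mk.injEq, true_and] at h'
              rw [hs.nomulti _ _ h2 h']

theorem ins_not_colorable [Fintype V] [Fintype E] [Fintype V'] [Fintype E']
    (hN : ∀ e, N.opp e ≠ e) (hcub : (ins N B σ hB).Cubic) (hs : (ins N B σ hB).IsSimple)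
    (hcol : ¬ N.Colorable3) : ¬ (ins N B σ hB).Colorable3 := by
  classical
  rintro ⟨c, hc1, hc2⟩
  apply hcol
  refine ⟨fun e => c (Sum.inl e), ?_, ?_⟩
  · have key : ∀ e, c (Sum.inr (e, σ e)) = c (Sum.inr (e, B.opp (σ e))) := by
      intro e
      have hpar := parity hcub hs.noSemi c hc1 hc2
        (fun z => ∃ x, z = Sum.inr (e, x))
        {Sum.inr (e, σ e), Sum.inr (e, B.opp (σ e))} (by
          rintro (e' | ⟨e', p⟩)
          · simp
          · simp only [Finset.mem_insert, Finset.mem_singleton, Sum.inr.injEq, Prod.mk.injEq,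
              ins_vert_inr]
            constructor
            · rintro (⟨rfl, rfl⟩ | ⟨rfl, rfl⟩)
              · refine ⟨⟨_, rfl, rfl⟩, ?_⟩
                rw [ins_opp_inr1]
                rintro ⟨x, hx⟩
                simp only [ins_vert_inr, Sum.inr.injEq, Prod.mk.injEq] at hx
                exact hN _ hx.1
              · refine ⟨⟨_, rfl, rfl⟩, ?_⟩
                rw [ins_opp_inr2]
                rintro ⟨x, hx⟩
                simp at hx
            · rintro ⟨⟨x, h1, h2⟩, h3⟩
              subst h1
              by_cases a1 : p = σ e'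
              · exact Or.inl ⟨rfl, a1⟩
              · by_cases a2 : p = B.opp (σ e')
                · exact Or.inr ⟨rfl, a2⟩
                · exfalso
                  apply h3
                  rw [ins_opp_inr3 _ _ _ _ _ _ a1 a2]
                  exact ⟨_, rfl⟩)
      have hne : (Sum.inr (e, σ e) : E ⊕ E × E') ≠ Sum.inr (e, B.opp (σ e)) := by
        intro h
        simp only [Sum.inr.injEq, Prod.mk.injEq, true_and] at h
        exact hB _ h.symm
      simp only [Finset.sum_pair hne] at hpar
      obtain ⟨r, hr⟩ : ∃ r : ZMod 2, ∀ i : Fin 3,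
          (if c (Sum.inr (e, σ e)) = i then (1 : ZMod 2) else 0) +
          (if c (Sum.inr (e, B.opp (σ e))) = i then (1 : ZMod 2) else 0) = r := ⟨_, hpar⟩
      revert hr
      generalize c (Sum.inr (e, σ e)) = a
      generalize c (Sum.inr (e, B.opp (σ e))) = b
      clear hpar
      revert a b r
      decide
    intro e
    have h1 : ∀ e, c (Sum.inl e) = c (Sum.inr (e, B.opp (σ e))) := by
      intro e
      rw [← hc1, ins_opp_inl]
    have h2 : c (Sum.inr (N.opp e, σ (N.opp e))) = c (Sum.inr (e, σ e)) := by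
      rw [← hc1 (Sum.inr (e, σ e)), ins_opp_inr1]
    change c (Sum.inl (N.opp e)) = c (Sum.inl e)
    rw [h1, ← key, h2, key, ← h1]
  · intro e e' h h'
    have := hc2 (Sum.inl e) (Sum.inl e') (by simp [h]) h'
    simpa using this

theorem ins_noOneCut [Fintype V] [Fintype E] [Fintype V'] [Fintype E']
    (hN : ∀ e, N.opp e ≠ e) (hcut : N.NoOneCut) (hBc : B.Cubic) (s : V' → ZMod 3)
    (hs1 : ∀ v, s v * s v = 1) (hs2 : ∀ p, s (B.vert (B.opp p)) = - s (B.vert p)) :
    (ins N B σ hB).NoOneCut := by
  classical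
  intro χ z hz
  let δ : E → E → ZMod 3 := fun ε e => (if e = ε then 1 else 0) - (if e = N.opp ε then 1 else 0)
  have hδ : ∀ ε e, δ ε (N.opp e) = - δ ε e := by
    intro ε e
    simp only [δ]
    have h1 : N.opp e = ε ↔ e = N.opp ε := by
      constructor
      · rintro rfl; rw [N.opp_opp]
      · rintro rfl; rw [N.opp_opp]
    have h2 : N.opp e = N.opp ε ↔ e = ε := by
      constructor
      · intro h; rw [← N.opp_opp e, h, N.opp_opp]
      · rintro rfl; rfl
    rw [if_congr h1 rfl rfl, if_congr h2 rfl rfl]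
    ring
  let w : E → (E ⊕ E × E') → ZMod 3 := fun ε z => match z with
    | Sum.inl e => δ ε e
    | Sum.inr (e, p) => δ ε e * s (B.vert (σ e)) * s (B.vert p)
  have hw : ∀ ε z, w ε ((ins N B σ hB).opp z) = - w ε z := by
    intro ε z
    rcases z with e | ⟨e, p⟩
    · simp only [ins_opp_inl, w, hs2]
      linear_combination (-(δ ε e)) * hs1 (B.vert (σ e))
    · by_cases h1 : p = σ e
      · subst h1
        rw [ins_opp_inr1]
        simp only [w, hδ]
        linear_combination (-(δ ε e)) * hs1 (B.vert (σ (N.opp e))) +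
          (δ ε e) * hs1 (B.vert (σ e))
      · by_cases h2 : p = B.opp (σ e)
        · subst h2
          rw [ins_opp_inr2]
          simp only [w, hs2]
          linear_combination (-(δ ε e)) * hs1 (B.vert (σ e))
        · rw [ins_opp_inr3 _ _ _ _ _ _ h1 h2]
          simp only [w, hs2]
          ring
  have hsum : ∀ ε, ∑ z, (if χ ((ins N B σ hB).vert z) then w ε z else 0) =
      (if χ (Sum.inl (N.vert ε)) then 1 else 0) -
      (if χ (Sum.inl (N.vert (N.opp ε))) then 1 else 0) := by
    intro ε
    rw [Fintype.sum_sum_type, Fintype.sum_prod_type]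
    have h1 : ∑ e, ∑ p, (if χ ((ins N B σ hB).vert (Sum.inr (e, p)))
        then w ε (Sum.inr (e, p)) else 0) = 0 := by
      refine Finset.sum_eq_zero ?_
      intro e _
      have := sum_vert hBc (fun x => if χ (Sum.inr (e, x))
        then δ ε e * s (B.vert (σ e)) * s x else 0)
      exact this
    rw [h1, add_zero]
    have h2 : ∀ e, (if χ ((ins N B σ hB).vert (Sum.inl e)) then w ε (Sum.inl e) else 0) =
        (if e = ε then (if χ (Sum.inl (N.vert ε)) then 1 else 0) else 0) -
        (if e = N.opp ε then (if χ (Sum.inl (N.vert (N.opp ε))) then 1 else 0) else 0) := by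
      intro e
      change (if χ (Sum.inl (N.vert e)) then
        ((if e = ε then 1 else 0) - (if e = N.opp ε then 1 else 0) : ZMod 3) else 0) = _
      by_cases a1 : e = ε
      · subst a1
        by_cases a2 : e = N.opp e
        · exact absurd a2.symm (hN e)
        · simp [a2]
      · by_cases a2 : e = N.opp ε
        · subst a2
          by_cases a3 : χ (Sum.inl (N.vert (N.opp ε))) <;> simp [a1, a3]
        · simp [a1, a2]
    simp only [h2, Finset.sum_sub_distrib, Finset.sum_ite_eq', Finset.mem_univ, if_true]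
  have hmain := fun ε => (hsum ε).symm.trans
    (sum_antisymm (ins N B σ hB) (w ε) (hw ε) χ z hz)
  obtain ⟨e1, he1⟩ : ∃ e1, ∀ ε, w ε z = δ ε e1 ∨ w ε z = - δ ε e1 := by
    rcases z with e | ⟨e, p⟩
    · exact ⟨e, fun ε => Or.inl rfl⟩
    · refine ⟨e, fun ε => ?_⟩
      simp only [w]
      have h1 := hs1 (B.vert (σ e))
      have h2 := hs1 (B.vert p)
      generalize s (B.vert (σ e)) = a at *
      generalize s (B.vert p) = b at *
      generalize δ ε e = d
      clear * - h1 h2
      revert a b d
      decide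
  have hself : δ e1 e1 = 1 := by
    simp [δ, (hN e1).symm]
  have hself' : w e1 z ≠ 0 := by
    rcases he1 e1 with h | h <;> rw [h, hself] <;> decide
  have hother : ∀ ε, ε ≠ e1 → ε ≠ N.opp e1 → w ε z = 0 := by
    intro ε h1 h2
    have h3 : δ ε e1 = 0 := by
      have h4 : e1 ≠ N.opp ε := by
        rintro h
        apply h2
        rw [h, N.opp_opp]
      simp [δ, h1.symm, h4]
    rcases he1 ε with h | h <;> rw [h, h3]
    simp
  have hsame : ∀ ε, ε ≠ e1 → ε ≠ N.opp e1 → χ (Sum.inl (N.vert ε)) →
      χ (Sum.inl (N.vert (N.opp ε))) := by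
    intro ε h1 h2 h3
    by_contra h4
    have := hmain ε
    rw [hother ε h1 h2, if_pos h3, if_neg h4] at this
    revert this
    decide
  by_cases c1 : χ (Sum.inl (N.vert e1))
  · by_cases c2 : χ (Sum.inl (N.vert (N.opp e1)))
    · apply hself'
      rw [← hmain e1, if_pos c1, if_pos c2, sub_self]
    · refine hcut (fun v => χ (Sum.inl v)) e1 ⟨c1, c2, ?_⟩
      intro e h1 h2
      by_contra h3
      by_cases h4 : e = N.opp e1
      · exact c2 (h4 ▸ h1)
      · exact h2 (hsame e h3 h4 h1)
  · by_cases c2 : χ (Sum.inl (N.vert (N.opp e1)))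
    · refine hcut (fun v => χ (Sum.inl v)) (N.opp e1) ⟨c2, by rwa [N.opp_opp], ?_⟩
      intro e h1 h2
      by_contra h3
      by_cases h4 : e = e1
      · exact c1 (h4 ▸ h1)
      · exact h2 (hsame e h4 h3 h1)
    · apply hself'
      rw [← hmain e1, if_neg c1, if_neg c2, sub_self]

end ins

/-! ### The simple bipartite cover -/

section bip

variable (N : EndGraph V E)

open Classical in
noncomputable def stp (e : E) : E → ZMod 3 :=
  fun e' => (if e' = e then 1 else 0) - (if e' = N.opp e then 1 else 0)

theorem stp_opp (e : E) : N.stp (N.opp e) = - N.stp e := by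
  classical
  funext e'
  simp only [stp, Pi.neg_apply]
  have h : e' = N.opp (N.opp e) ↔ e' = e := by rw [N.opp_opp]
  rw [if_congr h rfl rfl]
  ring

theorem stp_inj (hN : ∀ e, N.opp e ≠ e) (e e' : E) (h : N.stp e = N.stp e') : e = e' := by
  classical
  by_contra hne
  have h1 := congrFun h e
  unfold stp at h1
  rw [if_pos rfl, if_neg (hN e).symm, if_neg hne] at h1
  by_cases h2 : e = N.opp e'
  · rw [if_pos h2] at h1
    revert h1
    decide
  · rw [if_neg h2] at h1
    revert h1
    decide

noncomputable def bip : EndGraph (V × ((E → ZMod 3) × ZMod 2)) (E × ((E → ZMod 3) × ZMod 2)) :=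
  N.lift (fun e x => (x.1 + N.stp e, x.2 + 1)) (by
    intro e x
    ext
    · simp [stp_opp]
    · simp only
      rw [add_assoc, show (1 + 1 : ZMod 2) = 0 from rfl, add_zero])

theorem bip_simple (hN : ∀ e, N.opp e ≠ e) : N.bip.IsSimple := by
  constructor
  · rintro ⟨e, x, y⟩ h
    simp only [bip, lift, Prod.mk.injEq] at h
    have := h.2.2
    clear h
    revert y
    decide
  · rintro ⟨e, x⟩ ⟨e', x'⟩ h h'
    simp only [bip, lift, Prod.mk.injEq] at h h'
    obtain ⟨h1, h2⟩ := h
    subst h2
    have h3 : N.stp e = N.stp e' := by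
      have := h'.2.1
      simpa using this
    rw [stp_inj N hN e e' h3]

def sgn : V × ((E → ZMod 3) × ZMod 2) → ZMod 3 := fun v => if v.2.2 = 0 then 1 else -1

theorem sgn_mul (v : V × ((E → ZMod 3) × ZMod 2)) : sgn v * sgn v = 1 := by
  unfold sgn
  split_ifs <;> decide

theorem sgn_opp (p : E × ((E → ZMod 3) × ZMod 2)) :
    sgn (N.bip.vert (N.bip.opp p)) = - sgn (N.bip.vert p) := by
  obtain ⟨e, x, y⟩ := p
  have h : ∀ y : ZMod 2, (if y + 1 = 0 then (1 : ZMod 3) else -1) =
      - (if y = 0 then (1 : ZMod 3) else -1) := by decide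
  exact h y

end bip

/-! ### Step 2: removing the 1-edge-cuts with a Petersen pattern -/

/-- 1-edge-cuts of a lift project to 1-edge-cuts of the base. -/
theorem lift_oneCut [Fintype F] (A : EndGraph V E) (hA : ∀ e, A.opp e ≠ e) (t : E → F → F)
    (h : ∀ e x, t (A.opp e) (t e x) = x) (χ : V × F → Prop) (ε : E) (x₀ : F)
    (hcut : (A.lift t h).OneCut χ (ε, x₀)) : ∃ χ' : V → Prop, A.OneCut χ' ε := by
  classical
  have h' : ∀ e x, t e (t (A.opp e) x) = x := by
    intro e x
    have := h (A.opp e) x
    rwa [A.opp_opp] at this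
  let m : V → ℕ := fun v => (Finset.univ.filter (fun x => χ (v, x))).card
  have hm1 : ∀ e, e ≠ ε → e ≠ A.opp ε → m (A.vert e) = m (A.vert (A.opp e)) := by
    intro e h1 h2
    have hiff : ∀ x, χ (A.vert e, x) ↔ χ (A.vert (A.opp e), t e x) := by
      intro x
      have := hcut.iff (e, x) (by
        intro h3
        exact h1 (congrArg Prod.fst h3)) (by
        intro h3
        exact h2 (congrArg Prod.fst h3))
      exact this
    refine Finset.card_bij (fun x _ => t e x) ?_ ?_ ?_
    · intro x hx
      simp only [Finset.mem_filter, Finset.mem_univ, true_and] at hx ⊢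
      exact (hiff x).1 hx
    · intro x _ y _ hxy
      rw [← h e x, hxy, h]
    · intro y hy
      simp only [Finset.mem_filter, Finset.mem_univ, true_and] at hy
      refine ⟨t (A.opp e) y, ?_, h' e y⟩
      simp only [Finset.mem_filter, Finset.mem_univ, true_and]
      rw [hiff, h' e y]
      exact hy
  have hm2 : m (A.vert (A.opp ε)) < m (A.vert ε) := by
    have h1 : (Finset.univ.filter (fun x => χ (A.vert (A.opp ε), x))).card =
        ((Finset.univ.filter (fun x => χ (A.vert (A.opp ε), x))).image (t (A.opp ε))).card := by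
      rw [Finset.card_image_of_injOn]
      intro x _ y _ hxy
      rw [← h' ε x, hxy, h']
    simp only [m]
    rw [h1]
    refine Finset.card_lt_card ?_
    rw [Finset.ssubset_iff_of_subset]
    · refine ⟨x₀, ?_, ?_⟩
      · simp only [Finset.mem_filter, Finset.mem_univ, true_and]
        exact hcut.1
      · simp only [Finset.mem_image, Finset.mem_filter, Finset.mem_univ, true_and, not_exists,
          not_and]
        intro y hy hxy
        apply hcut.2.1
        have : y = t ε x₀ := by rw [← hxy, h']
        rw [this] at hy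
        exact hy
    · intro x hx
      simp only [Finset.mem_image, Finset.mem_filter, Finset.mem_univ, true_and] at hx ⊢
      obtain ⟨y, hy, rfl⟩ := hx
      by_contra hcon
      have h2 := hcut.2.2 (A.opp ε, y) hy (by
        have : (A.lift t h).vert ((A.lift t h).opp (A.opp ε, y)) =
          (A.vert ε, t (A.opp ε) y) := by
          simp [lift, A.opp_opp]
        rw [this]
        exact hcon)
      exact hA ε (congrArg Prod.fst h2)
  refine ⟨fun v => m (A.vert (A.opp ε)) < m v, hm2, lt_irrefl _, ?_⟩
  intro e h1 h2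
  by_contra h3
  by_cases h4 : e = A.opp ε
  · subst h4
    exact lt_irrefl _ h1
  · rw [hm1 e h3 h4] at h1
    exact h2 h1

set_option synthInstance.maxSize 100000 in
theorem petersen : ∀ (P X Y : ZMod 5 → Fin 3),
    (∀ i, P i ≠ X i ∧ P i ≠ X (i - 1) ∧ X i ≠ X (i - 1)) →
    (∀ i, P i ≠ Y i ∧ P i ≠ Y (i - 2) ∧ Y i ≠ Y (i - 2)) → False := by
  intro P X Y h1 h2
  have e0 := h1 0
  have e1 := h1 1
  have e2 := h1 2
  have e3 := h1 3
  have e4 := h1 4
  have f0 := h2 0
  have f1 := h2 1
  have f2 := h2 2
  have f3 := h2 3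
  have f4 := h2 4
  simp only [show (0 - 1 : ZMod 5) = 4 from rfl, show (1 - 1 : ZMod 5) = 0 from rfl,
    show (2 - 1 : ZMod 5) = 1 from rfl, show (3 - 1 : ZMod 5) = 2 from rfl,
    show (4 - 1 : ZMod 5) = 3 from rfl, show (0 - 2 : ZMod 5) = 3 from rfl,
    show (1 - 2 : ZMod 5) = 4 from rfl, show (2 - 2 : ZMod 5) = 0 from rfl,
    show (3 - 2 : ZMod 5) = 1 from rfl, show (4 - 2 : ZMod 5) = 2 from rfl] at *
  clear h1 h2
  have third : ∀ p x y : Fin 3, p ≠ x ∧ p ≠ y ∧ x ≠ y → p = - (x + y) := by decide
  have key : ∀ X0 X1 X2 X3 X4 : Fin 3,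
      (X0 ≠ X4 ∧ X1 ≠ X0 ∧ X2 ≠ X1 ∧ X3 ≠ X2 ∧ X4 ≠ X3) →
      ∀ Y0 Y1 Y2 Y3 Y4 : Fin 3,
      (Y0 ≠ Y3 ∧ Y1 ≠ Y4 ∧ Y2 ≠ Y0 ∧ Y3 ≠ Y1 ∧ Y4 ≠ Y2) →
      ¬ (- (X0 + X4) = - (Y0 + Y3) ∧ - (X1 + X0) = - (Y1 + Y4) ∧ - (X2 + X1) = - (Y2 + Y0) ∧
        - (X3 + X2) = - (Y3 + Y1) ∧ - (X4 + X3) = - (Y4 + Y2)) := by
    decide +kernel
  refine key (X 0) (X 1) (X 2) (X 3) (X 4) ⟨e0.2.2, e1.2.2, e2.2.2, e3.2.2, e4.2.2⟩
    (Y 0) (Y 1) (Y 2) (Y 3) (Y 4) ⟨f0.2.2, f1.2.2, f2.2.2, f3.2.2, f4.2.2⟩ ?_
  rw [← third _ _ _ e0, ← third _ _ _ e1, ← third _ _ _ e2, ← third _ _ _ e3,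
    ← third _ _ _ e4, ← third _ _ _ f0, ← third _ _ _ f1, ← third _ _ _ f2,
    ← third _ _ _ f3, ← third _ _ _ f4]
  exact ⟨rfl, rfl, rfl, rfl, rfl⟩

theorem exists_noOneCut [Fintype V] [Fintype E] (A : EndGraph V E) (hcub : A.Cubic)
    (hA : ∀ e, A.opp e ≠ e) (hcol : ¬ A.Colorable3) :
    ∃ (V₁ E₁ : Type) (_ : Fintype V₁) (_ : Fintype E₁) (N : EndGraph V₁ E₁),
      Cov N A ∧ (∀ e, N.opp e ≠ e) ∧ N.NoOneCut ∧ ¬ N.Colorable3 := by
  classical
  by_cases hno : A.NoOneCut
  · exact ⟨V, E, inferInstance, inferInstance, A, Cov.refl A, hA, hno, hcol⟩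
  -- a minimal vertex set with a single leaving end
  obtain ⟨S, ⟨e₀, hS⟩, hmin⟩ : ∃ S : Finset V, (∃ z, A.OneCut (fun v => v ∈ S) z) ∧
      ∀ T : Finset V, T.card < S.card → ∀ z, ¬ A.OneCut (fun v => v ∈ T) z := by
    have hne : {S : Finset V | ∃ z, A.OneCut (fun v => v ∈ S) z}.Nonempty := by
      simp only [NoOneCut, not_forall, not_not] at hno
      obtain ⟨χ, z, hz⟩ := hno
      refine ⟨Finset.univ.filter χ, z, ?_⟩
      simpa [OneCut] using hz
    obtain ⟨S, hS, hmin⟩ := WellFounded.has_min
      (measure (Finset.card : Finset V → ℕ)).wf _ hne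
    refine ⟨S, hS, ?_⟩
    intro T hT z hz
    exact hmin T ⟨z, hz⟩ hT
  -- an inner end
  obtain ⟨g, hg1, hg2⟩ : ∃ g, A.vert g ∈ S ∧ A.vert (A.opp g) ∈ S := by
    have h3 : 1 < Fintype.card {e : E // A.vert e = A.vert e₀} := by
      rw [← Nat.card_eq_fintype_card, hcub]
      norm_num
    obtain ⟨⟨e', he'⟩, hne⟩ := Fintype.exists_ne_of_one_lt_card h3 ⟨e₀, rfl⟩
    refine ⟨e', he' ▸ hS.1, ?_⟩
    by_contra hcon
    apply hne
    ext
    exact hS.2.2 e' (he' ▸ hS.1) hcon
  let inner : E → Prop := fun e => A.vert e ∈ S ∧ A.vert (A.opp e) ∈ S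
  have inner_opp : ∀ e, inner (A.opp e) ↔ inner e := by
    intro e
    simp only [inner, A.opp_opp]
    tauto
  have hginner : inner g := ⟨hg1, hg2⟩
  let s : ZMod 2 → ZMod 5 := fun a => if a = 0 then 1 else 2
  let β : E → ZMod 2 → ZMod 5 := fun e a =>
    if e = g then s a else if e = A.opp g then - s a else 0
  have hβ : ∀ e a, β (A.opp e) a = - β e a := by
    intro e a
    simp only [β]
    by_cases h1 : e = g
    · subst h1
      simp [hA]
    · by_cases h2 : e = A.opp g
      · subst h2
        simp [A.opp_opp, hA]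
      · have h3 : A.opp e ≠ g := by
          rintro rfl
          exact h2 (A.opp_opp e).symm
        have h4 : A.opp e ≠ A.opp g := by
          intro h
          apply h1
          rw [← A.opp_opp e, h, A.opp_opp]
        simp [h1, h2, h3, h4]
  have hs0 : ∀ a, s a ≠ 0 := by
    intro a
    simp only [s]
    split_ifs <;> decide
  let t : E → ZMod 2 × ZMod 5 → ZMod 2 × ZMod 5 := fun e x =>
    if inner e then (x.1, x.2 + β e x.1) else (x.1 + 1, x.2)
  have ht : ∀ e x, t (A.opp e) (t e x) = x := by
    rintro e ⟨a, i⟩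
    by_cases h1 : inner e
    · simp only [t, if_pos h1, if_pos ((inner_opp e).2 h1), hβ]
      simp
    · have h2 : ¬ inner (A.opp e) := fun h => h1 ((inner_opp e).1 h)
      simp only [t, if_neg h1, if_neg h2]
      rw [add_assoc, show (1 + 1 : ZMod 2) = 0 from rfl, add_zero]
  have hNsemi : ∀ e, (A.lift t ht).opp e ≠ e := by
    rintro ⟨e, x⟩ h
    exact hA e (congrArg Prod.fst h)
  have hcov := lift_cov A t ht
  have hNcub : (A.lift t ht).Cubic := hcov.cubic hcub
  have he₀ : ¬ inner e₀ := fun h => hS.2.1 h.2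
  have he₀' : ¬ inner (A.opp e₀) := fun h => he₀ ((inner_opp e₀).1 h)
  have hout : ∀ e, A.vert e ∈ S → ¬ inner e → e = e₀ := by
    intro e h1 h2
    exact hS.2.2 e h1 (fun h3 => h2 ⟨h1, h3⟩)
  refine ⟨_, _, inferInstance, inferInstance, A.lift t ht, hcov, hNsemi, ?_, ?_⟩
  · -- no 1-cut
    rintro χ ⟨ε, x₀⟩ hz
    by_cases hε : inner ε
    · obtain ⟨χ', hχ'⟩ := lift_oneCut A hA t ht χ ε x₀ hz
      by_cases hu : χ' (A.vert e₀)
      · -- use `S \ χ'`
        refine hmin (S.filter (fun v => ¬ χ' v)) ?_ (A.opp ε) ⟨?_, ?_, ?_⟩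
        · refine Finset.card_lt_card ?_
          rw [Finset.ssubset_iff_of_subset (Finset.filter_subset _ _)]
          exact ⟨A.vert ε, hε.1, by simp [hχ'.1]⟩
        · simp [hε.2, hχ'.2.1]
        · simp [A.opp_opp, hχ'.1]
        · intro e h1 h2
          simp only [Finset.mem_filter, not_and, not_not] at h1 h2
          by_cases h3 : A.vert (A.opp e) ∈ S
          · have h4 := hχ'.2.2 (A.opp e) (h2 h3) (by rw [A.opp_opp]; exact h1.2)
            rw [← h4, A.opp_opp]
          · exfalso
            have := hS.2.2 e h1.1 h3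
            subst this
            exact h1.2 hu
      · -- use `S ∩ χ'`
        refine hmin (S.filter χ') ?_ ε ⟨?_, ?_, ?_⟩
        · refine Finset.card_lt_card ?_
          rw [Finset.ssubset_iff_of_subset (Finset.filter_subset _ _)]
          exact ⟨A.vert (A.opp ε), hε.2, by simp [hχ'.2.1]⟩
        · simp [hε.1, hχ'.1]
        · simp [hχ'.2.1]
        · intro e h1 h2
          simp only [Finset.mem_filter, not_and] at h1 h2
          by_cases h3 : A.vert (A.opp e) ∈ S
          · exact hχ'.2.2 e h1.2 (h2 h3)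
          · exfalso
            have := hS.2.2 e h1.1 h3
            subst this
            exact hu h1.2
    · -- `ε` is not an inner end
      have hinner : ∀ e x, inner e → (χ (A.vert e, x) ↔ χ (A.vert (A.opp e), t e x)) := by
        intro e x he
        refine hz.iff (e, x) ?_ ?_
        · intro h
          apply hε
          have h' : e = ε := congrArg Prod.fst h
          rw [← h']
          exact he
        · intro h
          apply hε
          have h' : e = A.opp ε := congrArg Prod.fst h
          rw [← inner_opp, ← h']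
          exact he
      have pure : ∀ x, ∀ v ∈ S, (χ (v, x) ↔ χ (A.vert e₀, x)) := by
        intro x v hv
        by_contra hcon
        let T := S.filter (fun v => ¬ (χ (v, x) ↔ χ (A.vert e₀, x)))
        have hvT : v ∈ T := by simp [T, hv, hcon]
        have huT : A.vert e₀ ∉ T := by simp [T]
        have hTS : T.card < S.card := by
          refine Finset.card_lt_card ?_
          rw [Finset.ssubset_iff_of_subset (Finset.filter_subset _ _)]
          exact ⟨A.vert e₀, hS.1, huT⟩
        -- leaving ends of `T` are `g` or `opp g`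
        have hTcut : ∀ e, A.vert e ∈ T → A.vert (A.opp e) ∉ T → e = g ∨ e = A.opp g := by
          intro e h1 h2
          have h3 : A.vert e ∈ S := (Finset.mem_filter.1 h1).1
          have h4 : A.vert (A.opp e) ∈ S := by
            by_contra h4
            have := hS.2.2 e h3 h4
            subst this
            exact huT h1
          by_contra h5
          push Not at h5
          have h6 : β e x.1 = 0 := by simp [β, h5.1, h5.2]
          have h7 := hinner e x ⟨h3, h4⟩
          simp only [t, if_pos (show inner e from ⟨h3, h4⟩), h6, add_zero] at h7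
          apply h2
          simp only [T, Finset.mem_filter] at h1 ⊢
          refine ⟨h4, ?_⟩
          rw [← h7]
          exact h1.2
        by_cases c1 : A.vert g ∈ T ∧ A.vert (A.opp g) ∉ T
        · refine hmin T hTS g ⟨c1.1, c1.2, ?_⟩
          intro e h1 h2
          rcases hTcut e h1 h2 with h | h
          · exact h
          · exact absurd (h ▸ h1) c1.2
        · by_cases c2 : A.vert (A.opp g) ∈ T ∧ A.vert g ∉ T
          · refine hmin T hTS (A.opp g) ⟨c2.1, by rw [A.opp_opp]; exact c2.2, ?_⟩
            intro e h1 h2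
            rcases hTcut e h1 h2 with h | h
            · exact absurd (h ▸ h1) c2.2
            · exact h
          · -- no leaving ends at all
            have hnone : ∀ e, A.vert e ∈ T → A.vert (A.opp e) ∈ T := by
              intro e h1
              by_contra h2
              rcases hTcut e h1 h2 with h | h
              · subst h
                exact c1 ⟨h1, h2⟩
              · subst h
                rw [A.opp_opp] at h2
                exact c2 ⟨h1, h2⟩
            refine hmin (S \ T) ?_ e₀ ⟨?_, ?_, ?_⟩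
            · refine Finset.card_lt_card ?_
              rw [Finset.ssubset_iff_of_subset Finset.sdiff_subset]
              exact ⟨v, hv, by simp [hvT]⟩
            · simp [hS.1, huT]
            · intro h
              exact hS.2.1 (Finset.mem_sdiff.1 h).1
            · intro e h1 h2
              simp only [Finset.mem_sdiff] at h1 h2
              refine hS.2.2 e h1.1 ?_
              intro h3
              have h4 : A.vert (A.opp e) ∈ T := by
                by_contra h4
                exact h2 ⟨h3, h4⟩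
              have := hnone _ h4
              rw [A.opp_opp] at this
              exact h1.2 this
      have hgstep : ∀ b i, (χ (A.vert e₀, (b, i)) ↔ χ (A.vert e₀, (b, i + s b))) := by
        intro b i
        have h1 := hinner g (b, i) hginner
        simp only [t, if_pos hginner, β, if_true] at h1
        rw [← pure (b, i) _ hg1, h1, pure _ _ hg2]
      have hstep : ∀ b i, (χ (A.vert e₀, (b, i)) ↔ χ (A.vert e₀, (b, i + 1))) := by
        intro b i
        by_cases hb : b = 0
        · have := hgstep b i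
          simpa only [s, if_pos hb] using this
        · have h1 := hgstep b i
          have h2 := hgstep b (i + s b)
          have h3 := hgstep b (i + s b + s b)
          have h4 : i + s b + s b + s b = i + 1 := by
            simp only [s, if_neg hb]
            rw [add_assoc, add_assoc]
            congr 1
          rw [h4] at h3
          rw [h1, h2, h3]
      obtain ⟨a₀, i₀⟩ := x₀
      -- the flow
      let sg : ZMod 2 → ZMod 3 := fun b => if b = 0 then 1 else -1
      have hsg : ∀ b, sg (b + 1) = - sg b := by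
        have : ∀ b : ZMod 2, (if b + 1 = 0 then (1 : ZMod 3) else -1) =
          - (if b = 0 then (1 : ZMod 3) else -1) := by decide
        exact this
      let cf : ZMod 2 × ZMod 5 → ZMod 3 := fun x =>
        sg x.1 * ((if x.2 = i₀ then 1 else 0) - (if x.2 = i₀ + 1 then 1 else 0))
      let w : E × (ZMod 2 × ZMod 5) → ZMod 3 := fun p => if inner p.1 then 0 else cf p.2
      have hw : ∀ p, w ((A.lift t ht).opp p) = - w p := by
        rintro ⟨e, x⟩
        by_cases h1 : inner e
        · have h2 : inner (A.opp e) := (inner_opp e).2 h1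
          simp only [lift, w, if_pos h1, if_pos h2, neg_zero]
        · have h2 : ¬ inner (A.opp e) := fun h => h1 ((inner_opp e).1 h)
          simp only [lift, w, if_neg h1, if_neg h2, t, cf, hsg]
          ring
      have hsum := sum_antisymm (A.lift t ht) w hw χ (ε, (a₀, i₀)) hz
      have hsplit : ∀ p : E × (ZMod 2 × ZMod 5),
          (if χ ((A.lift t ht).vert p) then w p else 0) =
          (fun v : V × (ZMod 2 × ZMod 5) => if v.1 ∉ S ∧ χ v then cf v.2 else 0)
            ((A.lift t ht).vert p) +
          (if p.1 = e₀ then (if χ (A.vert e₀, p.2) then cf p.2 else 0) else 0) := by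
        rintro ⟨e, x⟩
        simp only [lift, w]
        by_cases h1 : inner e
        · have h2 : e ≠ e₀ := by
            rintro rfl
            exact he₀ h1
          have h3 : A.vert e ∈ S := h1.1
          simp [h1, h2, h3]
        · by_cases h2 : A.vert e ∈ S
          · have h3 := hout e h2 h1
            subst h3
            simp [h1, h2]
          · have h3 : e ≠ e₀ := by
              rintro rfl
              exact h2 hS.1
            simp [h1, h2, h3]
      have hsv := sum_vert hNcub
        (fun v : V × (ZMod 2 × ZMod 5) => if v.1 ∉ S ∧ χ v then cf v.2 else 0)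
      rw [Finset.sum_congr rfl (fun p _ => hsplit p), Finset.sum_add_distrib,
        hsv, zero_add] at hsum
      have hsum2 : ∑ p : E × (ZMod 2 × ZMod 5),
          (if p.1 = e₀ then (if χ (A.vert e₀, p.2) then cf p.2 else 0) else 0) = 0 := by
        rw [Fintype.sum_prod_type]
        rw [Finset.sum_eq_single e₀]
        · simp only [if_true]
          rw [Fintype.sum_prod_type]
          refine Finset.sum_eq_zero ?_
          intro b _
          have h1 : ∀ i, (if χ (A.vert e₀, (b, i)) then cf (b, i) else 0) =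
              (if i = i₀ then (if χ (A.vert e₀, (b, i₀)) then sg b else 0) else 0) -
              (if i = i₀ + 1 then (if χ (A.vert e₀, (b, i₀)) then sg b else 0) else 0) := by
            intro i
            simp only [cf]
            have h10 : (1 : ZMod 5) ≠ 0 := by decide
            by_cases c1 : i = i₀
            · subst c1
              by_cases c2 : χ (A.vert e₀, (b, i)) <;> simp [c2, h10]
            · by_cases c2 : i = i₀ + 1
              · subst c2
                have h3 := hstep b i₀
                by_cases c3 : χ (A.vert e₀, (b, i₀))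
                · have c4 := h3.1 c3
                  simp [c3, c4, h10]
                · have c4 : ¬ χ (A.vert e₀, (b, i₀ + 1)) := fun h => c3 (h3.2 h)
                  simp [c3, c4]
              · simp [c1, c2]
          rw [Finset.sum_congr rfl (fun i _ => h1 i), Finset.sum_sub_distrib]
          simp only [Finset.sum_ite_eq', Finset.mem_univ, if_true, sub_self]
        · intro e _ he
          simp [he]
        · intro h
          exact absurd (Finset.mem_univ _) h
      rw [hsum2] at hsum
      simp only [w, if_neg hε, cf, if_true] at hsum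
      have hne : ∀ j : ZMod 5, j ≠ j + 1 := by decide
      rw [if_neg (hne i₀), sub_zero, mul_one] at hsum
      simp only [sg] at hsum
      split_ifs at hsum <;> revert hsum <;> decide
  · -- not 3-edge-colourable
    rintro ⟨c, hc1, hc2⟩
    have par := fun χ K hK => parity hNcub hNsemi c hc1 hc2 χ K hK
    have hP : ∀ i, c (A.opp e₀, (0, i)) = c (A.opp e₀, (1, i)) := by
      intro i
      have h1 := par (fun v => v.1 ∉ S ∧ v.2.2 = i)
        {(A.opp e₀, ((0 : ZMod 2), i)), (A.opp e₀, ((1 : ZMod 2), i))} (by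
          rintro ⟨e, a, j⟩
          have h01 : ∀ a : ZMod 2, a = 0 ∨ a = 1 := by decide
          simp only [Finset.mem_insert, Finset.mem_singleton, Prod.mk.injEq, lift]
          constructor
          · rintro (⟨rfl, rfl, rfl⟩ | ⟨rfl, rfl, rfl⟩)
            · refine ⟨⟨hS.2.1, rfl⟩, ?_⟩
              rw [A.opp_opp]
              exact fun h => h.1 hS.1
            · refine ⟨⟨hS.2.1, rfl⟩, ?_⟩
              rw [A.opp_opp]
              exact fun h => h.1 hS.1
          · rintro ⟨⟨h1, h2⟩, h3⟩
            subst h2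
            have h4 : ¬ inner e := fun h => h1 h.1
            simp only [t, if_neg h4, and_true, not_not] at h3
            have h5 := hS.2.2 (A.opp e) h3 (by rw [A.opp_opp]; exact h1)
            have h6 : e = A.opp e₀ := by rw [← h5, A.opp_opp]
            rcases h01 a with h | h
            · exact Or.inl ⟨h6, h, rfl⟩
            · exact Or.inr ⟨h6, h, rfl⟩)
      have hne : (A.opp e₀, ((0 : ZMod 2), i)) ≠ (A.opp e₀, ((1 : ZMod 2), i)) := by
        intro h
        simp only [Prod.mk.injEq, true_and, and_true] at h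
        exact absurd h (by decide)
      simp only [Finset.sum_pair hne] at h1
      obtain ⟨r, hr⟩ : ∃ r : ZMod 2, ∀ k : Fin 3,
          (if c (A.opp e₀, (0, i)) = k then (1 : ZMod 2) else 0) +
          (if c (A.opp e₀, (1, i)) = k then (1 : ZMod 2) else 0) = r := ⟨_, h1⟩
      revert hr
      generalize c (A.opp e₀, (0, i)) = a
      generalize c (A.opp e₀, (1, i)) = b
      clear h1
      revert a b r
      decide
    have hP' : ∀ a i, c (e₀, (a, i)) = c (A.opp e₀, (0, i)) := by
      intro a i
      have h1 : c (e₀, (a, i)) = c (A.opp e₀, (a + 1, i)) := by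
        rw [← hc1 (e₀, (a, i))]
        simp only [lift, t, if_neg he₀]
      have h01 : ∀ a : ZMod 2, a = 0 ∨ a = 1 := by decide
      rcases h01 a with rfl | rfl
      · rw [h1, zero_add, hP]
      · rw [h1, show (1 + 1 : ZMod 2) = 0 from rfl]
    have hT : ∀ a i, c (e₀, (a, i)) ≠ c (g, (a, i)) ∧ c (e₀, (a, i)) ≠ c (A.opp g, (a, i)) ∧
        c (g, (a, i)) ≠ c (A.opp g, (a, i)) := by
      intro a i
      have hge : g ≠ e₀ := by
        rintro rfl
        exact he₀ hginner
      have hge' : A.opp g ≠ e₀ := by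
        rintro h
        exact he₀ (h ▸ (inner_opp g).2 hginner)
      have h1 := par (fun v => v.1 ∈ S ∧ v.2 = (a, i))
        {(e₀, (a, i)), (g, (a, i)), (A.opp g, (a, i))} (by
          rintro ⟨e, x⟩
          simp only [Finset.mem_insert, Finset.mem_singleton, Prod.mk.injEq, lift]
          constructor
          · rintro (⟨rfl, rfl⟩ | ⟨rfl, rfl⟩ | ⟨rfl, rfl⟩)
            · exact ⟨⟨hS.1, rfl⟩, fun h => hS.2.1 h.1⟩
            · refine ⟨⟨hg1, rfl⟩, ?_⟩
              rintro ⟨_, h⟩
              simp only [t, if_pos hginner, Prod.mk.injEq, β, if_true, true_and] at h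
              exact hs0 a (by simpa using h)
            · refine ⟨⟨hg2, rfl⟩, ?_⟩
              rintro ⟨_, h⟩
              have hb : β (A.opp g) a = - s a := by
                rw [hβ]
                simp only [β, if_true]
              simp only [t, if_pos ((inner_opp g).2 hginner), Prod.mk.injEq, hb,
                true_and] at h
              exact hs0 a (by simpa using h)
          · rintro ⟨⟨h1, h2⟩, h3⟩
            subst h2
            by_cases h4 : inner e
            · by_cases h5 : e = g
              · exact Or.inr (Or.inl ⟨h5, rfl⟩)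
              · by_cases h6 : e = A.opp g
                · exact Or.inr (Or.inr ⟨h6, rfl⟩)
                · exfalso
                  apply h3
                  refine ⟨h4.2, ?_⟩
                  simp [t, if_pos h4, β, h5, h6]
            · exact Or.inl ⟨hout e h1 h4, rfl⟩)
      have hne1 : (e₀, (a, i)) ∉ ({(g, (a, i)), (A.opp g, (a, i))} :
          Finset (E × (ZMod 2 × ZMod 5))) := by
        simp [hge.symm, hge'.symm]
      have hne2 : (g, (a, i)) ≠ (A.opp g, (a, i)) := by
        intro h
        exact hA g (congrArg Prod.fst h).symm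
      simp only [Finset.sum_insert hne1, Finset.sum_pair hne2] at h1
      obtain ⟨r, hr⟩ : ∃ r : ZMod 2, ∀ k : Fin 3,
          (if c (e₀, (a, i)) = k then (1 : ZMod 2) else 0) +
          ((if c (g, (a, i)) = k then (1 : ZMod 2) else 0) +
          (if c (A.opp g, (a, i)) = k then (1 : ZMod 2) else 0)) = r := ⟨_, h1⟩
      revert hr
      generalize c (e₀, (a, i)) = u
      generalize c (g, (a, i)) = v
      generalize c (A.opp g, (a, i)) = w
      clear h1
      revert u v w r
      decide
    have hG : ∀ a i, c (A.opp g, (a, i + s a)) = c (g, (a, i)) := by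
      intro a i
      rw [← hc1 (g, (a, i))]
      simp only [lift, t, if_pos hginner, β, if_true]
    refine petersen (fun i => c (A.opp e₀, (0, i))) (fun i => c (g, (0, i)))
      (fun i => c (g, (1, i))) ?_ ?_
    · intro i
      have h1 := hT 0 i
      have h2 := hG 0 (i - 1)
      rw [hP'] at h1
      have h3 : i - 1 + s 0 = i := by simp [s]
      rw [h3] at h2
      rw [h2] at h1
      exact h1
    · intro i
      have h1 := hT 1 i
      have h2 := hG 1 (i - 2)
      rw [hP'] at h1
      have h3 : i - 2 + s 1 = i := by simp [s]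
      rw [h3] at h2
      rw [h2] at h1
      exact h1

/-- Steps 3: from a graph without semi-edges and 1-cuts to a simple one. -/
theorem exists_simple [Fintype V] [Fintype E] (N : EndGraph V E) (hcub : N.Cubic)
    (hN : ∀ e, N.opp e ≠ e) (hcut : N.NoOneCut) (hcol : ¬ N.Colorable3) :
    ∃ (V₁ E₁ : Type) (_ : Fintype V₁) (_ : Fintype E₁) (G : EndGraph V₁ E₁),
      Cov G N ∧ G.IsSimple ∧ G.NoOneCut ∧ ¬ G.Colorable3 := by
  classical
  have hB := (N.bip_simple hN).noSemi
  have hBc : N.bip.Cubic := (lift_cov N _ _).cubic hcub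
  let σ : E → E × ((E → ZMod 3) × ZMod 2) := fun e => (e, 0)
  have hcov : Cov (ins N N.bip σ hB) N := by
    refine ins_cov N N.bip σ hB Prod.fst Prod.fst (fun _ => rfl) (fun _ => rfl) ?_ ?_
      (fun _ => rfl)
    · rintro ⟨v, x⟩ e h
      exact ⟨(e, x), by simp only [bip, lift]; rw [h], rfl⟩
    · rintro ⟨e, x⟩ ⟨e', x'⟩ h h'
      simp only [bip, lift, Prod.mk.injEq] at h h'
      ext1
      · exact h'
      · exact h.2
  refine ⟨_, _, inferInstance, inferInstance, ins N N.bip σ hB, hcov,
    ins_simple N _ σ hB hN (N.bip_simple hN),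
    ins_noOneCut N _ σ hB hN hcut hBc sgn sgn_mul N.sgn_opp,
    ins_not_colorable N _ σ hB hN (hcov.cubic hcub) (ins_simple N _ σ hB hN (N.bip_simple hN))
      hcol⟩

/-! ### Step 4: passing to a component, as a simple graph -/

/-- the simple graph underlying a simple end graph -/
def toSimple (G : EndGraph V E) (hs : G.IsSimple) : SimpleGraph V where
  Adj v w := ∃ e, G.vert e = v ∧ G.vert (G.opp e) = w
  symm := ⟨by rintro v w ⟨e, h1, h2⟩; exact ⟨G.opp e, h2, by rw [G.opp_opp, h1]⟩⟩
  loopless := ⟨by rintro v ⟨e, h1, h2⟩; exact hs.loopless e (by rw [h2, h1])⟩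

theorem toSimple_adj (G : EndGraph V E) (hs : G.IsSimple) (e : E) :
    (G.toSimple hs).Adj (G.vert e) (G.vert (G.opp e)) := ⟨e, rfl, rfl⟩

theorem two_ends (G : EndGraph V E) (hs : G.IsSimple) (hcut : G.NoOneCut) (T : V → Prop)
    (w x : V) (hw : ¬ T w) (hx : T x) (hxw : (G.toSimple hs).Reachable x w)
    (hT : ∀ e, T (G.vert e) → ¬ T (G.vert (G.opp e)) → G.vert (G.opp e) = w) :
    ∃ e₁ e₂, e₁ ≠ e₂ ∧ G.vert e₁ = w ∧ G.vert e₂ = w ∧ T (G.vert (G.opp e₁)) ∧
      T (G.vert (G.opp e₂)) := by
  obtain ⟨e₁, h1, h2⟩ : ∃ e₁, G.vert e₁ = w ∧ T (G.vert (G.opp e₁)) := by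
    by_contra hcon
    push Not at hcon
    have hclosed : ∀ v v', (G.toSimple hs).Adj v v' → T v → T v' := by
      rintro v v' ⟨e, rfl, rfl⟩ hv
      by_contra hv'
      have h1 := hT e hv hv'
      apply hcon (G.opp e) h1
      rw [G.opp_opp]
      exact hv
    obtain ⟨p⟩ := hxw
    have hwalk : ∀ {a b : V} (_ : (G.toSimple hs).Walk a b), T a → T b := by
      intro a b p
      induction p with
      | nil => exact fun h => h
      | cons h _ ih => exact fun ha => ih (hclosed _ _ h ha)
    exact hw (hwalk p hx)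
  by_contra hcon
  push Not at hcon
  refine hcut T (G.opp e₁) ⟨h2, by rw [G.opp_opp, h1]; exact hw, ?_⟩
  intro e h3 h4
  have h5 := hT e h3 h4
  by_contra h6
  have h7 : e₁ ≠ G.opp e := by
    rintro rfl
    exact h6 (by rw [G.opp_opp])
  exact hcon e₁ (G.opp e) h7 h1 h5 h2 (by rw [G.opp_opp]; exact h3)

theorem exists_component [Fintype V] [Fintype E] (G : EndGraph V E) (hs : G.IsSimple)
    (hcub : G.Cubic) (hcut : G.NoOneCut) (hcol : ¬ G.Colorable3) (A : EndGraph V' E')
    (hA : Cov G A) :
    ∃ (W : Type) (_ : Finite W) (H : SimpleGraph W),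
      TwoConnected H ∧ ¬ H.lineGraph.Colorable 3 ∧ A.CoveredBy H := by
  classical
  obtain ⟨K, hK⟩ : ∃ K : (G.toSimple hs).ConnectedComponent, ¬ ∃ c : E → Fin 3,
      (∀ e, G.vert e ∈ K.supp → c (G.opp e) = c e) ∧
      ∀ e e', G.vert e ∈ K.supp → G.vert e = G.vert e' → c e = c e' → e = e' := by
    by_contra hcon
    push Not at hcon
    choose c hc1 hc2 using hcon
    apply hcol
    refine ⟨fun e => c ((G.toSimple hs).connectedComponentMk (G.vert e)) e, ?_, ?_⟩
    · intro e
      have h1 : (G.toSimple hs).connectedComponentMk (G.vert (G.opp e)) =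
          (G.toSimple hs).connectedComponentMk (G.vert e) :=
        SimpleGraph.ConnectedComponent.sound (G.toSimple_adj hs e).symm.reachable
      change c ((G.toSimple hs).connectedComponentMk (G.vert (G.opp e))) (G.opp e) =
        c ((G.toSimple hs).connectedComponentMk (G.vert e)) e
      rw [h1]
      exact hc1 _ e rfl
    · intro e e' h h'
      refine hc2 _ e e' rfl h ?_
      change c ((G.toSimple hs).connectedComponentMk (G.vert e)) e =
        c ((G.toSimple hs).connectedComponentMk (G.vert e')) e' at h'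
      rw [← h] at h'
      exact h'
  have hmem : ∀ e, G.vert e ∈ K → G.vert (G.opp e) ∈ K := by
    intro e he
    have he' : (G.toSimple hs).connectedComponentMk (G.vert e) = K := he
    change (G.toSimple hs).connectedComponentMk (G.vert (G.opp e)) = K
    rw [← he']
    exact SimpleGraph.ConnectedComponent.sound (G.toSimple_adj hs e).symm.reachable
  have hfin : Finite K := Subtype.finite
  have hdeg : ∀ v, Fintype.card {e : E // G.vert e = v} = 3 := by
    intro v
    rw [← Nat.card_eq_fintype_card, hcub]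
  refine ⟨K, hfin, K.toSimpleGraph, ⟨?_, K.connected_toSimpleGraph, ?_⟩, ?_, ?_⟩
  · -- at least three vertices
    obtain ⟨w⟩ := (K.connected_toSimpleGraph).nonempty
    have h1 := hcub w.1
    rw [← h1]
    refine Nat.card_le_card_of_injective
      (fun e : {e : E // G.vert e = w.1} => (⟨G.vert (G.opp e.1), hmem e.1 (by
        rw [e.2]; exact w.2)⟩ : K)) ?_
    intro e e' h
    have h' : G.vert (G.opp e.1) = G.vert (G.opp e'.1) := congrArg Subtype.val h
    exact Subtype.ext (hs.nomulti _ _ (by rw [e.2, e'.2]) h')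
  · -- no cut vertex
    intro w
    have hpre : (K.toSimpleGraph.induce {x | x ≠ w}).Preconnected := by
      intro x y
      by_contra hcon
      let R : K → Prop := fun v => ∃ h : v ≠ w,
        (K.toSimpleGraph.induce {x | x ≠ w}).Reachable x ⟨v, h⟩
      let T : V → Prop := fun v => ∃ h : v ∈ K, R ⟨v, h⟩
      let T₂ : V → Prop := fun v => ∃ h : v ∈ K, (⟨v, h⟩ : K) ≠ w ∧ ¬ R ⟨v, h⟩
      have hadj : ∀ e (h1 : G.vert e ∈ K), (⟨G.vert e, h1⟩ : K) ≠ w →
          (⟨G.vert (G.opp e), hmem e h1⟩ : K) ≠ w →
          (R ⟨G.vert e, h1⟩ ↔ R ⟨G.vert (G.opp e), hmem e h1⟩) := by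
        intro e h1 h2 h3
        have h4 : (K.toSimpleGraph.induce {x | x ≠ w}).Adj ⟨⟨G.vert e, h1⟩, h2⟩
            ⟨⟨G.vert (G.opp e), hmem e h1⟩, h3⟩ := G.toSimple_adj hs e
        constructor
        · rintro ⟨h5, h6⟩
          exact ⟨h3, h6.trans h4.reachable⟩
        · rintro ⟨h5, h6⟩
          exact ⟨h2, h6.trans h4.symm.reachable⟩
      have hreach : ∀ v : V, v ∈ K → (G.toSimple hs).Reachable v w.1 := by
        intro v hv
        exact SimpleGraph.ConnectedComponent.exact ((show _ = K from hv).trans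
          (show _ = K from w.2).symm)
      obtain ⟨a₁, a₂, ha, ha1, ha2, ha3, ha4⟩ := G.two_ends hs hcut T w.1 x.1.1
        (by rintro ⟨h1, h2, _⟩; exact h2 rfl)
        ⟨x.1.2, x.2, SimpleGraph.Reachable.refl _⟩ (hreach _ x.1.2) (by
          rintro e ⟨h1, h2⟩ h3
          by_contra h4
          apply h3
          refine ⟨hmem e h1, ?_⟩
          obtain ⟨h5, _⟩ := id h2
          rw [← hadj e h1 h5 (fun h => h4 (congrArg Subtype.val h))]
          exact h2)
      obtain ⟨b₁, b₂, hb, hb1, hb2, hb3, hb4⟩ := G.two_ends hs hcut T₂ w.1 y.1.1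
        (by rintro ⟨h1, h2, _⟩; exact h2 rfl)
        ⟨y.1.2, y.2, fun ⟨h1, h2⟩ => hcon h2⟩ (hreach _ y.1.2) (by
          rintro e ⟨h1, h2, h3⟩ h4
          by_contra h5
          apply h4
          refine ⟨hmem e h1, fun h => h5 (congrArg Subtype.val h), ?_⟩
          rw [← hadj e h1 h2 (fun h => h5 (congrArg Subtype.val h))]
          exact h3)
      have hdisj : ∀ e e', T (G.vert (G.opp e)) → T₂ (G.vert (G.opp e')) → e ≠ e' := by
        rintro e e' ⟨h1, h2⟩ ⟨h3, _, h5⟩ rfl
        exact h5 h2
      have hcard : ({(⟨a₁, ha1⟩ : {e : E // G.vert e = w.1}), ⟨a₂, ha2⟩, ⟨b₁, hb1⟩,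
          ⟨b₂, hb2⟩} : Finset {e : E // G.vert e = w.1}).card = 4 := by
        rw [Finset.card_insert_of_notMem, Finset.card_insert_of_notMem,
          Finset.card_insert_of_notMem, Finset.card_singleton]
        · simp [hb]
        · simp [hdisj _ _ ha4 hb3, hdisj _ _ ha4 hb4]
        · simp [ha, hdisj _ _ ha3 hb3, hdisj _ _ ha3 hb4]
      have hle := Finset.card_le_univ ({(⟨a₁, ha1⟩ : {e : E // G.vert e = w.1}), ⟨a₂, ha2⟩,
        ⟨b₁, hb1⟩, ⟨b₂, hb2⟩} : Finset {e : E // G.vert e = w.1})
      rw [hcard, hdeg] at hle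
      omega
    have hne : Nonempty {x : K | x ≠ w} := by
      have h1 : 0 < Fintype.card {e : E // G.vert e = w.1} := by rw [hdeg]; norm_num
      obtain ⟨⟨e, he⟩⟩ := Fintype.card_pos_iff.1 h1
      have h2 : G.vert e ∈ K := by rw [he]; exact w.2
      refine ⟨⟨⟨G.vert (G.opp e), hmem e h2⟩, ?_⟩⟩
      intro h
      have h3 : G.vert (G.opp e) = w.1 := congrArg Subtype.val h
      exact hs.loopless e (by rw [h3, he])
    exact ⟨hpre⟩
  · -- not 3-edge-colourable
    rintro ⟨C⟩
    apply hK
    have hE : ∀ e (h : G.vert e ∈ K),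
        s((⟨G.vert e, h⟩ : K), ⟨G.vert (G.opp e), hmem e h⟩) ∈ K.toSimpleGraph.edgeSet :=
      fun e h => G.toSimple_adj hs e
    refine ⟨fun e => if h : G.vert e ∈ K then C ⟨_, hE e h⟩ else 0, ?_, ?_⟩
    · intro e he
      have h1 : G.vert e ∈ K := he
      have h2 := hmem e h1
      simp only [dif_pos h1, dif_pos h2]
      congr 1
      apply Subtype.ext
      simp only [G.opp_opp]
      exact Sym2.eq_swap
    · intro e e' he h h'
      have h1 : G.vert e ∈ K := he
      have h2 : G.vert e' ∈ K := h ▸ h1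
      simp only [dif_pos h1, dif_pos h2] at h'
      by_contra hne
      have hadj : K.toSimpleGraph.lineGraph.Adj ⟨_, hE e h1⟩ ⟨_, hE e' h2⟩ := by
        rw [SimpleGraph.lineGraph_adj_iff_exists]
        refine ⟨?_, ⟨G.vert e, h1⟩, ?_, ?_⟩
        · intro h3
          apply hne
          have h4 := congrArg Subtype.val h3
          simp only [Sym2.eq_iff, Subtype.mk.injEq] at h4
          rcases h4 with ⟨_, h5⟩ | ⟨h5, h6⟩
          · exact hs.nomulti _ _ h h5
          · exfalso
            exact hs.loopless e (by rw [h6, h])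
        · simp
        · simp [h]
      exact C.valid hadj h'
  · -- the covering map
    obtain ⟨f, φ, a1, a2, a3, a4⟩ := hA
    have hd : ∀ d : K.toSimpleGraph.Dart, ∃ e, G.vert e = d.fst.1 ∧ G.vert (G.opp e) = d.snd.1 :=
      fun d => d.adj
    choose en hen1 hen2 using hd
    refine ⟨fun w => f w.1, fun d => φ (en d), ?_, ?_⟩
    · intro w
      refine ⟨?_, ?_, ?_⟩
      · intro d hd
        simp only [Set.mem_ofPred_eq] at hd ⊢
        rw [a1, hen1, hd]
      · intro d hd d' hd' h
        simp only [Set.mem_ofPred_eq] at hd hd' h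
        have h1 : en d = en d' := a4 _ _ (by rw [hen1, hen1, hd, hd']) h
        apply SimpleGraph.Dart.ext
        ext
        · rw [hd, hd']
        · rw [← hen2, ← hen2, h1]
      · intro e he
        simp only [Set.mem_ofPred_eq] at he
        obtain ⟨e', h1, h2⟩ := a3 w.1 e he
        have h3 : G.vert e' ∈ K := by rw [h1]; exact w.2
        refine ⟨⟨(⟨G.vert e', h3⟩, ⟨G.vert (G.opp e'), hmem e' h3⟩), G.toSimple_adj hs e'⟩,
          ?_, ?_⟩
        · simp only [Set.mem_ofPred_eq]
          exact Subtype.ext h1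
        · rw [← h2]
          refine congrArg φ (hs.nomulti _ _ ?_ ?_)
          · rw [hen1]
          · rw [hen2]
    · intro d
      rw [← a2]
      refine congrArg φ (hs.nomulti _ _ ?_ ?_)
      · rw [hen1, hen2]
        rfl
      · rw [G.opp_opp, hen1, hen2]
        rfl

end EndGraph

/-- Every finite connected cubic graph
(loops, multiple edges and semi-edges allowed) that is not 3-edge-colourable is covered by a
finite simple 2-connected graph that is not 3-edge-colourable. -/
theorem main (V E : Type) [Finite V] [Finite E] (A : EndGraph V E) (_hconn : A.Connected)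
    (hcub : A.Cubic) (hcol : ¬ A.Colorable3) :
    ∃ (W : Type) (_ : Finite W) (H : SimpleGraph W),
      TwoConnected H ∧ ¬ H.lineGraph.Colorable 3 ∧ A.CoveredBy H := by
  have := Fintype.ofFinite V
  have := Fintype.ofFinite E
  obtain ⟨B, hB1, hB2, hB3⟩ := A.exists_noSemi hcol
  obtain ⟨V₁, E₁, _, _, N, hN1, hN2, hN3, hN4⟩ := B.exists_noOneCut (hB1.cubic hcub) hB2 hB3
  obtain ⟨V₂, E₂, _, _, G, hG1, hG2, hG3, hG4⟩ :=
    N.exists_simple ((hN1.trans hB1).cubic hcub) hN2 hN3 hN4
  exact G.exists_component hG2 ((hG1.trans (hN1.trans hB1)).cubic hcub) hG3 hG4 A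
    (hG1.trans (hN1.trans hB1))

end Pool.Agent.Helper1.Snark
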